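import Pool.Agent.Helper48.TC.LY

set_option autoImplicit false
set_option linter.unusedSectionVars false

/-! # The root of the divisor over a singular point of the tangent cone -/

namespace Pool.Agent.Helper48.TC

open Finset MvPolynomial Pool.Agent.H628R4.TP Pool.Agent.K3h38.SM Pool.Agent.Helper48.SN
  Pool.Agent.Helper48.SW

variable {n : ℕ}

theorem ey_zero_iff (a : Fin n → ℕ) (ha : ∀ i, 0 < a i) (β : Fin n →₀ ℕ)
    (h : Finsupp.weight a β = 0) : β = 0 := by
  have h1 := degree_le_weight a ha β
  exact (Finsupp.degree_eq_zero_iff β).1 (by omega)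

theorem init_f (ξ : Fin (n + 1) → PS (Fin n)) (f : MvPolynomial (Fin (n + 1)) ℂ) (d k : ℕ)
    (hk : 0 < k) (hf0 : ∀ l, l < d → homogeneousComponent l f = 0)
    (hf1 : ∀ l, d < l → l < d + k → homogeneousComponent l f = 0)
    (a : Fin n → ℕ) (ha : ∀ i, 0 < a i) (e : ℕ) (he : 0 < e) (h : MvPolynomial (Fin n) ℂ)
    (hh : IsWeightedHomogeneous a h e)
    (hξ : ∀ β : Fin n →₀ ℕ, Finsupp.weight a β ≤ e →
      MvPowerSeries.coeff β (aeval ξ (homogeneousComponent d f) : PS (Fin n)) = coeff β h)
    (c : ℂ) (hc : MvPowerSeries.constantCoeff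
      (aeval ξ (homogeneousComponent (d + k) f) : PS (Fin n)) = c) :
    IsInit (vZ a k e) (aeval (chZ ξ) f : PS (Fin (n + 1))) (d * e + 1 * (k * e))
      (FZ h c k 0 ^ d * FZ h c k 1 ^ 1) := by
  have hcoe : ((X (Fin.last n) ^ d * (rename Fin.castSucc h + C c * X (Fin.last n) ^ k) :
      MvPolynomial (Fin (n + 1)) ℂ) : PS (Fin (n + 1))) =
      (MvPowerSeries.X (Fin.last n) : PS (Fin (n + 1))) ^ d * rn (h : PS (Fin n)) +
      (MvPowerSeries.X (Fin.last n) : PS (Fin (n + 1))) ^ (d + k) * rn (MvPowerSeries.C c) := by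
    have h1 : rn (h : PS (Fin n)) = ((rename Fin.castSucc h : MvPolynomial (Fin (n + 1)) ℂ) :
      PS (Fin (n + 1))) := MvPowerSeries.rename_coe _ h
    have h2 : rn (MvPowerSeries.C c : PS (Fin n)) = MvPowerSeries.C c := MvPowerSeries.rename_C _ c
    rw [h1, h2]
    push_cast
    ring
  constructor
  · rw [FZ, FZ, if_pos rfl, if_neg (by decide), pow_one, one_mul]
    have h1 : IsWeightedHomogeneous (vZ a k e) (X (Fin.last n) : MvPolynomial (Fin (n + 1)) ℂ) e := by
      have h2 := isWeightedHomogeneous_X ℂ (vZ a k e) (Fin.last n)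
      rwa [vZ, Fin.lastCases_last] at h2
    have h3 := h1.pow d
    rw [smul_eq_mul] at h3
    refine h3.mul (IsWeightedHomogeneous.add (hom_rename_Z a k e e h hh) ?_)
    have h4 := (h1.pow k).C_mul c
    rwa [smul_eq_mul] at h4
  · intro α hα
    rw [FZ, FZ, if_pos rfl, if_neg (by decide), pow_one, ← MvPolynomial.coeff_coe, hcoe, map_add,
      coeff_z_rn, coeff_z_rn, coeff_aeval_chZ]
    rw [weight_vZ] at hα
    set l := α (Fin.last n) with hl
    rcases lt_trichotomy l d with h1 | h1 | h1
    · rw [hf0 l h1, map_zero, map_zero, if_neg (by omega), if_neg (by omega), add_zero]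
    · have hw : Finsupp.weight a (ey α) ≤ e := by
        rw [h1] at hα
        have h4 : k * Finsupp.weight a (ey α) ≤ k * e := by
          have : d * e + 1 * (k * e) = k * e + d * e := by ring
          omega
        exact Nat.le_of_mul_le_mul_left h4 hk
      rw [if_pos h1, if_neg (by omega), add_zero, h1, hξ _ hw, MvPolynomial.coeff_coe]
    · rcases lt_trichotomy l (d + k) with h2 | h2 | h2
      · rw [hf1 l h1 h2, map_zero, map_zero, if_neg (by omega), if_neg (by omega), add_zero]
      · rw [if_neg (by omega), if_pos h2, zero_add, h2]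
        have h3 : Finsupp.weight a (ey α) = 0 := by
          rw [h2] at hα
          have h4 : k * Finsupp.weight a (ey α) ≤ 0 := by
            have : d * e + 1 * (k * e) = (d + k) * e := by ring
            omega
          rcases Nat.eq_zero_or_pos (Finsupp.weight a (ey α)) with h5 | h5
          · exact h5
          · have := Nat.mul_pos hk h5
            omega
        rw [ey_zero_iff a ha _ h3, MvPowerSeries.coeff_zero_eq_constantCoeff_apply, hc,
          MvPowerSeries.coeff_zero_eq_constantCoeff_apply, MvPowerSeries.constantCoeff_C]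
      · exfalso
        have h3 : (d + k + 1) * e ≤ l * e := Nat.mul_le_mul_right e h2
        have h4 : (d + k + 1) * e = d * e + 1 * (k * e) + e := by ring
        omega

theorem init_J (ξ : Fin (n + 1) → PS (Fin n)) (a : Fin n → ℕ) (ha : ∀ i, 0 < a i) (k e : ℕ)
    (hk : 0 < k) (h : MvPolynomial (Fin n) ℂ) (c D : ℂ)
    (hD : MvPowerSeries.constantCoeff (smat ξ).det = D) :
    IsInit (vZ a k e) (jacS (chZ ξ)).det (n * e + 0 * (k * e))
      (C D * (FZ h c k 0 ^ n * FZ h c k 1 ^ 0)) := by
  have hcoe : ((C D * X (Fin.last n) ^ n : MvPolynomial (Fin (n + 1)) ℂ) : PS (Fin (n + 1))) =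
      (MvPowerSeries.X (Fin.last n) : PS (Fin (n + 1))) ^ n * rn (MvPowerSeries.C D) := by
    have h2 : rn (MvPowerSeries.C D : PS (Fin n)) = MvPowerSeries.C D := MvPowerSeries.rename_C _ D
    rw [h2]
    push_cast
    ring
  rw [FZ, if_pos rfl, pow_zero, mul_one, zero_mul, add_zero]
  constructor
  · have h1 : IsWeightedHomogeneous (vZ a k e) (X (Fin.last n) : MvPolynomial (Fin (n + 1)) ℂ) e := by
      have h2 := isWeightedHomogeneous_X ℂ (vZ a k e) (Fin.last n)
      rwa [vZ, Fin.lastCases_last] at h2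
    have h3 := (h1.pow n).C_mul D
    rwa [smul_eq_mul] at h3
  · intro α hα
    rw [jac_chZ, ← MvPolynomial.coeff_coe, hcoe, coeff_z_rn, coeff_z_rn]
    rw [weight_vZ] at hα
    split_ifs with h1
    · rw [h1] at hα
      have h3 : Finsupp.weight a (ey α) = 0 := by
        rcases Nat.eq_zero_or_pos (Finsupp.weight a (ey α)) with h5 | h5
        · exact h5
        · have := Nat.mul_pos hk h5
          omega
      rw [ey_zero_iff a ha _ h3, MvPowerSeries.coeff_zero_eq_constantCoeff_apply, hD,
        MvPowerSeries.coeff_zero_eq_constantCoeff_apply, MvPowerSeries.constantCoeff_C]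
    · rfl

/-- **The root of the divisor over a singular point of the tangent cone.** -/
theorem root_EP (hn : 1 ≤ n) (ξ : Fin (n + 1) → PS (Fin n)) (f H : MvPolynomial (Fin (n + 1)) ℂ)
    (b : Polynomial ℂ) (hb : FEq f H b) (hH : eval 0 H ≠ 0) (d k : ℕ) (hd : 0 < d)
    (hk : 0 < k) (hf0 : ∀ l, l < d → homogeneousComponent l f = 0)
    (hf1 : ∀ l, d < l → l < d + k → homogeneousComponent l f = 0)
    (a : Fin n → ℕ) (ha : ∀ i, 0 < a i) (e : ℕ) (he : 0 < e) (h : MvPolynomial (Fin n) ℂ)
    (hh : IsWeightedHomogeneous a h e)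
    (hcrit : ∀ y : Fin n → ℂ, (∀ i, eval y (pderiv i h) = 0) → y = 0)
    (hξ : (aeval ξ (homogeneousComponent d f) : PS (Fin n)) = (h : PS (Fin n)))
    (hsing : ∀ j, eval (fun j => MvPowerSeries.constantCoeff (ξ j))
      (pderiv j (homogeneousComponent d f)) = 0)
    (hc : eval (fun j => MvPowerSeries.constantCoeff (ξ j)) (homogeneousComponent (d + k) f) ≠ 0)
    (hD : MvPowerSeries.constantCoeff (smat ξ).det ≠ 0)
    (hlam : ∀ l : ℕ, d * (k * ∑ i, a i + (n + 1) * e) + l * ((d + k) * e) ≠ n * ((d + k) * e)) :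
    b.eval (-((k * ∑ i, a i + (n + 1) * e : ℕ) : ℂ) / (((d + k) * e : ℕ) : ℂ)) = 0 := by
  set c : ℂ := eval (fun j => MvPowerSeries.constantCoeff (ξ j)) (homogeneousComponent (d + k) f)
    with hcd
  set D : ℂ := MvPowerSeries.constantCoeff (smat ξ).det with hDd
  have hgrad0 : ∀ i, eval 0 (pderiv i h) = 0 := by
    intro i
    have h1 := pp_aeval' ξ i (homogeneousComponent d f)
    rw [hξ] at h1
    have h2 := congrArg MvPowerSeries.constantCoeff h1
    rw [map_sum, Finset.sum_eq_zero fun j _ => by rw [map_mul, const_aeval, hsing j, zero_mul]] at h2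
    have h3 : pp i (h : PS (Fin n)) = ((pderiv i h : MvPolynomial (Fin n) ℂ) : PS (Fin n)) := by
      ext m
      rw [pp_apply, MvPowerSeries.coeff_pderiv, MvPolynomial.coeff_coe, MvPolynomial.coeff_coe,
        coeff_pderiv]
    rw [h3, ← MvPowerSeries.coeff_zero_eq_constantCoeff_apply, MvPolynomial.coeff_coe] at h2
    rw [eval_zero, constantCoeff_eq]
    exact h2
  have hh0 : eval 0 h = 0 := by
    rw [eval_zero, constantCoeff_eq]
    by_contra h1
    have h2 := hh h1
    rw [map_zero] at h2
    omega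
  have hsv : ∑ i, vZ a k e i = k * ∑ i, a i + e := by
    rw [Fin.sum_univ_castSucc, vZ, Fin.lastCases_last, Finset.mul_sum]
    congr 1
    exact Finset.sum_congr rfl fun i _ => by rw [vZ, Fin.lastCases_castSucc]
  have key := chart_root (c := n + 1) (by omega) (chZ ξ) (vZ a k e)
    (fun i => by
      refine Fin.lastCases ?_ (fun i => ?_) i
      · rw [vZ, Fin.lastCases_last]
        exact he
      · rw [vZ, Fin.lastCases_castSucc]
        exact Nat.mul_pos hk (ha i)) f H b hb (by
      have h1 : (fun j => MvPowerSeries.constantCoeff (chZ ξ j)) = 0 := by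
        funext j
        rw [chZ, map_mul, MvPowerSeries.constantCoeff_X, zero_mul]
        rfl
      rw [h1]
      exact hH) D hD (FZ h c k) ![e, k * e] ![d, 1] ![n, 0]
    (fun i => by
      have h1 : IsWeightedHomogeneous (vZ a k e) (X (Fin.last n) : MvPolynomial (Fin (n + 1)) ℂ)
          e := by
        have h2 := isWeightedHomogeneous_X ℂ (vZ a k e) (Fin.last n)
        rwa [vZ, Fin.lastCases_last] at h2
      fin_cases i
      · exact h1
      · refine IsWeightedHomogeneous.add (hom_rename_Z a k e e h hh) ?_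
        have h4 := (h1.pow k).C_mul c
        rwa [smul_eq_mul] at h4)
    (fun i => by
      fin_cases i
      · exact he
      · exact Nat.mul_pos hk he)
    (fun i => by
      fin_cases i
      · exact hd
      · exact le_rfl)
    (snc_FZ h c hc k hcrit hh0) (dep_FZ h c k hgrad0)
    (fun i l => by
      rw [hsv, Fin.sum_univ_two, Fin.sum_univ_two]
      fin_cases i
      · change d * (k * ∑ i, a i + e + (n * e + 0 * (k * e))) + l * (d * e + 1 * (k * e)) ≠
          n * (d * e + 1 * (k * e))
        have h1 : d * (k * ∑ i, a i + e + (n * e + 0 * (k * e))) + l * (d * e + 1 * (k * e)) =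
          d * (k * ∑ i, a i + (n + 1) * e) + l * ((d + k) * e) := by ring
        have h2 : n * (d * e + 1 * (k * e)) = n * ((d + k) * e) := by ring
        rw [h1, h2]
        exact hlam l
      · change 1 * (k * ∑ i, a i + e + (n * e + 0 * (k * e))) + l * (d * e + 1 * (k * e)) ≠
          0 * (d * e + 1 * (k * e))
        rw [zero_mul]
        have : 0 < e := he
        omega)
    (by
      rw [Fin.sum_univ_two, Fin.prod_univ_two]
      exact init_f ξ f d k hk hf0 hf1 a ha e he h hh (fun β _ => by
        rw [hξ, MvPolynomial.coeff_coe]) c (const_aeval ξ _))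
    (by
      rw [Fin.sum_univ_two, Fin.prod_univ_two]
      exact init_J ξ a ha k e hk h c D rfl)
  rw [hsv, Fin.sum_univ_two, Fin.sum_univ_two] at key
  have h1 : k * ∑ i, a i + e + (![n, 0] 0 * ![e, k * e] 0 + ![n, 0] 1 * ![e, k * e] 1) =
      k * ∑ i, a i + (n + 1) * e := by
    change k * ∑ i, a i + e + (n * e + 0 * (k * e)) = _
    ring
  have h2 : ![d, 1] 0 * ![e, k * e] 0 + ![d, 1] 1 * ![e, k * e] 1 = (d + k) * e := by
    change d * e + 1 * (k * e) = _
    ring
  rw [h1, h2] at key
  exact key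

end Pool.Agent.Helper48.TC
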