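import Pool.Agent.Helper48.TC.Kos

set_option autoImplicit false
set_option linter.unusedSectionVars false

/-! # From local to global -/

namespace Pool.Agent.Helper48.TC

open Finset MvPolynomial Pool.Agent.Helper48.SN

variable {n : ℕ}

theorem exists_hyper {J : Type} [Fintype J] (p : J → Fin (n + 1) → ℂ) (hp : ∀ j, p j ≠ 0) :
    ∃ c : Fin (n + 1) → ℂ, c 0 ≠ 0 ∧ ∀ j, ∑ i, c i * p j i ≠ 0 := by
  classical
  have h1 : (X 0 * ∏ j, ∑ i, X i * C (p j i) : MvPolynomial (Fin (n + 1)) ℂ) ≠ 0 := by
    refine mul_ne_zero (X_ne_zero 0) (Finset.prod_ne_zero_iff.2 fun j _ h2 => ?_)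
    apply hp j
    funext i
    have h3 := congrArg (eval (Pi.single i (1 : ℂ))) h2
    rw [map_sum, Finset.sum_eq_single i] at h3
    · rw [map_mul, eval_X, eval_C, Pi.single_eq_same, one_mul, map_zero] at h3
      exact h3
    · intro k _ hk
      rw [map_mul, eval_X, eval_C, Pi.single_eq_of_ne hk, zero_mul]
    · intro h4
      exact absurd (Finset.mem_univ i) h4
  have h2 : ∃ c : Fin (n + 1) → ℂ,
      eval c (X 0 * ∏ j, ∑ i, X i * C (p j i) : MvPolynomial (Fin (n + 1)) ℂ) ≠ 0 := by
    by_contra hcon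
    push Not at hcon
    exact h1 (MvPolynomial.funext fun x => by rw [hcon, map_zero])
  obtain ⟨c, hc⟩ := h2
  rw [map_mul, map_prod, eval_X] at hc
  refine ⟨c, left_ne_zero_of_mul hc, fun j hj => ?_⟩
  have h3 := Finset.prod_ne_zero_iff.1 (right_ne_zero_of_mul hc) j (Finset.mem_univ j)
  apply h3
  rw [map_sum, ← hj]
  exact Finset.sum_congr rfl fun i _ => by rw [map_mul, eval_X, eval_C]

/-- the restriction to a hyperplane -/
noncomputable def res (c : Fin (n + 1) → ℂ) :
    MvPolynomial (Fin (n + 1)) ℂ →ₐ[ℂ] MvPolynomial (Fin n) ℂ :=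
  aeval (Fin.cons (-C (c 0)⁻¹ * ∑ l : Fin n, C (c l.succ) * X l) fun l => X l)

/-- the equation of the hyperplane -/
noncomputable def lf (c : Fin (n + 1) → ℂ) : MvPolynomial (Fin (n + 1)) ℂ := ∑ i, C (c i) * X i

variable (c : Fin (n + 1) → ℂ)

theorem res_zero : res c (X 0) = -C (c 0)⁻¹ * ∑ l : Fin n, C (c l.succ) * X l := by
  rw [res, aeval_X, Fin.cons_zero]

theorem res_succ (l : Fin n) : res c (X l.succ) = X l := by
  rw [res, aeval_X, Fin.cons_succ]

theorem res_rename (q : MvPolynomial (Fin n) ℂ) : res c (rename Fin.succ q) = q := by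
  rw [res, aeval_rename]
  have h1 : (Fin.cons (-C (c 0)⁻¹ * ∑ l : Fin n, C (c l.succ) * X l) fun l => X l :
      Fin (n + 1) → MvPolynomial (Fin n) ℂ) ∘ Fin.succ = X := by
    funext l
    rw [Function.comp_apply, Fin.cons_succ]
  rw [h1, aeval_X_left, AlgHom.id_apply]

theorem res_surj : Function.Surjective (res c) := fun q => ⟨_, res_rename c q⟩

theorem res_lf (h0 : c 0 ≠ 0) : res c (lf c) = 0 := by
  have h1 : ∀ a : ℂ, res c (C a) = C a := fun a => by
    rw [res, aeval_C]
    rfl
  rw [lf, Fin.sum_univ_succ, map_add, map_mul, h1, res_zero, map_sum,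
    Finset.sum_congr rfl fun l _ => show res c (C (c (Fin.succ l)) * X (Fin.succ l)) =
      C (c (Fin.succ l)) * X l by rw [map_mul, h1, res_succ]]
  have h2 : C (c 0) * C (c 0)⁻¹ = (1 : MvPolynomial (Fin n) ℂ) := by
    rw [← C_mul, mul_inv_cancel₀ h0, C_1]
  linear_combination -(∑ l : Fin n, C (c l.succ) * X l) * h2

theorem lf_ne (h0 : c 0 ≠ 0) : lf c ≠ 0 := by
  intro h
  have h1 := congrArg (eval (Pi.single 0 (1 : ℂ))) h
  rw [lf, map_sum, Finset.sum_eq_single 0] at h1
  · rw [map_mul, eval_X, eval_C, Pi.single_eq_same, mul_one, map_zero] at h1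
    exact h0 h1
  · intro k _ hk
    rw [map_mul, eval_X, eval_C, Pi.single_eq_of_ne hk, mul_zero]
  · intro h4
    exact absurd (Finset.mem_univ _) h4

theorem res_ker (h0 : c 0 ≠ 0) (p : MvPolynomial (Fin (n + 1)) ℂ) (hp : res c p = 0) :
    ∃ q, p = lf c * q := by
  have h1 : ∀ p : MvPolynomial (Fin (n + 1)) ℂ, p - rename Fin.succ (res c p) ∈
      Ideal.span {lf c} := by
    intro p
    induction p using MvPolynomial.induction_on with
    | C a =>
      have h2 : res c (C a) = C a := by
        rw [res, aeval_C]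
        rfl
      rw [h2, rename_C, sub_self]
      exact Ideal.zero_mem _
    | add p q hp hq =>
      rw [map_add, map_add]
      have := Ideal.add_mem _ hp hq
      rwa [sub_add_sub_comm] at this
    | mul_X p i hp =>
      have h2 : (X i : MvPolynomial (Fin (n + 1)) ℂ) - rename Fin.succ (res c (X i)) ∈
          Ideal.span {lf c} := by
        refine Fin.cases ?_ (fun l => ?_) i
        · rw [Ideal.mem_span_singleton']
          refine ⟨C (c 0)⁻¹, ?_⟩
          have h3 : C (c 0)⁻¹ * C (c 0) = (1 : MvPolynomial (Fin (n + 1)) ℂ) := by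
            rw [← C_mul, inv_mul_cancel₀ h0, C_1]
          have h4 : rename Fin.succ (∑ l : Fin n, C (c l.succ) * X l) =
              ∑ l : Fin n, C (c l.succ) * (X l.succ : MvPolynomial (Fin (n + 1)) ℂ) := by
            rw [map_sum]
            exact Finset.sum_congr rfl fun l _ => by rw [map_mul, rename_C, rename_X]
          rw [res_zero, map_mul, map_neg, rename_C, h4, lf, Fin.sum_univ_succ]
          linear_combination X 0 * h3
        · rw [res_succ, rename_X, sub_self]
          exact Ideal.zero_mem _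
      rw [map_mul, map_mul]
      have h5 : p * X i - rename Fin.succ (res c p) * rename Fin.succ (res c (X i)) =
          (p - rename Fin.succ (res c p)) * X i + rename Fin.succ (res c p) *
            (X i - rename Fin.succ (res c (X i))) := by ring
      rw [h5]
      exact Ideal.add_mem _ (Ideal.mul_mem_right _ _ hp) (Ideal.mul_mem_left _ _ h2)
  have h2 := h1 p
  rw [hp, map_zero, sub_zero] at h2
  obtain ⟨q, hq⟩ := Ideal.mem_span_singleton'.1 h2
  exact ⟨q, by rw [← hq, mul_comm]⟩

theorem eval_res (h0 : c 0 ≠ 0) (y : Fin n → ℂ) : ∃ x : Fin (n + 1) → ℂ,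
    (∀ p, eval y (res c p) = eval x p) ∧ (∀ l : Fin n, x l.succ = y l) ∧ ∑ i, c i * x i = 0 := by
  refine ⟨Fin.cons (-(c 0)⁻¹ * ∑ l : Fin n, c l.succ * y l) y, fun p => ?_,
    fun l => Fin.cons_succ _ _ _, ?_⟩
  · induction p using MvPolynomial.induction_on with
    | C a =>
      rw [res, aeval_C, eval_C]
      exact eval_C _
    | add p q hp hq => rw [map_add, map_add, hp, hq, map_add]
    | mul_X p i hp =>
      rw [map_mul, map_mul, hp, map_mul, eval_X]
      congr 1
      refine Fin.cases ?_ (fun l => ?_) i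
      · rw [res_zero, Fin.cons_zero, map_mul, map_neg, eval_C, map_sum]
        congr 1
        exact Finset.sum_congr rfl fun l _ => by rw [map_mul, eval_C, eval_X]
      · rw [res_succ, Fin.cons_succ, eval_X]
  · rw [Fin.sum_univ_succ, Fin.cons_zero]
    simp only [Fin.cons_succ]
    field_simp
    ring

/-- **From local to global.** -/
theorem KV_global (g : Fin (n + 1) → MvPolynomial (Fin (n + 1)) ℂ) {J : Type} [Fintype J]
    (p : J → Fin (n + 1) → ℂ) (hp : ∀ j, p j ≠ 0)
    (hsing : ∀ q : Fin (n + 1) → ℂ, q ≠ 0 → (∀ i, eval q (g i) = 0) → ∃ (j : J) (t : ℂ), q = t • p j)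
    (v : Fin (n + 1) → MvPolynomial (Fin (n + 1)) ℂ) (hv : ∑ j, v j * g j = 0)
    (hloc : ∀ q : Fin (n + 1) → ℂ, q ≠ 0 → (∀ i, eval q (g i) = 0) →
      ∃ a, eval q a ≠ 0 ∧ a • v ∈ KV g) : v ∈ KV g := by
  classical
  obtain ⟨c, hc0, hc⟩ := exists_hyper p hp
  have hM : ∃ M, ∀ i : Fin n, (X i : MvPolynomial (Fin n) ℂ) ^ M ∈
      Ideal.span (Set.range fun j => res c (g j)) := by
    have h1 : ∀ i : Fin n, ∃ M, (X i : MvPolynomial (Fin n) ℂ) ^ M ∈
        Ideal.span (Set.range fun j => res c (g j)) := by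
      intro i
      refine pow_mem_of_zero _ (fun y hy => ?_) _ (by simp)
      obtain ⟨x, hx, hxs, hxl⟩ := eval_res c hc0 y
      by_contra hy0
      have hx0 : x ≠ 0 := by
        intro h2
        apply hy0
        funext l
        rw [← hxs l, h2]
        rfl
      obtain ⟨j, t, hq⟩ := hsing x hx0 fun i => by
        rw [← hx]
        exact hy _ (Ideal.subset_span ⟨i, rfl⟩)
      have h3 : t * ∑ i, c i * p j i = 0 := by
        rw [← hxl, hq, Finset.mul_sum]
        refine Finset.sum_congr rfl fun i _ => ?_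
        rw [Pi.smul_apply, smul_eq_mul]
        ring
      rcases mul_eq_zero.1 h3 with h4 | h4
      · apply hx0
        rw [hq, h4, zero_smul]
      · exact hc j h4
    choose M hM using h1
    refine ⟨∑ i, M i, fun i => ?_⟩
    have h2 : M i ≤ ∑ i, M i := Finset.single_le_sum (fun _ _ => Nat.zero_le _) (Finset.mem_univ i)
    obtain ⟨k, hk⟩ := Nat.exists_eq_add_of_le h2
    rw [hk, pow_add]
    exact Ideal.mul_mem_right _ _ (hM i)
  obtain ⟨M, hM⟩ := hM
  set 𝔞 : Ideal (MvPolynomial (Fin (n + 1)) ℂ) :=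
    { carrier := {a | a • v ∈ KV g}
      add_mem' := fun {a b} ha hb => by
        change (a + b) • v ∈ KV g
        rw [add_smul]
        exact Submodule.add_mem _ ha hb
      zero_mem' := by
        change (0 : MvPolynomial (Fin (n + 1)) ℂ) • v ∈ KV g
        rw [zero_smul]
        exact Submodule.zero_mem _
      smul_mem' := fun a b hb => by
        change (a * b) • v ∈ KV g
        rw [mul_smul]
        exact Submodule.smul_mem _ _ hb } with h𝔞
  obtain ⟨K, hK⟩ := pow_mem_of_zero 𝔞 (fun q hq => by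
    by_contra hq0
    by_cases h1 : ∀ i, eval q (g i) = 0
    · obtain ⟨a, ha, hav⟩ := hloc q hq0 h1
      exact ha (hq a hav)
    · push Not at h1
      obtain ⟨i, hi⟩ := h1
      exact hi (hq (g i) (KV_of_mul g v hv i))) (lf c) (by
        rw [lf, map_sum]
        exact Finset.sum_eq_zero fun i _ => by rw [map_mul, eval_X, Pi.zero_apply, mul_zero])
  have h3 : ∀ K, lf c ^ K • v ∈ KV g → v ∈ KV g := by
    intro K
    induction K with
    | zero =>
      intro h
      rwa [pow_zero, one_smul] at h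
    | succ K ih =>
      intro h
      refine ih (depth_step g (res c) (res_surj c) (lf c) (lf_ne c hc0) (res_lf c hc0)
        (res_ker c hc0) M hM _ ?_)
      rwa [smul_smul, ← pow_succ']
  exact h3 K hK

end Pool.Agent.Helper48.TC
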