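import Pool.Agent.Helper48.TC.Kru

set_option autoImplicit false
set_option linter.unusedSectionVars false

/-! # The local step at a quasi-homogeneous singular point of the cone -/

namespace Pool.Agent.Helper48.TC

open Finset MvPolynomial Pool.Agent.H628R4.TP Pool.Agent.K3h38.SM Pool.Agent.Helper48.SN
  Pool.Agent.Helper48.SW

variable {n : ℕ}

theorem ey_zero : ey (0 : Fin (n + 1) →₀ ℕ) = 0 := by
  ext l
  rfl

theorem const_rn (g : PS (Fin n)) :
    MvPowerSeries.constantCoeff (rn g) = MvPowerSeries.constantCoeff g := by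
  rw [← MvPowerSeries.coeff_zero_eq_constantCoeff_apply, coeff_rn, if_pos (by rfl),
    ← MvPowerSeries.coeff_zero_eq_constantCoeff_apply, ey_zero]

theorem OKI_rn {K : ℕ} {g : PS (Fin n)} (hg : g ∈ OKI (Fin n) K) :
    rn g ∈ OKI (Fin (n + 1)) K := by
  intro m hm
  rw [coeff_rn]
  split_ifs with h
  · refine hg _ ?_
    have h1 : m.degree = (ey m).degree + m (Fin.last n) := by
      rw [Finsupp.degree_eq_sum, Finsupp.degree_eq_sum, Fin.sum_univ_castSucc]
      rfl
    omega
  · rfl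

/-- the chart `x = (1 + z) ξ(y)` -/
noncomputable def chU (ξ : Fin (n + 1) → PS (Fin n)) (j : Fin (n + 1)) : PS (Fin (n + 1)) :=
  (1 + MvPowerSeries.X (Fin.last n)) * rn (ξ j)

theorem aeval_chU (ξ : Fin (n + 1) → PS (Fin n)) (p : MvPolynomial (Fin (n + 1)) ℂ) (l : ℕ)
    (hp : p.IsHomogeneous l) : aeval (chU ξ) p =
      (1 + MvPowerSeries.X (Fin.last n) : PS (Fin (n + 1))) ^ l * rn (aeval ξ p) := by
  rw [p.as_sum, map_sum, map_sum, map_sum, Finset.mul_sum]
  refine Finset.sum_congr rfl fun m hm => ?_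
  have h1 : ∑ i, m i = l := by
    have h2 := hp (mem_support_iff.1 hm)
    rw [← h2, Finsupp.weight_apply, Finsupp.sum_fintype _ _ (by simp)]
    simp
  rw [aeval_monomial, aeval_monomial, Finsupp.prod_fintype _ _ (by simp),
    Finsupp.prod_fintype _ _ (by simp), map_mul, map_prod, AlgHom.commutes]
  simp only [chU, mul_pow, map_pow]
  rw [Finset.prod_mul_distrib, Finset.prod_pow_eq_pow_sum, h1]
  ring

theorem const_chU (ξ : Fin (n + 1) → PS (Fin n)) (j : Fin (n + 1)) :
    MvPowerSeries.constantCoeff (chU ξ j) = MvPowerSeries.constantCoeff (ξ j) := by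
  rw [chU, map_mul, map_add, map_one, MvPowerSeries.constantCoeff_X, add_zero, one_mul, const_rn]

theorem lin_chU (ξ : Fin (n + 1) → PS (Fin n)) :
    (lin (chU ξ)).det = MvPowerSeries.constantCoeff (smat ξ).det := by
  rw [RingHom.map_det]
  congr 1
  ext j i
  rw [lin, Matrix.of_apply, RingHom.mapMatrix_apply, Matrix.map_apply]
  have h1 : chU ξ j = (MvPowerSeries.X (Fin.last n) : PS (Fin (n + 1))) ^ 0 * rn (ξ j) +
      (MvPowerSeries.X (Fin.last n) : PS (Fin (n + 1))) ^ 1 * rn (ξ j) := by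
    rw [chU]
    ring
  rw [h1, map_add, coeff_z_rn, coeff_z_rn]
  refine Fin.lastCases ?_ (fun i => ?_) i
  · rw [smat_last, Finsupp.single_eq_same, if_neg one_ne_zero, if_pos rfl, zero_add,
      ← MvPowerSeries.coeff_zero_eq_constantCoeff_apply]
    have h2 : ey (Finsupp.single (Fin.last n) 1 : Fin (n + 1) →₀ ℕ) = 0 := by
      ext l
      rw [ey_apply, Finsupp.single_eq_of_ne (Fin.castSucc_ne_last l)]
      rfl
    rw [h2]
  · rw [smat_succ, Finsupp.single_eq_of_ne (Fin.castSucc_ne_last i).symm, if_pos rfl,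
      if_neg zero_ne_one, add_zero, ← MvPowerSeries.coeff_zero_eq_constantCoeff_apply, pp_apply,
      MvPowerSeries.coeff_pderiv, zero_add]
    have h2 : ey (Finsupp.single i.castSucc 1 : Fin (n + 1) →₀ ℕ) = Finsupp.single i 1 := by
      ext l
      rw [ey_apply]
      by_cases h3 : l = i
      · rw [h3, Finsupp.single_eq_same, Finsupp.single_eq_same]
      · rw [Finsupp.single_eq_of_ne h3,
          Finsupp.single_eq_of_ne (fun h => h3 (Fin.castSucc_injective n h))]
    rw [h2, Finsupp.coe_zero, Pi.zero_apply, Nat.cast_zero, zero_add, mul_one]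

/-- **The local step.** -/
theorem local_KV (φ : MvPolynomial (Fin (n + 1)) ℂ) (d : ℕ)
    (hφ : φ.IsHomogeneous d) (ξ : Fin (n + 1) → PS (Fin n)) (p : Fin (n + 1) → ℂ)
    (hp : ∀ j, MvPowerSeries.constantCoeff (ξ j) = p j)
    (hD : MvPowerSeries.constantCoeff (smat ξ).det ≠ 0)
    (a : Fin n → ℕ) (ha : ∀ i, 0 < a i) (e : ℕ) (he : 0 < e) (h : MvPolynomial (Fin n) ℂ)
    (hh : IsWeightedHomogeneous a h e)
    (hcrit : ∀ y : Fin n → ℂ, (∀ i, eval y (pderiv i h) = 0) → y = 0)
    (hξ : (aeval ξ φ : PS (Fin n)) = (h : PS (Fin n))) (k : ℕ) (hk : 1 ≤ k) (c : ℂ)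
    (Θ : Fin (n + 1) → MvPolynomial (Fin (n + 1)) ℂ) (hΘ : ∀ i, (Θ i).IsHomogeneous (d * k + 1))
    (h1 : ∑ i, Θ i * pderiv i φ = 0) (h2 : ∑ i, pderiv i (Θ i) = C c * φ ^ k)
    (hNR : ∀ r : ℕ, d * (∑ i, a i + r) = (d * k + (n + 1)) * e →
      ∀ g : MvPolynomial (Fin n) ℂ, IsWeightedHomogeneous a g r → g ∈ JJ h) :
    ∃ b, eval p b ≠ 0 ∧ b • Θ ∈ KV fun i => pderiv i φ := by
  classical
  have hD0 : (smat ξ).det ≠ 0 := by
    intro h3
    rw [h3, map_zero] at hD
    exact hD rfl
  obtain ⟨E, hE⟩ : ∃ E, (smat ξ).det * E = 1 := by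
    have h3 : IsUnit (smat ξ).det :=
      MvPowerSeries.isUnit_iff_constantCoeff.2 (isUnit_iff_ne_zero.2 hD)
    exact h3.exists_right_inv
  refine chart_KV (chU ξ) p (fun j => by rw [const_chU, hp]) (by
    rw [lin_chU]
    exact isUnit_iff_ne_zero.2 hD) _ Θ fun K => ?_
  set θ : Fin (n + 1) → PS (Fin n) := fun j => aeval ξ (Θ j) with hθ
  set g' : Fin (n + 1) → PS (Fin n) := fun j => aeval ξ (pderiv j φ) with hg'
  obtain ⟨v0, ⟨B, hB, hB0, hv0⟩, hQ⟩ := asm_KV a ha e he h hh hcrit d (n + (d * k + 1)) k hk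
    (Qs ξ θ) ((smat ξ).det * MvPowerSeries.C c) (by
      have h3 := Qs_apply ξ φ d hφ Θ
      rw [h1, map_zero, mul_zero, hξ] at h3
      exact h3) (by
      have h3 := Qs_div ξ hD0 (d * k + 1) Θ hΘ
      rw [h2, map_mul, map_pow, hξ] at h3
      have h4 : (aeval ξ (C c : MvPolynomial (Fin (n + 1)) ℂ) : PS (Fin n)) =
          MvPowerSeries.C c := by
        rw [aeval_C]
        rfl
      rw [h4] at h3
      rw [h3]
      ring) (fun r hr => hNR r (by rw [hr]; ring)) K
  -- the sequence on the slice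
  have hgg : ∀ l, (gg h d l : PS (Fin n)) = ∑ j, g' j * smat ξ j l := by
    intro l
    refine Fin.lastCases ?_ (fun l => ?_) l
    · have h3 := hφ.sum_X_mul_pderiv
      have h4 := congrArg (aeval ξ) h3
      rw [map_sum, nsmul_eq_mul, map_mul, map_natCast, hξ] at h4
      rw [gg_last, MvPolynomial.coe_mul, MvPolynomial.coe_C]
      have h5 : (MvPowerSeries.C (d : ℂ) : PS (Fin n)) = (d : PS (Fin n)) := map_natCast _ d
      rw [h5, ← h4]
      refine Finset.sum_congr rfl fun j _ => ?_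
      rw [map_mul, aeval_X, smat_last, mul_comm]
    · rw [gg_succ, ← pp_coe, ← hξ, pp_aeval']
      exact Finset.sum_congr rfl fun j _ => by rw [smat_succ]
  have hv0' : ∀ i, (v0 i : PS (Fin n)) = ∑ l, (B i l : PS (Fin n)) * ∑ j, g' j * smat ξ j l := by
    intro i
    rw [hv0 i, ← MvPolynomial.coeToMvPowerSeries.ringHom_apply, map_sum]
    refine Finset.sum_congr rfl fun l _ => ?_
    rw [map_mul, MvPolynomial.coeToMvPowerSeries.ringHom_apply,
      MvPolynomial.coeToMvPowerSeries.ringHom_apply, hgg l]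
  set W : Fin (n + 1) → Fin (n + 1) → PS (Fin n) := fun j j' =>
    E * ∑ i, ∑ l, smat ξ j i * (B i l : PS (Fin n)) * smat ξ j' l with hW
  have hθQ : ∀ j, θ j = E * ∑ i, smat ξ j i * Qs ξ θ i := by
    intro j
    have h3 : ∑ i, smat ξ j i * Qs ξ θ i = (smat ξ).det * θ j := by
      have h4 : ∀ i, smat ξ j i * Qs ξ θ i =
          ∑ l, θ l * ((smat ξ).adjugate i l * smat ξ j i) := by
        intro i
        rw [Qs, Finset.mul_sum]
        exact Finset.sum_congr rfl fun l _ => by ring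
      rw [Finset.sum_congr rfl fun i _ => h4 i, Finset.sum_comm]
      have h5 : ∀ l, ∑ i, θ l * ((smat ξ).adjugate i l * smat ξ j i) =
          if j = l then (smat ξ).det * θ l else 0 := by
        intro l
        rw [← Finset.mul_sum, smat_adj]
        split_ifs
        · ring
        · rw [mul_zero]
      rw [Finset.sum_congr rfl fun l _ => h5 l, Finset.sum_ite_eq, if_pos (Finset.mem_univ j)]
    rw [h3, ← mul_assoc, mul_comm E, hE, one_mul]
  have hWanti : ∀ j j', W j j' = - W j' j := by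
    intro j j'
    rw [hW]
    beta_reduce
    rw [← mul_neg, ← Finset.sum_neg_distrib, Finset.sum_comm]
    congr 1
    refine Finset.sum_congr rfl fun l _ => ?_
    rw [← Finset.sum_neg_distrib]
    refine Finset.sum_congr rfl fun i _ => ?_
    have h3 : (B i l : PS (Fin n)) = -(B l i : PS (Fin n)) := by
      rw [hB i l, ← MvPolynomial.coeToMvPowerSeries.ringHom_apply, map_neg,
        MvPolynomial.coeToMvPowerSeries.ringHom_apply]
    rw [h3]
    ring
  have hw1 : ∀ j, θ j - ∑ j', W j j' * g' j' ∈ OKI (Fin n) K := by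
    intro j
    have h3 : ∑ j', W j j' * g' j' = E * ∑ i, smat ξ j i * (v0 i : PS (Fin n)) := by
      have h4 : ∀ i, smat ξ j i * (v0 i : PS (Fin n)) =
          ∑ j', ∑ l, (smat ξ j i * (B i l : PS (Fin n)) * smat ξ j' l) * g' j' := by
        intro i
        rw [hv0' i, Finset.mul_sum, Finset.sum_comm]
        refine Finset.sum_congr rfl fun l _ => ?_
        rw [Finset.mul_sum, Finset.mul_sum]
        exact Finset.sum_congr rfl fun j' _ => by ring
      rw [Finset.sum_congr rfl fun i _ => h4 i, Finset.sum_comm, Finset.mul_sum]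
      refine Finset.sum_congr rfl fun j' _ => ?_
      rw [hW]
      beta_reduce
      rw [mul_assoc, Finset.sum_mul]
      congr 1
      refine Finset.sum_congr rfl fun i _ => ?_
      rw [Finset.sum_mul]
    rw [h3, hθQ j, ← mul_sub, ← Finset.sum_sub_distrib]
    refine Ideal.mul_mem_left _ _ (Ideal.sum_mem _ fun i _ => ?_)
    rw [← mul_sub]
    refine Ideal.mul_mem_left _ _ fun m hm => ?_
    rw [map_sub, MvPolynomial.coeff_coe, hQ i m hm, sub_self]
  set U : PS (Fin (n + 1)) := 1 + MvPowerSeries.X (Fin.last n) with hU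
  have hpd : ∀ j, (aeval (chU ξ) (pderiv j φ) : PS (Fin (n + 1))) = U ^ (d - 1) * rn (g' j) :=
    fun j => aeval_chU ξ _ _ hφ.pderiv
  have hΘU : ∀ j, (aeval (chU ξ) (Θ j) : PS (Fin (n + 1))) = U ^ (d * k + 1) * rn (θ j) :=
    fun j => aeval_chU ξ _ _ (hΘ j)
  have hdk : d - 1 ≤ d * k + 1 := by
    have : d * 1 ≤ d * k := Nat.mul_le_mul_left d hk
    omega
  obtain ⟨s, hs⟩ := Nat.exists_eq_add_of_le hdk
  refine ⟨fun j => ∑ j', (U ^ s * rn (W j j')) * aeval (chU ξ) (pderiv j' φ),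
    ⟨fun j j' => U ^ s * rn (W j j'), fun j j' => ?_, fun j => ?_, fun j => rfl⟩, fun j => ?_⟩
  · beta_reduce
    rw [hWanti j j', map_neg, mul_neg]
  · beta_reduce
    rw [anti_zero W hWanti j, map_zero, mul_zero]
  · beta_reduce
    have h3 : (aeval (chU ξ) (Θ j) : PS (Fin (n + 1))) -
        ∑ j', (U ^ s * rn (W j j')) * aeval (chU ξ) (pderiv j' φ) =
          U ^ (d * k + 1) * rn (θ j - ∑ j', W j j' * g' j') := by
      rw [hΘU j, map_sub, map_sum, mul_sub, Finset.mul_sum]
      congr 1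
      refine Finset.sum_congr rfl fun j' _ => ?_
      have h4 : rn (W j j' * g' j') = rn (W j j') * rn (g' j') := map_mul rn _ _
      rw [hpd j', h4, hs, pow_add]
      ring
    rw [h3]
    exact Ideal.mul_mem_left _ _ (OKI_rn (hw1 j))

end Pool.Agent.Helper48.TC
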