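import Pool.Agent.Helper48.TC.Kos
import Pool.Agent.Helper48.IF.Defs

set_option autoImplicit false
set_option linter.unusedSectionVars false

/-! # The reduction of the pole along the cone -/

namespace Pool.Agent.Helper48.TC

open Finset MvPolynomial Pool.Agent.Helper48.SN

variable {N : ℕ}

theorem euler_sum (φ : MvPolynomial (Fin N) ℂ) (d : ℕ) (hφ : φ.IsHomogeneous d) :
    ∑ i, X i * pderiv i φ = C (d : ℂ) * φ := by
  rw [hφ.sum_X_mul_pderiv, nsmul_eq_mul]
  rw [map_natCast]

theorem hc_pderiv (i : Fin N) (m : ℕ) (p : MvPolynomial (Fin N) ℂ) :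
    homogeneousComponent m (pderiv i p) = pderiv i (homogeneousComponent (m + 1) p) := by
  ext α
  rw [coeff_homogeneousComponent, coeff_pderiv, coeff_pderiv, coeff_homogeneousComponent]
  have h1 : (α + Finsupp.single i 1).degree = α.degree + 1 := by
    rw [map_add, Finsupp.degree_single]
  rw [h1]
  by_cases h : α.degree = m
  · rw [if_pos h, if_pos (by omega)]
  · rw [if_neg h, if_neg (by omega), zero_mul]

theorem hc_mul (m a : ℕ) (p q : MvPolynomial (Fin N) ℂ) (hq : q.IsHomogeneous a) :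
    homogeneousComponent (m + a) (p * q) = homogeneousComponent m p * q := by
  have h1 : p * q = ∑ l ∈ Finset.range (p.totalDegree + 1), homogeneousComponent l p * q := by
    rw [← Finset.sum_mul, sum_homogeneousComponent]
  rw [h1, map_sum]
  have h2 : ∀ l, homogeneousComponent (m + a) (homogeneousComponent l p * q) =
      if l = m then homogeneousComponent l p * q else 0 := by
    intro l
    have h3 := (homogeneousComponent_isHomogeneous l p).mul hq
    rw [homogeneousComponent_of_mem h3]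
    by_cases h : l = m
    · rw [if_pos (by omega), if_pos h]
    · rw [if_neg (by omega), if_neg h]
  rw [Finset.sum_congr rfl fun l _ => h2 l, Finset.sum_ite_eq']
  split_ifs with h3
  · rfl
  · rw [Finset.mem_range, not_lt] at h3
    rw [homogeneousComponent_eq_zero _ p (by omega), zero_mul]

/-- **The reduction.** -/
theorem reduce_KV (hN : 0 < N) (φ : MvPolynomial (Fin N) ℂ) (d : ℕ) (hd : 0 < d)
    (hφ : φ.IsHomogeneous d)
    (hKV : ∀ (k : ℕ) (c : ℂ) (Θ : Fin N → MvPolynomial (Fin N) ℂ), 1 ≤ k →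
      (∀ i, (Θ i).IsHomogeneous (d * k + 1)) → ∑ i, Θ i * pderiv i φ = 0 →
        ∑ i, pderiv i (Θ i) = C c * φ ^ k → Θ ∈ KV fun i => pderiv i φ)
    (hL : ∀ (Θ : Fin N → MvPolynomial (Fin N) ℂ) (c : ℂ), (∀ i, (Θ i).IsHomogeneous 1) →
      ∑ i, Θ i * pderiv i φ = 0 → ∑ i, pderiv i (Θ i) = C c → c = 0) (k : ℕ) :
    ∀ (c : ℂ) (Θ : Fin N → MvPolynomial (Fin N) ℂ), (∀ i, (Θ i).IsHomogeneous (d * k + 1)) →
      ∑ i, Θ i * pderiv i φ = 0 → ∑ i, pderiv i (Θ i) = C c * φ ^ k → c = 0 := by
  induction k with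
  | zero =>
    intro c Θ h0 h1 h2
    rw [pow_zero, mul_one] at h2
    exact hL Θ c (fun i => by simpa using h0 i) h1 h2
  | succ k ih =>
    intro c Θ h0 h1 h2
    by_contra hc
    have hdC : (d : ℂ) ≠ 0 := by exact_mod_cast hd.ne'
    obtain ⟨B, hB, hB0, hΘ⟩ := hKV (k + 1) c Θ (by omega) h0 h1 h2
    set γ : Fin N → MvPolynomial (Fin N) ℂ := fun j => ∑ i, pderiv i (B i j) with hγ
    have hγφ : ∑ j, γ j * pderiv j φ = C c * φ ^ (k + 1) := by
      rw [← h2]
      have h3 : ∑ i, pderiv i (Θ i) = ∑ i, ∑ j, pderiv i (B i j) * pderiv j φ +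
          ∑ i, ∑ j, B i j * pderiv i (pderiv j φ) := by
        rw [← Finset.sum_add_distrib]
        refine Finset.sum_congr rfl fun i _ => ?_
        rw [hΘ i, map_sum, ← Finset.sum_add_distrib]
        refine Finset.sum_congr rfl fun j _ => ?_
        rw [pderiv_mul]
      have h4 : ∑ i, ∑ j, B i j * pderiv i (pderiv j φ) = 0 := by
        refine anti_sum (fun i j => B i j * pderiv i (pderiv j φ)) (fun i => ?_) fun i j => ?_
        · rw [hB0, zero_mul]
        · rw [hB i j, pderiv_comm i j]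
          ring
      rw [h3, h4, add_zero, Finset.sum_comm]
      refine Finset.sum_congr rfl fun j _ => ?_
      rw [hγ, Finset.sum_mul]
    have hγd : ∑ j, pderiv j (γ j) = 0 := by
      have h3 : ∑ j, pderiv j (γ j) = ∑ j, ∑ i, pderiv j (pderiv i (B i j)) :=
        Finset.sum_congr rfl fun j _ => by rw [hγ, map_sum]
      rw [h3]
      refine anti_sum (fun j i => pderiv j (pderiv i (B i j))) (fun i => ?_) fun i j => ?_
      · rw [hB0, map_zero, map_zero]
      · rw [hB j i, map_neg, map_neg, pderiv_comm i j]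
    set Θ1 : Fin N → MvPolynomial (Fin N) ℂ := fun j =>
      C (c / d) * φ ^ k * X j - γ j with hΘ1
    have h3 : ∑ j, Θ1 j * pderiv j φ = 0 := by
      have h4 : ∀ j, Θ1 j * pderiv j φ = C (c / d) * φ ^ k * (X j * pderiv j φ) -
          γ j * pderiv j φ := fun j => by
        rw [hΘ1]
        ring
      rw [Finset.sum_congr rfl fun j _ => h4 j, Finset.sum_sub_distrib, ← Finset.mul_sum,
        euler_sum φ d hφ, hγφ]
      have h5 : C (c / d) * C (d : ℂ) = (C c : MvPolynomial (Fin N) ℂ) := by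
        rw [← C_mul, div_mul_cancel₀ _ hdC]
      rw [pow_succ]
      linear_combination φ ^ k * φ * h5
    have h4 : ∑ j, pderiv j (Θ1 j) = C (c / d * (N + k * d)) * φ ^ k := by
      have h5 : ∀ j, pderiv j (Θ1 j) = C (c / d) * φ ^ k + C (c / d) * (C (k : ℂ) * φ ^ (k - 1) *
          (X j * pderiv j φ)) - pderiv j (γ j) := by
        intro j
        rw [hΘ1]
        change pderiv j (C (c / d) * φ ^ k * X j - γ j) = _
        rw [map_sub, mul_assoc, pderiv_C_mul, pderiv_mul, pderiv_X_self, pderiv_pow, map_natCast]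
        ring
      rw [Finset.sum_congr rfl fun j _ => h5 j, Finset.sum_sub_distrib, hγd, sub_zero,
        Finset.sum_add_distrib, Finset.sum_const, Finset.card_univ, Fintype.card_fin,
        ← Finset.mul_sum, ← Finset.mul_sum, euler_sum φ d hφ, nsmul_eq_mul]
      have h6 : C (k : ℂ) * φ ^ (k - 1) * (C (d : ℂ) * φ) = C ((k * d : ℕ) : ℂ) * φ ^ k := by
        cases k with
        | zero => simp
        | succ k =>
          rw [Nat.add_sub_cancel, Nat.cast_mul, C_mul, pow_succ]
          ring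
      rw [h6]
      push_cast
      simp only [C_mul, C_add, map_natCast]
      ring
    set Θ2 : Fin N → MvPolynomial (Fin N) ℂ := fun j => homogeneousComponent (d * k + 1) (Θ1 j)
      with hΘ2
    have h7 := ih (c / d * (N + k * d)) Θ2 (fun i => homogeneousComponent_isHomogeneous _ _)
      (by
        have h8 := congrArg (homogeneousComponent (d * k + 1 + (d - 1))) h3
        rw [map_sum, map_zero] at h8
        rw [← h8]
        exact Finset.sum_congr rfl fun j _ => (hc_mul _ _ _ _ (hφ.pderiv)).symm)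
      (by
        have h8 := congrArg (homogeneousComponent (d * k)) h4
        rw [map_sum, homogeneousComponent_of_mem (by
          rw [mem_homogeneousSubmodule]
          exact ((hφ.pow k).C_mul _)), if_pos rfl] at h8
        rw [← h8]
        exact Finset.sum_congr rfl fun j _ => (hc_pderiv j _ _).symm)
    have h8 : (N : ℂ) + k * d ≠ 0 := by
      have : 0 < N + k * d := by positivity
      exact_mod_cast this.ne'
    exact mul_ne_zero (div_ne_zero hc hdC) h8 h7

theorem nonexact_of_KV (hN : 0 < N) (φ : MvPolynomial (Fin N) ℂ) (d : ℕ) (hd : 0 < d)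
    (hφ : φ.IsHomogeneous d)
    (hKV : ∀ (k : ℕ) (c : ℂ) (Θ : Fin N → MvPolynomial (Fin N) ℂ), 1 ≤ k →
      (∀ i, (Θ i).IsHomogeneous (d * k + 1)) → ∑ i, Θ i * pderiv i φ = 0 →
        ∑ i, pderiv i (Θ i) = C c * φ ^ k → Θ ∈ KV fun i => pderiv i φ)
    (hL : ∀ (Θ : Fin N → MvPolynomial (Fin N) ℂ) (c : ℂ), (∀ i, (Θ i).IsHomogeneous 1) →
      ∑ i, Θ i * pderiv i φ = 0 → ∑ i, pderiv i (Θ i) = C c → c = 0) :
    Pool.Agent.Helper48.IF.NonexactForm (fun _ : Fin N => 1) d φ := by
  refine ⟨fun _ => one_pos, hd, ?_⟩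
  rintro ⟨k, Θ, h0, h1, h2⟩
  exact one_ne_zero (reduce_KV hN φ d hd hφ hKV hL k 1 Θ h0 h1 (by rw [h2, C_1, one_mul]))

end Pool.Agent.Helper48.TC
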