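import Pool.Agent.Helper48.TC.Cmp

set_option autoImplicit false
set_option linter.unusedSectionVars false

/-! # Vector fields on a slice modulo high powers -/

namespace Pool.Agent.Helper48.TC

open Finset MvPolynomial Pool.Agent.H628R4.TP Pool.Agent.K3h38.SM Pool.Agent.Helper48.SN
  Pool.Agent.Helper48.SW

variable {n : ℕ}

theorem pp_coe (i : Fin n) (h : MvPolynomial (Fin n) ℂ) :
    pp i (h : PS (Fin n)) = ((pderiv i h : MvPolynomial (Fin n) ℂ) : PS (Fin n)) := by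
  ext m
  rw [pp_apply, MvPowerSeries.coeff_pderiv, MvPolynomial.coeff_coe, MvPolynomial.coeff_coe,
    coeff_pderiv]

theorem wz_self_euler (a : Fin n → ℕ) (r : ℤ) (g : PS (Fin n)) :
    ∑ j, EE a j * pderiv j (wz a r g) = C (r : ℂ) * wz a r g := by
  rcases lt_or_ge r 0 with h | h
  · rw [wz_neg a r h, mul_zero]
    exact Finset.sum_eq_zero fun j _ => by rw [map_zero, mul_zero]
  · obtain ⟨r, rfl⟩ := Int.eq_ofNat_of_zero_le h
    rw [wz_nat, euler_w a _ r (wcp_hom a r g)]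
    push_cast
    rfl

/-- the components of weight `r` of a vector field on the slice -/
noncomputable def cmpv (a : Fin n → ℕ) (Q : Fin (n + 1) → PS (Fin n)) (r : ℤ) (i : Fin (n + 1)) :
    MvPolynomial (Fin n) ℂ :=
  Fin.lastCases (motive := fun _ => MvPolynomial (Fin n) ℂ) (wz a r (Q (Fin.last n)))
    (fun i => wz a (r + a i) (Q i.castSucc)) i

theorem cmpv_succ (a : Fin n → ℕ) (Q : Fin (n + 1) → PS (Fin n)) (r : ℤ) (i : Fin n) :
    cmpv a Q r i.castSucc = wz a (r + a i) (Q i.castSucc) := by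
  rw [cmpv, Fin.lastCases_castSucc]

theorem cmpv_last (a : Fin n → ℕ) (Q : Fin (n + 1) → PS (Fin n)) (r : ℤ) :
    cmpv a Q r (Fin.last n) = wz a r (Q (Fin.last n)) := by
  rw [cmpv, Fin.lastCases_last]

theorem cmpv_KV (a : Fin n → ℕ) (ha : ∀ i, 0 < a i) (e : ℕ) (he : 0 < e)
    (h : MvPolynomial (Fin n) ℂ) (hh : IsWeightedHomogeneous a h e)
    (hcrit : ∀ y : Fin n → ℂ, (∀ i, eval y (pderiv i h) = 0) → y = 0) (d κ k : ℕ) (hk : 1 ≤ k)
    (Q : Fin (n + 1) → PS (Fin n)) (t : PS (Fin n))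
    (h1 : ∑ i : Fin n, Q i.castSucc * pp i (h : PS (Fin n)) +
      Q (Fin.last n) * ((d : PS (Fin n)) * (h : PS (Fin n))) = 0)
    (h2 : ∑ i : Fin n, pp i (Q i.castSucc) + (κ : PS (Fin n)) * Q (Fin.last n) =
      (h : PS (Fin n)) ^ k * t)
    (hNR : ∀ r : ℕ, d * (∑ i, a i + r) = e * κ →
      ∀ g : MvPolynomial (Fin n) ℂ, IsWeightedHomogeneous a g r → g ∈ JJ h) (r : ℤ) :
    cmpv a Q r ∈ KV (gg h d) := by
  classical
  have hsm : ∀ (x : ℕ) (g : PS (Fin n)), (x : PS (Fin n)) * g = (x : ℂ) • g := by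
    intro x g
    rw [← nsmul_eq_mul, Nat.cast_smul_eq_nsmul]
  refine comp_KV a e he h hh hcrit d r κ (cmpv a Q r) ?_ ?_ ?_ ?_
  · rw [cmpv_last]
    exact wz_self_euler a r _
  · have h3 := congrArg (wz a (r + e)) h1
    rw [wz_add, wz_sum, wz_zero] at h3
    have h4 : ∀ i : Fin n, wz a (r + e) (Q i.castSucc * pp i (h : PS (Fin n))) =
        cmpv a Q r i.castSucc * pderiv i h := by
      intro i
      rw [cmpv_succ, pp_coe]
      rcases hom_pderiv_w a h e hh i with h5 | ⟨b, hb, h5⟩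
      · rw [h5, mul_zero, MvPolynomial.coe_zero, mul_zero, wz_zero]
      · rw [mul_comm, wz_hom_mul a ha _ b h5, show r + (e : ℤ) - b = r + a i by
          rw [← hb]; push_cast; ring, mul_comm]
    have h5 : wz a (r + e) (Q (Fin.last n) * ((d : PS (Fin n)) * (h : PS (Fin n)))) =
        cmpv a Q r (Fin.last n) * (C (d : ℂ) * h) := by
      have h6 : Q (Fin.last n) * ((d : PS (Fin n)) * (h : PS (Fin n))) =
          (d : ℂ) • ((h : PS (Fin n)) * Q (Fin.last n)) := by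
        rw [← hsm]
        ring
      rw [h6, wz_smul, wz_hom_mul a ha h e hh, add_sub_cancel_right, cmpv_last, smul_eq_C_mul]
      ring
    rw [Finset.sum_congr rfl fun i _ => h4 i, h5] at h3
    exact h3
  · have h3 := congrArg (wz a r) h2
    rw [wz_add, wz_sum] at h3
    have h4 : ∀ i : Fin n, wz a r (pp i (Q i.castSucc)) = pderiv i (cmpv a Q r i.castSucc) := by
      intro i
      rw [cmpv_succ, wz_pp a ha]
    have h5 : wz a r ((κ : PS (Fin n)) * Q (Fin.last n)) =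
        C (κ : ℂ) * cmpv a Q r (Fin.last n) := by
      rw [hsm, wz_smul, cmpv_last, smul_eq_C_mul]
    have h6 : (h : PS (Fin n)) ^ k * t = (h : PS (Fin n)) * ((h : PS (Fin n)) ^ (k - 1) * t) := by
      rw [← mul_assoc, ← pow_succ', Nat.sub_add_cancel hk]
    rw [Finset.sum_congr rfl fun i _ => h4 i, h5, h6, wz_hom_mul a ha h e hh] at h3
    rw [h3]
    exact Ideal.mul_mem_right _ _ (h_mem a e he h hh)
  · intro hr
    rw [cmpv_last]
    rcases lt_or_ge r 0 with h3 | h3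
    · rw [wz_neg a r h3]
      exact Ideal.zero_mem _
    · obtain ⟨r, rfl⟩ := Int.eq_ofNat_of_zero_le h3
      rw [wz_nat]
      refine hNR r ?_ _ (wcp_hom a r _)
      exact_mod_cast hr

theorem asm_KV (a : Fin n → ℕ) (ha : ∀ i, 0 < a i) (e : ℕ) (he : 0 < e)
    (h : MvPolynomial (Fin n) ℂ) (hh : IsWeightedHomogeneous a h e)
    (hcrit : ∀ y : Fin n → ℂ, (∀ i, eval y (pderiv i h) = 0) → y = 0) (d κ k : ℕ) (hk : 1 ≤ k)
    (Q : Fin (n + 1) → PS (Fin n)) (t : PS (Fin n))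
    (h1 : ∑ i : Fin n, Q i.castSucc * pp i (h : PS (Fin n)) +
      Q (Fin.last n) * ((d : PS (Fin n)) * (h : PS (Fin n))) = 0)
    (h2 : ∑ i : Fin n, pp i (Q i.castSucc) + (κ : PS (Fin n)) * Q (Fin.last n) =
      (h : PS (Fin n)) ^ k * t)
    (hNR : ∀ r : ℕ, d * (∑ i, a i + r) = e * κ →
      ∀ g : MvPolynomial (Fin n) ℂ, IsWeightedHomogeneous a g r → g ∈ JJ h) (K : ℕ) :
    ∃ v ∈ KV (gg h d), ∀ i (m : Fin n →₀ ℕ), m.degree < K →
      MvPowerSeries.coeff m (Q i) = coeff m (v i) := by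
  classical
  refine ⟨∑ r ∈ Finset.Icc (-((∑ i, a i : ℕ) : ℤ)) ((K * ∑ i, a i : ℕ) : ℤ), cmpv a Q r,
    Submodule.sum_mem _ fun r _ => cmpv_KV a ha e he h hh hcrit d κ k hk Q t h1 h2 hNR r,
    fun i m hm => ?_⟩
  have hwm : Finsupp.weight a m ≤ K * ∑ i, a i := by
    rw [weight_sum]
    have h3 : ∀ i ∈ (Finset.univ : Finset (Fin n)), m i * a i ≤ m i * ∑ i, a i := fun i _ =>
      Nat.mul_le_mul_left _ (Finset.single_le_sum (fun _ _ => Nat.zero_le _) (Finset.mem_univ i))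
    refine (Finset.sum_le_sum h3).trans ?_
    rw [← Finset.sum_mul]
    refine Nat.mul_le_mul_right _ ?_
    have h4 : m.degree = ∑ i, m i := Finsupp.degree_eq_sum m
    omega
  have hai : ∀ i, (a i : ℤ) ≤ ((∑ i, a i : ℕ) : ℤ) := fun i => by
    exact_mod_cast Finset.single_le_sum (fun _ _ => Nat.zero_le _) (Finset.mem_univ i)
  rw [Finset.sum_apply, coeff_sum]
  refine Fin.lastCases ?_ (fun i => ?_) i
  · have h3 : ∀ r : ℤ, coeff m (cmpv a Q r (Fin.last n)) =
        if r = (Finsupp.weight a m : ℤ) then MvPowerSeries.coeff m (Q (Fin.last n)) else 0 := by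
      intro r
      rw [cmpv_last, coeff_wz a ha]
      by_cases h4 : (Finsupp.weight a m : ℤ) = r
      · rw [if_pos h4, if_pos h4.symm]
      · rw [if_neg h4, if_neg (Ne.symm h4)]
    rw [Finset.sum_congr rfl fun r _ => h3 r, Finset.sum_ite_eq', if_pos]
    rw [Finset.mem_Icc]
    constructor
    · have : (0 : ℤ) ≤ ((∑ i, a i : ℕ) : ℤ) := Int.natCast_nonneg _
      omega
    · exact_mod_cast hwm
  · have h3 : ∀ r : ℤ, coeff m (cmpv a Q r i.castSucc) =
        if r = (Finsupp.weight a m : ℤ) - a i then MvPowerSeries.coeff m (Q i.castSucc) else 0 := by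
      intro r
      rw [cmpv_succ, coeff_wz a ha]
      by_cases h4 : (Finsupp.weight a m : ℤ) = r + a i
      · rw [if_pos h4, if_pos (by omega)]
      · rw [if_neg h4, if_neg (by omega)]
    rw [Finset.sum_congr rfl fun r _ => h3 r, Finset.sum_ite_eq', if_pos]
    rw [Finset.mem_Icc]
    have h4 := hai i
    have h5 : (Finsupp.weight a m : ℤ) ≤ ((K * ∑ i, a i : ℕ) : ℤ) := by exact_mod_cast hwm
    constructor
    · omega
    · omega

end Pool.Agent.Helper48.TC
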