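import Pool.Agent.Helper48.TC.Pull

set_option autoImplicit false
set_option linter.unusedSectionVars false

/-! # The root of a divisor with normal crossings in a formal chart -/

namespace Pool.Agent.Helper48.TC

open Finset MvPolynomial Pool.Agent.H628R4.TP Pool.Agent.K3h38.SM Pool.Agent.Helper48.SN
  Pool.Agent.Helper48.SW

theorem exact_of_identity_num {σ : Type} [Fintype σ] (w : σ → ℕ) (f J0 : MvPolynomial σ ℂ)
    (d m0 : ℕ) (hd : 0 < d) (hf : IsWeightedHomogeneous w f d)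
    (hJ : IsWeightedHomogeneous w J0 m0) (s0 : ℂ)
    (hs0 : s0 = -((∑ i, w i + m0 : ℕ) : ℂ) / d) (c : ℂ)
    (hc : c ≠ 0) (R : ℕ) (V : σ → MvPolynomial σ ℂ)
    (h : C c * (J0 * f ^ (R + 1)) = ∑ i, (C (s0 - R) * pderiv i f * V i + f * pderiv i (V i))) :
    ∃ (k : ℕ) (Θ : σ → MvPolynomial σ ℂ),
      (∀ i, IsWeightedHomogeneous w (Θ i) (m0 + d * k + w i)) ∧
      ∑ i, Θ i * pderiv i f = 0 ∧ ∑ i, pderiv i (Θ i) = J0 * f ^ k := by
  classical
  have hdC : (d : ℂ) ≠ 0 := by exact_mod_cast hd.ne'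
  set W : σ → MvPolynomial σ ℂ := fun i => pc w (m0 + d * R + w i) (V i) with hW
  have hWh : ∀ i, IsWeightedHomogeneous w (W i) (m0 + d * R + w i) := fun i =>
    weightedHomogeneousComponent_isWeightedHomogeneous _ _
  have hfp : ∀ k, IsWeightedHomogeneous w (J0 * f ^ k) (m0 + d * k) := by
    intro k
    have := hf.pow k
    rw [smul_eq_mul, mul_comm] at this
    exact hJ.mul this
  have hCm : ∀ (a : ℂ) (p : MvPolynomial σ ℂ) (n : ℕ), IsWeightedHomogeneous w p n →
      IsWeightedHomogeneous w (C a * p) n := fun a p n hp => hp.C_mul a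
  -- the homogeneous identity
  have h1 : C c * (J0 * f ^ (R + 1)) =
      ∑ i, (C (s0 - R) * pderiv i f * W i + f * pderiv i (W i)) := by
    have h2 := congrArg (pc w (m0 + d * (R + 1))) h
    rw [pc_self w _ _ (hCm c _ _ (hfp (R + 1))), map_sum] at h2
    rw [h2]
    refine Finset.sum_congr rfl fun i _ => ?_
    rw [map_add]
    congr 1
    · rcases Nat.lt_or_ge d (w i) with h3 | h3
      · rw [pderiv_zero_of_lt' w d f hf i h3, mul_zero, zero_mul, zero_mul, map_zero]
      · obtain ⟨k, hk⟩ := Nat.exists_eq_add_of_le' h3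
        have h4 : IsWeightedHomogeneous w (C (s0 - R) * pderiv i f) k := by
          refine hCm _ _ _ (hf.pderiv ?_)
          rw [hk]
        have h5 : m0 + d * (R + 1) = k + (m0 + d * R + w i) := by
          have : d * (R + 1) = d * R + d := by ring
          omega
        rw [h5, pc_mul w _ _ h4]
    · have h5 : m0 + d * (R + 1) = d + (m0 + d * R) := by ring
      rw [h5, pc_mul w _ _ hf, pc_pderiv]
  set u : MvPolynomial σ ℂ := ∑ i, pderiv i f * W i with hu
  have huh : IsWeightedHomogeneous w u (m0 + d * (R + 1)) := by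
    refine IsWeightedHomogeneous.sum _ _ _ fun i _ => ?_
    rcases Nat.lt_or_ge d (w i) with h3 | h3
    · rw [pderiv_zero_of_lt' w d f hf i h3, zero_mul]
      exact isWeightedHomogeneous_zero _ _ _
    · obtain ⟨k, hk⟩ := Nat.exists_eq_add_of_le' h3
      have h4 : IsWeightedHomogeneous w (pderiv i f) k := hf.pderiv (by rw [hk])
      have h5 : m0 + d * (R + 1) = k + (m0 + d * R + w i) := by
        have : d * (R + 1) = d * R + d := by ring
        omega
      rw [h5]
      exact h4.mul (hWh i)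
  have heul : ∀ (p : MvPolynomial σ ℂ) (n : ℕ), IsWeightedHomogeneous w p n →
      ∑ i, C (w i : ℂ) * (X i * pderiv i p) = C (n : ℂ) * p := by
    intro p n hp
    have h2 := hp.sum_weight_X_mul_pderiv
    rw [nsmul_eq_mul] at h2
    rw [map_natCast, ← h2]
    exact Finset.sum_congr rfl fun i _ => by rw [map_natCast, nsmul_eq_mul]
  set Θ0 : σ → MvPolynomial σ ℂ := fun i =>
    f * W i - C ((d : ℂ)⁻¹) * u * (C (w i : ℂ) * X i) with hΘ0
  have hΘh : ∀ i, IsWeightedHomogeneous w (Θ0 i) (m0 + d * (R + 1) + w i) := by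
    intro i
    have h5 : m0 + d * (R + 1) + w i = d + (m0 + d * R + w i) := by ring
    have h6 : IsWeightedHomogeneous w (f * W i) (m0 + d * (R + 1) + w i) := by
      rw [h5]
      exact hf.mul (hWh i)
    have h7 : IsWeightedHomogeneous w (C ((d : ℂ)⁻¹) * u * (C (w i : ℂ) * X i))
        (m0 + d * (R + 1) + w i) :=
      (hCm _ _ _ huh).mul (hCm _ _ _ (isWeightedHomogeneous_X ℂ w i))
    rw [hΘ0]
    beta_reduce
    rw [sub_eq_add_neg]
    refine IsWeightedHomogeneous.add h6 ?_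
    have h8 := hCm (-1) _ _ h7
    rwa [map_neg, map_one, neg_one_mul] at h8
  have hΘf : ∑ i, Θ0 i * pderiv i f = 0 := by
    have h7 : ∑ i, Θ0 i * pderiv i f =
        f * u - C ((d : ℂ)⁻¹) * u * (∑ i, C (w i : ℂ) * (X i * pderiv i f)) := by
      rw [hu, Finset.mul_sum, Finset.mul_sum, ← Finset.sum_sub_distrib]
      refine Finset.sum_congr rfl fun i _ => ?_
      rw [hΘ0, hu]
      ring
    rw [h7, heul f d hf]
    have h8 : (C ((d : ℂ)⁻¹) : MvPolynomial σ ℂ) * C ((d : ℕ) : ℂ) = 1 := by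
      rw [← map_mul, inv_mul_cancel₀ hdC, map_one]
    linear_combination - f * u * h8
  have hdiv : ∑ i, pderiv i (Θ0 i) = C c * (J0 * f ^ (R + 1)) := by
    have h7 : ∀ i, pderiv i (Θ0 i) = pderiv i f * W i + f * pderiv i (W i)
        - C ((d : ℂ)⁻¹) * (C (w i : ℂ) * (X i * pderiv i u)) -
          C ((d : ℂ)⁻¹) * C (w i : ℂ) * u := by
      intro i
      rw [hΘ0]
      simp only [map_sub, pderiv_mul, pderiv_C, pderiv_X_self]
      ring
    rw [Finset.sum_congr rfl fun i _ => h7 i, Finset.sum_sub_distrib, Finset.sum_sub_distrib,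
      ← Finset.mul_sum, heul u _ huh, h1, ← Finset.sum_mul, ← Finset.mul_sum]
    have h8 : ∑ i, (C (s0 - R) * pderiv i f * W i + f * pderiv i (W i))
        = C (s0 - R) * u + ∑ i, f * pderiv i (W i) := by
      rw [hu, Finset.mul_sum, ← Finset.sum_add_distrib]
      refine Finset.sum_congr rfl fun i _ => ?_
      ring
    rw [h8, Finset.sum_add_distrib, ← hu]
    have h9 : (C (s0 - R) : MvPolynomial σ ℂ) = 1 - C ((d : ℂ)⁻¹) * C ((m0 + d * (R + 1) : ℕ) : ℂ)
        - C ((d : ℂ)⁻¹) * ∑ i, C (w i : ℂ) := by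
      rw [← map_sum, ← map_mul, ← map_mul, ← C_1, ← map_sub, ← map_sub]
      congr 1
      rw [hs0]
      push_cast
      field_simp
      ring
    rw [h9]
    ring
  refine ⟨R + 1, fun i => C c⁻¹ * Θ0 i, fun i => hCm _ _ _ (hΘh i), ?_, ?_⟩
  · simp only [mul_assoc]
    rw [← Finset.mul_sum, hΘf, mul_zero]
  · have h7 : ∀ i, pderiv i (C c⁻¹ * Θ0 i) = C c⁻¹ * pderiv i (Θ0 i) := by
      intro i
      rw [pderiv_mul, pderiv_C, zero_mul, zero_add]
    rw [Finset.sum_congr rfl fun i _ => h7 i, ← Finset.mul_sum, hdiv, ← mul_assoc, ← map_mul,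
      inv_mul_cancel₀ hc, map_one, one_mul]

variable {N : ℕ}

/-- **If `-(|v| + m0)/d` is not a root, then the form `J0 ψ ^ (-(|v| + m0)/d) Ω` is exact**, where `ψ`
and `J0` are the initial forms of `f(ξ(y))` and of the Jacobian determinant in the chart. -/
theorem chart_exact (ξ : Fin N → PS (Fin N)) (v : Fin N → ℕ) (hv : ∀ i, 0 < v i)
    (f H : MvPolynomial (Fin N) ℂ) (b : Polynomial ℂ) (hb : FEq f H b)
    (hH : eval (fun j => MvPowerSeries.constantCoeff (ξ j)) H ≠ 0)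
    (ψ J0 J1 : MvPolynomial (Fin N) ℂ) (d m0 E : ℕ) (hd : 0 < d) (hψ0 : ψ ≠ 0)
    (hψ : IsInit v (aeval ξ f : PS (Fin N)) d ψ) (hJ : IsInit v (jacS ξ).det m0 J0) (hJ0 : J0 ≠ 0)
    (hJ1 : J0 * J1 = ψ ^ E) (hne : b.eval (-((∑ i, v i + m0 : ℕ) : ℂ) / d) ≠ 0) :
    ∃ (k : ℕ) (Θ : Fin N → MvPolynomial (Fin N) ℂ),
      (∀ i, IsWeightedHomogeneous v (Θ i) (m0 + d * k + v i)) ∧
      ∑ i, Θ i * pderiv i ψ = 0 ∧ ∑ i, pderiv i (Θ i) = J0 * ψ ^ k := by
  classical
  obtain ⟨P, hP⟩ := hb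
  have hdet : (jacS ξ).det ≠ 0 := by
    intro h0
    apply hJ0
    have h1 := hJ.lead hv
    rw [h0, wz_zero] at h1
    exact h1.symm
  set h0 : ℂ := eval (fun j => MvPowerSeries.constantCoeff (ξ j)) H with hh0
  choose Qi p hQi hsp using fun m : ℕ => split_of_mem (P m).2
  set T : Fin N → ℕ → MvPolynomial (Fin N) ℂ := fun i s => ∑ m ∈ P.support,
    C (s : ℂ) ^ m * wz v (d * s + (m0 + v i))
      (∑ l, (jacS ξ).adjugate i l * aeval ξ (Qi m l (f ^ (s + 1)))) with hT
  have hbase : TameW v ψ d fun s => aeval ξ (f ^ (s + 1)) := by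
    have h1 : (fun s => aeval ξ (f ^ (s + 1))) = fun s => (aeval ξ f : PS (Fin N)) ^ (s + 1) := by
      funext s
      rw [map_pow]
    rw [h1]
    exact tame_powS v hv _ d ψ hψ
  have hTr : ∀ i, Rat ψ (T i) := by
    intro i
    refine Rat.sum _ _ fun m _ => ?_
    have h1 : TameW v ψ d fun s => ∑ l, (jacS ξ).adjugate i l * aeval ξ (Qi m l (f ^ (s + 1))) := by
      have h2 : ∀ S : Finset (Fin N), TameW v ψ d fun s => ∑ l ∈ S,
          ml ((jacS ξ).adjugate i l) (aeval ξ (Qi m l (f ^ (s + 1)))) := by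
        intro S
        induction S using Finset.induction_on with
        | empty =>
          simp only [Finset.sum_empty]
          exact TameW.zero v ψ d
        | insert a S ha ih =>
          simp only [Finset.sum_insert ha]
          exact ((tame_pull ξ v hv J0 J1 E hJ hJ0 hJ1 (hQi m a) _ hbase).ml hv _).add ih
      exact h2 Finset.univ
    exact (h1.2 (m0 + v i)).mulPS (fun s => C s ^ m) (IsPS.id.pow m)
  choose R0 V0 hV0 h0' using hTr
  set R := ∑ i, R0 i with hR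
  have hRi : ∀ i, R0 i ≤ R := fun i => Finset.single_le_sum (fun _ _ => Nat.zero_le _)
    (Finset.mem_univ i)
  set V : Fin N → ℂ → MvPolynomial (Fin N) ℂ := fun i s => ψ ^ (R - R0 i) * V0 i s with hVd
  have hV : ∀ i, IsPS (V i) := fun i => (IsPS.const _).mul (hV0 i)
  have h1 : ∀ i (s : ℕ), ψ ^ R * T i s = ψ ^ s * V i s := by
    intro i s
    have h2 : ψ ^ R = ψ ^ (R - R0 i) * ψ ^ R0 i := by
      rw [← pow_add, Nat.sub_add_cancel (hRi i)]
    rw [h2, hVd]
    linear_combination ψ ^ (R - R0 i) * h0' i s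
  have hcc : wz v (0 : ℕ) (aeval ξ H : PS (Fin N)) = C h0 := by
    ext m
    rw [coeff_wz v hv, coeff_C]
    have h3 : ((Finsupp.weight v m : ℤ) = ((0 : ℕ) : ℤ)) ↔ 0 = m := by
      constructor
      · intro h4
        have h5 := degree_le_weight v hv m
        have h6 : m.degree = 0 := by
          have : Finsupp.weight v m = 0 := by exact_mod_cast h4
          omega
        exact ((Finsupp.degree_eq_zero_iff m).1 h6).symm
      · rintro rfl
        simp
    by_cases h4 : 0 = m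
    · rw [if_pos (h3.2 h4), if_pos h4, ← h4, MvPowerSeries.coeff_zero_eq_constantCoeff_apply, hh0]
      have h5 : ∀ q : MvPolynomial (Fin N) ℂ, MvPowerSeries.constantCoeff (aeval ξ q : PS (Fin N)) =
          eval (fun j => MvPowerSeries.constantCoeff (ξ j)) q := by
        intro q
        induction q using MvPolynomial.induction_on with
        | C a =>
          have h6 : aeval ξ (C a : MvPolynomial (Fin N) ℂ) = algebraMap ℂ (PS (Fin N)) a :=
            aeval_C _ _
          rw [h6, eval_C, MvPowerSeries.algebraMap_apply, MvPowerSeries.constantCoeff_C]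
          rfl
        | add p q hp hq => rw [map_add, map_add, map_add, hp, hq]
        | mul_X p n hp => rw [map_mul, map_mul, map_mul, hp, aeval_X, eval_X]
      exact h5 H
    · rw [if_neg (fun h5 => h4 (h3.1 h5)), if_neg h4]
  have h2 : ∀ s : ℕ, C (h0 * b.eval (s : ℂ)) * (J0 * ψ ^ s) = ∑ i, pderiv i (T i s) := by
    intro s
    have hlowf := low_pow v hv (aeval ξ f : PS (Fin N)) d (hψ.low hv)
    have hlJ : ∀ k : ℕ, (∀ j : ℤ, j < m0 + d * k → wz v j ((jacS ξ).det *
        (aeval ξ f : PS (Fin N)) ^ k) = 0) ∧ wz v (m0 + d * k) ((jacS ξ).det *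
        (aeval ξ f : PS (Fin N)) ^ k) = J0 * ψ ^ k := by
      intro k
      have h3 := low_mul v hv (jacS ξ).det ((aeval ξ f : PS (Fin N)) ^ k) m0 (d * k) (hJ.low hv)
        (hlowf k).1
      rw [(hlowf k).2, hJ.lead hv, hψ.lead hv] at h3
      exact h3
    have hL : wz v (m0 + d * s) ((jacS ξ).det * aeval ξ (H * (C (b.eval (s : ℂ)) * f ^ s))) =
        C (h0 * b.eval (s : ℂ)) * (J0 * ψ ^ s) := by
      have h3 : (jacS ξ).det * aeval ξ (H * (C (b.eval (s : ℂ)) * f ^ s)) =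
          (b.eval (s : ℂ)) • (aeval ξ H * ((jacS ξ).det * (aeval ξ f : PS (Fin N)) ^ s)) := by
        rw [C_mul', map_mul, map_smul, map_pow, mul_smul_comm, mul_smul_comm]
        congr 1
        ring
      have h4 := (low_mul v hv (aeval ξ H : PS (Fin N)) ((jacS ξ).det *
        (aeval ξ f : PS (Fin N)) ^ s) 0 (m0 + d * s) (fun j hj => wz_neg v j (by simpa using hj) _)
        (hlJ s).1).2
      rw [Nat.cast_zero, zero_add] at h4
      rw [h3, wz_smul, h4, (hlJ s).2]
      have h5 := hcc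
      rw [Nat.cast_zero] at h5
      rw [h5, ← C_mul', map_mul]
      ring
    rw [← hL, hP s, Finsupp.sum, map_sum, Finset.mul_sum, wz_sum, hT]
    simp only [map_sum]
    rw [Finset.sum_comm]
    refine Finset.sum_congr rfl fun m _ => ?_
    have h5 : (jacS ξ).det * aeval ξ (((s : ℂ) ^ m) •
        (P m : Module.End ℂ (MvPolynomial (Fin N) ℂ)) (f ^ (s + 1))) = ((s : ℂ) ^ m) •
        ((∑ i, pp i (∑ l, (jacS ξ).adjugate i l * aeval ξ (Qi m l (f ^ (s + 1))))) +
          aeval ξ (p m) * ((jacS ξ).det * (aeval ξ f : PS (Fin N)) ^ (s + 1))) := by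
      rw [map_smul, mul_smul_comm]
      congr 1
      rw [hsp m, map_add, map_sum, mul_add, Finset.mul_sum, map_mul, map_pow]
      congr 1
      · rw [Finset.sum_congr rfl fun l _ => pull_pd_div ξ hdet l (Qi m l (f ^ (s + 1))),
          Finset.sum_comm]
        exact Finset.sum_congr rfl fun i _ => by rw [map_sum]
      · ring
    rw [h5, wz_smul, wz_add, wz_sum]
    have h6 := (low_mul v hv (aeval ξ (p m) : PS (Fin N)) ((jacS ξ).det *
      (aeval ξ f : PS (Fin N)) ^ (s + 1)) 0 (m0 + d * ((s + 1 : ℕ) : ℤ))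
      (fun j hj => wz_neg v j (by simpa using hj) _) (hlJ (s + 1)).1).1 (m0 + d * s) (by
        push_cast
        have : (0 : ℤ) < d := by exact_mod_cast hd
        rw [mul_add, mul_one]
        linarith)
    rw [h6, add_zero, Finset.smul_sum]
    refine Finset.sum_congr rfl fun i _ => ?_
    rw [wz_pp v hv, ← map_pow, pderiv_C_mul, C_mul']
    have h7 : (m0 : ℤ) + d * s + v i = d * s + (m0 + v i) := by ring
    rw [h7]
  set s0 : ℂ := -((∑ i, v i + m0 : ℕ) : ℂ) / d with hs0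
  have key := IsPS.eq_of_nat (g := fun s => C (h0 * b.eval s) * (J0 * ψ ^ (R + 1)))
    (h := fun s => ∑ i, (C (s - R) * pderiv i ψ * V i s + ψ * pderiv i (V i s)))
    ?_ ?_ ?_ s0
  · exact exact_of_identity_num v ψ J0 d m0 hd hψ.1 hJ.1 s0 hs0 _ (mul_ne_zero hH hne) R
      (fun i => V i s0) key
  · have h3 : (fun s : ℂ => (C (h0 * b.eval s) : MvPolynomial (Fin N) ℂ) * (J0 * ψ ^ (R + 1))) =
        fun s => C h0 * C (b.eval s) * (J0 * ψ ^ (R + 1)) := by
      funext s
      rw [map_mul]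
    rw [h3]
    exact ((IsPS.const _).mul (isPS_eval b)).mul (IsPS.const _)
  · refine IsPS.sum _ fun i _ => ?_
    refine IsPS.add ((IsPS.mul ?_ (IsPS.const _)).mul (hV i)) ((IsPS.const _).mul ((hV i).pderiv i))
    simp only [map_sub]
    exact IsPS.id.sub (IsPS.const _)
  · intro s
    beta_reduce
    apply mul_left_cancel₀ (pow_ne_zero s hψ0)
    have h4 : ψ ^ s * (C (h0 * b.eval (s : ℂ)) * (J0 * ψ ^ (R + 1))) =
        ψ ^ (R + 1) * ∑ i, pderiv i (T i s) := by
      rw [← h2 s]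
      ring
    rw [h4, Finset.mul_sum, Finset.mul_sum]
    exact Finset.sum_congr rfl fun i _ => deriv_aux ψ (T i s) (V i s) i R s (h1 i s)

/-- forms with normal crossings and a numerator are not exact -/
theorem not_exact_num {c : ℕ} (hc : 2 ≤ c) (v : Fin c → ℕ) (hv : ∀ i, 0 < v i) (a : ℂ) (ha : a ≠ 0)
    {ι : Type} [Fintype ι] (F : ι → MvPolynomial (Fin c) ℂ) (e n m : ι → ℕ)
    (hF : ∀ i, IsWeightedHomogeneous v (F i) (e i)) (he : ∀ i, 0 < e i) (hn : ∀ i, 1 ≤ n i)
    (hS : SNC F)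
    (hli : ¬ LinearIndependent ℂ fun (i : ι) (j : Fin c) => eval 0 (pderiv j (F i)))
    (hlam : ∀ (i : ι) (l : ℕ), n i * (∑ j, v j + ∑ j, m j * e j) + l * ∑ j, n j * e j ≠
      m i * ∑ j, n j * e j) (k : ℕ) (Θ : Fin c → MvPolynomial (Fin c) ℂ)
    (h1 : ∑ i, Θ i * pderiv i (∏ i, F i ^ n i) = 0)
    (h2 : ∑ i, pderiv i (Θ i) = (C a * ∏ i, F i ^ m i) * (∏ i, F i ^ n i) ^ k) : False := by
  classical
  have hne : ∀ k, F k ≠ 0 := F_ne (by omega) F hS
  have hr : Nonempty ι := by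
    by_contra hcon
    rw [not_nonempty_iff] at hcon
    exact hli linearIndependent_empty_type
  have hd0 : 0 < ∑ j, n j * e j := by
    obtain ⟨i⟩ := hr
    exact Finset.sum_pos (fun i _ => Nat.mul_pos (hn i) (he i)) ⟨i, Finset.mem_univ i⟩
  have h9 : (C a * ∏ i, F i ^ m i) * (∏ i, F i ^ n i) ^ k = C a * ∏ i, F i ^ (m i + n i * k) := by
    rw [← Finset.prod_pow, mul_assoc, ← Finset.prod_mul_distrib]
    have h10 : ∀ i, F i ^ m i * (F i ^ n i) ^ k = F i ^ (m i + n i * k) := fun i => by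
      rw [pow_add, pow_mul]
    rw [Finset.prod_congr rfl fun i _ => h10 i]
  rw [h9] at h2
  obtain ⟨Θ', h5, h6, h7⟩ := comp_field v _ _ _ _ a ha (prod_hom_w v F e hF n)
    (prod_hom_w v F e hF fun i => m i + n i * k) _ h1 h2
  have hC := compW_of_snc v hv F e hF hS
  have h8 := init_PWG hc v hv F e hF he hS hC n m hn _ rfl hd0 k Θ' h5 h6 h7
  refine no_PW hc v hv F e hF he hS hli _ (reduce_all_w hc v hv F e hF he hS hC _ ?_ _ _ rfl h8)
  intro i l h9
  apply hlam i l
  have hdC : ((∑ j, n j * e j : ℕ) : ℂ) ≠ 0 := by exact_mod_cast hd0.ne'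
  have h10 : ((∑ j, v j + ∑ l, m l * e l : ℕ) : ℂ) * n i + l * ((∑ j, n j * e j : ℕ) : ℂ) =
      m i * ((∑ j, n j * e j : ℕ) : ℂ) := by
    have h11 := congrArg (fun z => z * ((∑ j, n j * e j : ℕ) : ℂ)) h9
    simp only [zero_mul, add_mul, sub_mul, div_mul_cancel₀ _ hdC] at h11
    linear_combination h11
  have h12 : (∑ j, v j + ∑ l, m l * e l) * n i + l * (∑ j, n j * e j) = m i * ∑ j, n j * e j := by
    exact_mod_cast h10
  rw [← h12]
  ring

/-- **The root of a divisor with normal crossings in a formal chart.** -/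
theorem chart_root {c : ℕ} (hc : 2 ≤ c) (ξ : Fin c → PS (Fin c)) (v : Fin c → ℕ)
    (hv : ∀ i, 0 < v i) (f H : MvPolynomial (Fin c) ℂ) (b : Polynomial ℂ) (hb : FEq f H b)
    (hH : eval (fun j => MvPowerSeries.constantCoeff (ξ j)) H ≠ 0) (a : ℂ) (ha : a ≠ 0)
    {ι : Type} [Fintype ι] (F : ι → MvPolynomial (Fin c) ℂ) (e n m : ι → ℕ)
    (hF : ∀ i, IsWeightedHomogeneous v (F i) (e i)) (he : ∀ i, 0 < e i) (hn : ∀ i, 1 ≤ n i)
    (hS : SNC F)
    (hli : ¬ LinearIndependent ℂ fun (i : ι) (j : Fin c) => eval 0 (pderiv j (F i)))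
    (hlam : ∀ (i : ι) (l : ℕ), n i * (∑ j, v j + ∑ j, m j * e j) + l * ∑ j, n j * e j ≠
      m i * ∑ j, n j * e j)
    (hψ : IsInit v (aeval ξ f : PS (Fin c)) (∑ i, n i * e i) (∏ i, F i ^ n i))
    (hJ : IsInit v (jacS ξ).det (∑ i, m i * e i) (C a * ∏ i, F i ^ m i)) :
    b.eval (-((∑ i, v i + ∑ i, m i * e i : ℕ) : ℂ) / ((∑ i, n i * e i : ℕ) : ℂ)) = 0 := by
  classical
  by_contra hne
  have hne' : ∀ k, F k ≠ 0 := F_ne (by omega) F hS
  have hr : Nonempty ι := by
    by_contra hcon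
    rw [not_nonempty_iff] at hcon
    exact hli linearIndependent_empty_type
  have hd0 : 0 < ∑ j, n j * e j := by
    obtain ⟨i⟩ := hr
    exact Finset.sum_pos (fun i _ => Nat.mul_pos (hn i) (he i)) ⟨i, Finset.mem_univ i⟩
  have hdvd : (C a * ∏ i, F i ^ m i) ∣ (∏ i, F i ^ n i) ^ (∑ i, m i) := by
    have hu : IsUnit (C a : MvPolynomial (Fin c) ℂ) := (isUnit_iff_ne_zero.2 ha).map C
    rw [hu.mul_left_dvd, ← Finset.prod_pow]
    refine Finset.prod_dvd_prod_of_dvd _ _ fun i _ => ?_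
    rw [← pow_mul]
    refine pow_dvd_pow _ ?_
    have h1 : m i ≤ ∑ i, m i := Finset.single_le_sum (fun _ _ => Nat.zero_le _)
      (Finset.mem_univ i)
    calc m i ≤ 1 * ∑ i, m i := by rw [one_mul]; exact h1
      _ ≤ n i * ∑ i, m i := Nat.mul_le_mul_right _ (hn i)
  obtain ⟨J1, hJ1⟩ := hdvd
  obtain ⟨k, Θ, -, h1, h2⟩ := chart_exact ξ v hv f H b hb hH (∏ i, F i ^ n i)
    (C a * ∏ i, F i ^ m i) J1 _ _ (∑ i, m i) hd0
    (Finset.prod_ne_zero_iff.2 fun i _ => pow_ne_zero _ (hne' i)) hψ hJ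
    (mul_ne_zero (C_ne_zero.2 ha) (Finset.prod_ne_zero_iff.2 fun i _ => pow_ne_zero _ (hne' i)))
    hJ1.symm hne
  exact not_exact_num hc v hv a ha F e n m hF he hn hS hli hlam k Θ h1 h2

end Pool.Agent.Helper48.TC
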