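import Pool.Agent.Helper48.SN.Koszul

set_option autoImplicit false
set_option linter.unusedSectionVars false

/-! # Koszul vectors and hyperplane sections -/

namespace Pool.Agent.Helper48.TC

open Finset MvPolynomial Pool.Agent.Helper48.SN

section

variable {A : Type} [CommRing A] {N : ℕ}

/-- the vectors which are combinations of the Koszul relations of `g` -/
def KV (g : Fin N → A) : Submodule A (Fin N → A) where
  carrier := {v | ∃ B : Fin N → Fin N → A, (∀ i j, B i j = - B j i) ∧ (∀ i, B i i = 0) ∧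
    ∀ i, v i = ∑ j, B i j * g j}
  add_mem' := by
    rintro v w ⟨B, hB, hB0, h⟩ ⟨B', hB', hB0', h'⟩
    refine ⟨fun i j => B i j + B' i j, fun i j => ?_, fun i => ?_, fun i => ?_⟩
    · beta_reduce
      rw [hB i j, hB' i j, neg_add]
    · beta_reduce
      rw [hB0, hB0', add_zero]
    · rw [Pi.add_apply, h, h', ← Finset.sum_add_distrib]
      exact Finset.sum_congr rfl fun j _ => by ring
  zero_mem' := ⟨fun _ _ => 0, fun _ _ => neg_zero.symm, fun _ => rfl, fun i => by simp⟩
  smul_mem' := by
    rintro c v ⟨B, hB, hB0, h⟩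
    refine ⟨fun i j => c * B i j, fun i j => ?_, fun i => ?_, fun i => ?_⟩
    · beta_reduce
      rw [hB i j, mul_neg]
    · beta_reduce
      rw [hB0, mul_zero]
    · rw [Pi.smul_apply, h, smul_eq_mul, Finset.mul_sum]
      exact Finset.sum_congr rfl fun j _ => by ring

theorem mem_KV {g v : Fin N → A} : v ∈ KV g ↔ ∃ B : Fin N → Fin N → A, (∀ i j, B i j = - B j i) ∧
    (∀ i, B i i = 0) ∧ ∀ i, v i = ∑ j, B i j * g j := Iff.rfl

theorem anti_zero [Algebra ℂ A] (B : Fin N → Fin N → A) (hB : ∀ i j, B i j = - B j i) (i : Fin N) :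
    B i i = 0 := by
  have h1 := hB i i
  have h2 : (2 : ℂ) • B i i = 0 := by
    rw [two_smul]
    nth_rewrite 1 [h1]
    rw [neg_add_cancel]
  have h3 := congrArg (fun z => (2 : ℂ)⁻¹ • z) h2
  simpa [smul_smul] using h3

theorem KV_of_form (g v : Fin N → A) (u : Om (Fin N) A) (hu : ii g u = ee v one0) : v ∈ KV g := by
  classical
  refine ⟨fun i j => if i = j then 0 else sg j {i} • u {j, i}, fun i j => ?_, fun i => ?_,
    fun i => ?_⟩
  · rcases eq_or_ne i j with h | h
    · subst h
      simp
    · beta_reduce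
      rw [if_neg h, if_neg h.symm, sg_single, sg_single, Finset.pair_comm]
      rcases lt_or_gt_of_ne h with h1 | h1
      · rw [if_pos h1, if_neg (not_lt.2 h1.le), neg_smul, one_smul]
      · rw [if_neg (not_lt.2 h1.le), if_pos h1, neg_smul, one_smul, neg_neg]
  · simp
  · have h1 := congrFun hu {i}
    rw [ii_apply, ee_apply, Finset.sum_apply, Finset.sum_apply] at h1
    have h2 : ∑ c, (v c • ex c (one0 : Om (Fin N) A)) {i} = v i := by
      rw [Finset.sum_eq_single i]
      · rw [Pi.smul_apply, ex_apply, if_pos (Finset.mem_singleton_self i), sg_single,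
          if_neg (lt_irrefl i), one_smul, one0, if_pos (by simp), smul_eq_mul, mul_one]
      · intro j _ hj
        rw [Pi.smul_apply, ex_apply, if_neg (by simp [hj]), smul_zero]
      · intro h
        exact absurd (Finset.mem_univ i) h
    rw [h2] at h1
    rw [← h1]
    refine Finset.sum_congr rfl fun j _ => ?_
    beta_reduce
    rw [Pi.smul_apply, ct_apply]
    by_cases hji : i = j
    · subst hji
      simp
    · rw [if_neg (by simp [Ne.symm hji]), if_neg hji, smul_eq_mul, mul_comm]

theorem ii_ex_one0 (g : Fin N → A) (i j : Fin N) :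
    ii g (ex i (ex j (one0 : Om (Fin N) A))) = g i • ex j one0 - g j • ex i one0 := by
  classical
  have h4 : ∀ (k : Fin N) (y : Om (Fin N) A), ee (Pi.single k (1 : A)) y = ex k y := by
    intro k y
    rw [ee_apply, Finset.sum_eq_single k (fun j _ hj => by
      rw [Pi.single_eq_of_ne hj, zero_smul]) (fun h => absurd (Finset.mem_univ k) h),
      Pi.single_eq_same, one_smul]
  have h5 : ∀ (k : Fin N) (y : Om (Fin N) A), ii g (ex k y) = g k • y - ex k (ii g y) := by
    intro k y
    have h3 := ii_ee g (Pi.single k (1 : A)) y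
    rw [h4, h4, Finset.sum_eq_single k (fun j _ hj => by
      rw [Pi.single_eq_of_ne hj, mul_zero]) (fun h => absurd (Finset.mem_univ k) h),
      Pi.single_eq_same, mul_one] at h3
    exact h3
  rw [h5, h5, ii_one0, map_zero, sub_zero, map_smul]

theorem form_of_KV [Algebra ℂ A] (g v : Fin N → A) (hv : v ∈ KV g) :
    ∃ u : Om (Fin N) A, pr 2 u = u ∧ ii g u = ee v one0 := by
  obtain ⟨B, hB, -, h⟩ := hv
  refine ⟨algebraMap ℂ A (-1 / 2) • ∑ i, ∑ j, B i j • ex i (ex j one0), ?_, ?_⟩
  · rw [map_smul, map_sum]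
    congr 1
    refine Finset.sum_congr rfl fun i _ => ?_
    rw [map_sum]
    refine Finset.sum_congr rfl fun j _ => ?_
    rw [map_smul, show (2 : ℤ) = 0 + 1 + 1 by norm_num, pr_ex, pr_ex, pr_one0]
  · rw [map_smul, map_sum]
    have h1 : ∑ i, ii g (∑ j, B i j • ex i (ex j (one0 : Om (Fin N) A))) =
        -((2 : ℕ) • ee v (one0 : Om (Fin N) A)) := by
      have h2 : ∀ i, ii g (∑ j, B i j • ex i (ex j (one0 : Om (Fin N) A))) =
          ∑ j, (B i j * g i) • ex j (one0 : Om (Fin N) A) -
            ∑ j, (B i j * g j) • ex i (one0 : Om (Fin N) A) := by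
        intro i
        rw [map_sum, ← Finset.sum_sub_distrib]
        refine Finset.sum_congr rfl fun j _ => ?_
        rw [map_smul, ii_ex_one0, smul_sub, smul_smul, smul_smul]
      rw [Finset.sum_congr rfl fun i _ => h2 i, Finset.sum_sub_distrib]
      have h3 : ∑ i, ∑ j, (B i j * g i) • ex j (one0 : Om (Fin N) A) = - ee v one0 := by
        rw [Finset.sum_comm, ee_apply, ← Finset.sum_neg_distrib]
        refine Finset.sum_congr rfl fun j _ => ?_
        rw [← Finset.sum_smul, h j, ← neg_smul, ← Finset.sum_neg_distrib]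
        congr 1
        refine Finset.sum_congr rfl fun i _ => ?_
        rw [hB i j]
        ring
      have h4 : ∑ i, ∑ j, (B i j * g j) • ex i (one0 : Om (Fin N) A) = ee v one0 := by
        rw [ee_apply]
        refine Finset.sum_congr rfl fun i _ => ?_
        rw [← Finset.sum_smul, h i]
      rw [h3, h4, two_smul]
      abel
    rw [h1, smul_neg, ← neg_smul, ← Nat.cast_smul_eq_nsmul A, smul_smul]
    have h5 : -algebraMap ℂ A (-1 / 2) * ((2 : ℕ) : A) = 1 := by
      rw [← map_neg, ← map_natCast (algebraMap ℂ A), ← map_mul]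
      norm_num
    rw [h5, one_smul]

theorem KV_of_mul (g v : Fin N → A) (h : ∑ j, v j * g j = 0) (i : Fin N) : g i • v ∈ KV g := by
  classical
  refine ⟨fun a b => (if b = i then v a else 0) - (if a = i then v b else 0), fun a b => by ring,
    fun a => by ring, fun a => ?_⟩
  rw [Pi.smul_apply, smul_eq_mul]
  simp only [sub_mul, ite_mul, zero_mul, Finset.sum_sub_distrib, Finset.sum_ite_eq',
    Finset.mem_univ, if_true]
  split_ifs with h1
  · rw [h, sub_zero, mul_comm]
  · rw [Finset.sum_const_zero, sub_zero, mul_comm]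

end

section

variable {n : ℕ}

/-- **The depth of the Koszul homology.** -/
theorem depth_step (g : Fin (n + 1) → MvPolynomial (Fin (n + 1)) ℂ)
    (σ : MvPolynomial (Fin (n + 1)) ℂ →ₐ[ℂ] MvPolynomial (Fin n) ℂ) (hσ : Function.Surjective σ)
    (ℓ : MvPolynomial (Fin (n + 1)) ℂ) (hℓ0 : ℓ ≠ 0) (hℓ : σ ℓ = 0)
    (hker : ∀ p, σ p = 0 → ∃ q, p = ℓ * q) (M : ℕ)
    (hM : ∀ i : Fin n, (X i : MvPolynomial (Fin n) ℂ) ^ M ∈
      Ideal.span (Set.range fun j => σ (g j)))
    (v : Fin (n + 1) → MvPolynomial (Fin (n + 1)) ℂ) (h : ℓ • v ∈ KV g) : v ∈ KV g := by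
  classical
  obtain ⟨y, hy2, hy⟩ := form_of_KV g _ h
  choose lift hlift using hσ
  have hI0 : ∀ j (p : MvPolynomial (Fin (n + 1)) ℂ), σ p = 0 →
      p ∈ Ideal.comap σ (XI n M j) := by
    intro j p hp
    rw [Ideal.mem_comap, hp]
    exact Ideal.zero_mem _
  have key := saito (κ := Unit) (M := Om (Fin (n + 1)) (MvPolynomial (Fin (n + 1)) ℂ))
    (fun _ => ii g)
    (fun _ _ x => ii_ii g g x) (fun _ x => ii_self g x) (fun p => pr (((n + 1 : ℕ) : ℤ) - p))
    (fun p _ x => by
      rw [pr_ii, show ((n + 1 : ℕ) : ℤ) - (p + 1) + 1 = ((n + 1 : ℕ) : ℤ) - p by ring])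
    (fun p x => pr_pr _ x) (fun p hp x => pr_big _ (by rw [Fintype.card_fin]; omega) x) n
    (fun j => cf (Ideal.comap σ (XI n M j)))
    (fun j => if h : j < n then lift (X (⟨j, h⟩ : Fin n) ^ M) else 0)
    (fun j _ x hx => ii_cf g hx) (fun j p x hx => pr_cf _ hx)
    (fun j x hx S => XI_le n M j (hx S))
    (fun j x => by
      split_ifs with h
      · intro S
        rw [Pi.smul_apply, smul_eq_mul, Ideal.mem_comap, map_mul, hlift]
        refine Ideal.mul_mem_right _ _ ?_
        rw [mem_XI]
        intro m hm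
        rw [X_pow_eq_monomial, support_monomial, if_neg one_ne_zero, Finset.mem_singleton] at hm
        exact ⟨⟨j, h⟩, Nat.lt_succ_self j, by rw [hm, Finsupp.single_eq_same]⟩
      · rw [zero_smul]
        exact Submodule.zero_mem _)
    (fun j hj x hx => by
      rw [dif_pos hj]
      choose q hq using fun S => XI_step n M j hj (σ (x S)) (hx S)
      refine ⟨fun S => lift (q S), fun S => ?_⟩
      rw [Ideal.mem_comap, Pi.sub_apply, Pi.smul_apply, smul_eq_mul, map_sub, map_mul, hlift, hlift]
      exact hq S)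
    (fun j hj x hx => by
      rw [dif_pos hj] at hx
      intro S
      have h1 := hx S
      rw [Pi.smul_apply, smul_eq_mul, Ideal.mem_comap, map_mul, hlift] at h1
      exact XI_nzd n M j hj (σ (x S)) h1)
    [()] (by
      intro l' hl' j hj x hx
      rw [dif_pos hj]
      rcases List.suffix_cons_iff.1 hl' with h | h
      · subst h
        change ii g x ∈ cf (Ideal.comap σ (XI n M j)) at hx
        obtain ⟨c, hc⟩ := Ideal.mem_span_range_iff_exists_fun.1 (hM ⟨j, hj⟩)
        have h2 : ∀ i, g i • x = ii g (ex i x) + ex i (ii g x) := by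
          intro i
          have h3 := ii_ee g (Pi.single i (1 : MvPolynomial (Fin (n + 1)) ℂ)) x
          have h4 : ∀ y : Om (Fin (n + 1)) (MvPolynomial (Fin (n + 1)) ℂ),
              ee (Pi.single i (1 : MvPolynomial (Fin (n + 1)) ℂ)) y = ex i y := by
            intro y
            rw [ee_apply, Finset.sum_eq_single i (fun j _ hj => by
              rw [Pi.single_eq_of_ne hj, zero_smul]) (fun h => absurd (Finset.mem_univ i) h),
              Pi.single_eq_same, one_smul]
          rw [h4, h4, Finset.sum_eq_single i (fun j _ hj => by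
              rw [Pi.single_eq_of_ne hj, mul_zero]) (fun h => absurd (Finset.mem_univ i) h),
              Pi.single_eq_same, mul_one] at h3
          rw [h3, sub_add_cancel]
        have h5 : lift (X (⟨j, hj⟩ : Fin n) ^ M) • x =
            (∑ i, (lift (c i) * g i) • x) +
              (lift (X (⟨j, hj⟩ : Fin n) ^ M) - ∑ i, lift (c i) * g i) • x := by
          rw [sub_smul, ← Finset.sum_smul]
          abel
        rw [h5]
        refine Submodule.add_mem _ (Submodule.sum_mem _ fun i _ => ?_) ?_
        · rw [mul_smul, h2, smul_add]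
          refine Submodule.add_mem _ (Submodule.smul_mem _ _ ?_) (Submodule.smul_mem _ _ ?_)
          · exact Submodule.mem_sup_left (Submodule.mem_sup_left ⟨_, rfl⟩)
          · exact Submodule.mem_sup_right (ex_cf i hx)
        · refine Submodule.mem_sup_right fun S => ?_
          rw [Pi.smul_apply, smul_eq_mul]
          refine Ideal.mul_mem_right _ _ (hI0 j _ ?_)
          rw [map_sub, hlift, map_sum, ← hc, sub_eq_zero]
          exact Finset.sum_congr rfl fun i _ => by rw [map_mul, hlift]
      · rw [List.suffix_nil] at h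
        subst h
        exact Submodule.mem_sup_right (Submodule.smul_mem _ _ hx))
    (n + 1) ((n : ℤ) - 1) (by push_cast; omega) 0 (by push_cast; omega) y (by
      rw [show ((n + 1 : ℕ) : ℤ) - ((n : ℤ) - 1) = 2 by push_cast; ring]
      exact hy2) (by
      change ii g y ∈ _
      rw [hy]
      intro S
      rw [ee_apply, Finset.sum_apply]
      refine Ideal.sum_mem _ fun i _ => ?_
      rw [Pi.smul_apply, Pi.smul_apply, smul_eq_mul, smul_eq_mul, mul_assoc]
      exact Ideal.mul_mem_right _ _ (hI0 0 _ hℓ))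
  obtain ⟨u, hu, w, hw, huw⟩ := Submodule.mem_sup.1 key
  obtain ⟨z, hz⟩ : ∃ z, ii g z = u := by
    rw [IM, IM, sup_bot_eq] at hu
    exact hu
  have hw1 : ∀ S, ∃ q, w S = ℓ * q := fun S => hker _ (XI_zero n M (hw S))
  choose q hq using hw1
  have hwq : w = ℓ • (q : Om (Fin (n + 1)) (MvPolynomial (Fin (n + 1)) ℂ)) := by
    funext S
    exact hq S
  refine KV_of_form g v q ?_
  have h1 : ℓ • ii g (q : Om (Fin (n + 1)) (MvPolynomial (Fin (n + 1)) ℂ)) =
      ℓ • ee v (one0 : Om (Fin (n + 1)) (MvPolynomial (Fin (n + 1)) ℂ)) := by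
    have h2 : ee (ℓ • v) (one0 : Om (Fin (n + 1)) (MvPolynomial (Fin (n + 1)) ℂ)) =
        ℓ • ee v one0 := by
      rw [ee_apply, ee_apply, Finset.smul_sum]
      refine Finset.sum_congr rfl fun i _ => ?_
      rw [Pi.smul_apply, smul_eq_mul, mul_smul]
    rw [← h2, ← hy, ← huw, map_add, ← hz, ii_self, zero_add, hwq, map_smul]
  funext S
  have h3 := congrFun h1 S
  rw [Pi.smul_apply, Pi.smul_apply, smul_eq_mul, smul_eq_mul] at h3
  exact mul_left_cancel₀ hℓ0 h3

end

end Pool.Agent.Helper48.TC
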