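import Pool.Agent.Helper48.TC.Sl
import Pool.Agent.Helper48.TC.Kos

set_option autoImplicit false
set_option linter.unusedSectionVars false

/-! # The components of a vector field on a slice -/

namespace Pool.Agent.Helper48.TC

open Finset MvPolynomial Pool.Agent.H628R4.TP Pool.Agent.K3h38.SM Pool.Agent.Helper48.SN
  Pool.Agent.Helper48.SW

variable {n : ℕ}

/-- the Jacobian ideal -/
noncomputable def JJ (h : MvPolynomial (Fin n) ℂ) : Ideal (MvPolynomial (Fin n) ℂ) :=
  Ideal.span (Set.range fun i => pderiv i h)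

/-- the sequence of the slice -/
noncomputable def gg (h : MvPolynomial (Fin n) ℂ) (d : ℕ) (i : Fin (n + 1)) :
    MvPolynomial (Fin n) ℂ :=
  Fin.lastCases (motive := fun _ => MvPolynomial (Fin n) ℂ) (C (d : ℂ) * h)
    (fun i => pderiv i h) i

theorem gg_succ (h : MvPolynomial (Fin n) ℂ) (d : ℕ) (i : Fin n) :
    gg h d i.castSucc = pderiv i h := by
  rw [gg, Fin.lastCases_castSucc]

theorem gg_last (h : MvPolynomial (Fin n) ℂ) (d : ℕ) : gg h d (Fin.last n) = C (d : ℂ) * h := by
  rw [gg, Fin.lastCases_last]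

theorem kos_crit (h : MvPolynomial (Fin n) ℂ)
    (hcrit : ∀ y : Fin n → ℂ, (∀ i, eval y (pderiv i h) = 0) → y = 0)
    (q : Fin n → MvPolynomial (Fin n) ℂ) (hq : ∑ i, q i * pderiv i h = 0) :
    ∃ B : Fin n → Fin n → MvPolynomial (Fin n) ℂ, (∀ i j, B i j = - B j i) ∧ (∀ i, B i i = 0) ∧
      ∀ i, q i = ∑ j, B i j * pderiv j h := by
  obtain ⟨S, hS, hS2⟩ := h1_of_zero (fun i => pderiv i h) hcrit q (by
    rw [← hq, dotProduct])
  refine ⟨S, fun i j => hS.2 i j, fun i => hS.1 i, fun i => ?_⟩
  have := congrFun hS2 i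
  rw [Matrix.mulVec, dotProduct] at this
  exact this

theorem h_mem (a : Fin n → ℕ) (e : ℕ) (he : 0 < e) (h : MvPolynomial (Fin n) ℂ)
    (hh : IsWeightedHomogeneous a h e) : h ∈ JJ h := by
  have h1 := euler_w a h e hh
  have h2 : C (e : ℂ) * h ∈ JJ h := by
    rw [← h1]
    exact Ideal.sum_mem _ fun i _ => Ideal.mul_mem_left _ _ (Ideal.subset_span ⟨i, rfl⟩)
  have h3 : C (e : ℂ)⁻¹ * (C (e : ℂ) * h) = h := by
    rw [← mul_assoc, ← C_mul, inv_mul_cancel₀ (by exact_mod_cast he.ne'), C_1, one_mul]
  have h4 := Ideal.mul_mem_left (JJ h) (C (e : ℂ)⁻¹) h2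
  rwa [h3] at h4

/-- the case of one weight -/
theorem comp_KV (a : Fin n → ℕ) (e : ℕ) (he : 0 < e) (h : MvPolynomial (Fin n) ℂ)
    (hh : IsWeightedHomogeneous a h e)
    (hcrit : ∀ y : Fin n → ℂ, (∀ i, eval y (pderiv i h) = 0) → y = 0) (d : ℕ)
    (r : ℤ) (κ : ℕ) (q : Fin (n + 1) → MvPolynomial (Fin n) ℂ)
    (hE : ∑ j, EE a j * pderiv j (q (Fin.last n)) = C (r : ℂ) * q (Fin.last n))
    (h1 : ∑ i : Fin n, q i.castSucc * pderiv i h + q (Fin.last n) * (C (d : ℂ) * h) = 0)
    (h2 : ∑ i : Fin n, pderiv i (q i.castSucc) + C (κ : ℂ) * q (Fin.last n) ∈ JJ h)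
    (hNR : (d : ℤ) * (∑ i, a i + r) = e * κ → q (Fin.last n) ∈ JJ h) :
    q ∈ KV (gg h d) := by
  classical
  have heC : (e : ℂ) ≠ 0 := by exact_mod_cast he.ne'
  have key : q (Fin.last n) ∈ JJ h := by
    by_cases hr : (d : ℤ) * (∑ i, a i + r) = e * κ
    · exact hNR hr
    · obtain ⟨B, hB, hB0, hq⟩ := kos_crit h hcrit
        (fun i => q i.castSucc + C (d / e : ℂ) * (EE a i * q (Fin.last n))) (by
          have h3 : ∀ i, (q i.castSucc + C (d / e : ℂ) * (EE a i * q (Fin.last n))) * pderiv i h =
              q i.castSucc * pderiv i h + C (d / e : ℂ) * q (Fin.last n) *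
                (EE a i * pderiv i h) := fun i => by ring
          rw [Finset.sum_congr rfl fun i _ => h3 i, Finset.sum_add_distrib, ← Finset.mul_sum,
            euler_w a h e hh]
          have h4 : C (d / e : ℂ) * C (e : ℂ) = (C (d : ℂ) : MvPolynomial (Fin n) ℂ) := by
            rw [← C_mul, div_mul_cancel₀ _ heC]
          linear_combination h1 + q (Fin.last n) * h * h4)
      have h3 : ∑ i, pderiv i (q i.castSucc + C (d / e : ℂ) * (EE a i * q (Fin.last n))) ∈
          JJ h := by
        have h4 : ∑ i, pderiv i (q i.castSucc + C (d / e : ℂ) * (EE a i * q (Fin.last n))) =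
            ∑ i, ∑ j, pderiv i (B i j) * pderiv j h +
              ∑ i, ∑ j, B i j * pderiv i (pderiv j h) := by
          rw [← Finset.sum_add_distrib]
          refine Finset.sum_congr rfl fun i _ => ?_
          have h5 := hq i
          beta_reduce at h5
          rw [h5, map_sum, ← Finset.sum_add_distrib]
          refine Finset.sum_congr rfl fun j _ => ?_
          rw [pderiv_mul]
        have h5 : ∑ i, ∑ j, B i j * pderiv i (pderiv j h) = 0 := by
          refine anti_sum (fun i j => B i j * pderiv i (pderiv j h)) (fun i => ?_) fun i j => ?_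
          · rw [hB0, zero_mul]
          · rw [hB i j, pderiv_comm i j]
            ring
        rw [h4, h5, add_zero]
        exact Ideal.sum_mem _ fun i _ => Ideal.sum_mem _ fun j _ =>
          Ideal.mul_mem_left _ _ (Ideal.subset_span ⟨j, rfl⟩)
      have h4 : ∑ i, pderiv i (q i.castSucc + C (d / e : ℂ) * (EE a i * q (Fin.last n))) =
          ∑ i : Fin n, pderiv i (q i.castSucc) +
            C (d / e * (∑ i, (a i : ℂ) + r)) * q (Fin.last n) := by
        have h5 : ∀ i, pderiv i (q i.castSucc + C (d / e : ℂ) * (EE a i * q (Fin.last n))) =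
            pderiv i (q i.castSucc) + C (d / e : ℂ) * (C (a i : ℂ) * q (Fin.last n) +
              EE a i * pderiv i (q (Fin.last n))) := by
          intro i
          rw [map_add, pderiv_C_mul, pderiv_mul]
          congr 3
          rw [EE, pderiv_C_mul, pderiv_X_self, mul_one]
        rw [Finset.sum_congr rfl fun i _ => h5 i, Finset.sum_add_distrib, ← Finset.mul_sum,
          Finset.sum_add_distrib, hE, ← Finset.sum_mul]
        simp only [C_mul, C_add, map_sum]
        ring
      rw [h4] at h3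
      have h5 : C (d / e * (∑ i, (a i : ℂ) + r) - κ) * q (Fin.last n) ∈ JJ h := by
        have h6 := Ideal.sub_mem _ h3 h2
        have h7 : ∑ i : Fin n, pderiv i (q i.castSucc) +
            C (d / e * (∑ i, (a i : ℂ) + r)) * q (Fin.last n) -
              (∑ i : Fin n, pderiv i (q i.castSucc) + C (κ : ℂ) * q (Fin.last n)) =
            C (d / e * (∑ i, (a i : ℂ) + r) - κ) * q (Fin.last n) := by
          rw [C_sub]
          ring
        rwa [h7] at h6
      have h6 : (d / e * (∑ i, (a i : ℂ) + r) - κ : ℂ) ≠ 0 := by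
        intro h7
        apply hr
        have h8 : (d : ℂ) * (∑ i, (a i : ℂ) + r) = e * κ := by
          have h9 : (d : ℂ) / e * (∑ i, (a i : ℂ) + r) = κ := by linear_combination h7
          rw [← h9]
          field_simp
        exact_mod_cast h8
      have h7 : q (Fin.last n) = C (d / e * (∑ i, (a i : ℂ) + r) - κ : ℂ)⁻¹ *
          (C (d / e * (∑ i, (a i : ℂ) + r) - κ) * q (Fin.last n)) := by
        rw [← mul_assoc, ← C_mul, inv_mul_cancel₀ h6, C_1, one_mul]
      rw [h7]
      exact Ideal.mul_mem_left _ _ h5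
  obtain ⟨α, hα⟩ := Ideal.mem_span_range_iff_exists_fun.1 key
  obtain ⟨β, hβ, hβ0, hq⟩ := kos_crit h hcrit (fun i => q i.castSucc + α i * (C (d : ℂ) * h)) (by
    have h3 : ∀ i, (q i.castSucc + α i * (C (d : ℂ) * h)) * pderiv i h =
        q i.castSucc * pderiv i h + α i * pderiv i h * (C (d : ℂ) * h) := fun i => by ring
    rw [Finset.sum_congr rfl fun i _ => h3 i, Finset.sum_add_distrib, ← Finset.sum_mul, hα, h1])
  refine ⟨fun i j => Fin.lastCases (motive := fun _ => MvPolynomial (Fin n) ℂ)
    (Fin.lastCases (motive := fun _ => MvPolynomial (Fin n) ℂ) 0 (fun j => α j) j)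
    (fun i => Fin.lastCases (motive := fun _ => MvPolynomial (Fin n) ℂ) (- α i)
      (fun j => β i j) j) i, fun i j => ?_, fun i => ?_, fun i => ?_⟩
  · refine Fin.lastCases ?_ (fun i => ?_) i
    · refine Fin.lastCases ?_ (fun j => ?_) j
      · simp only [Fin.lastCases_last, neg_zero]
      · simp only [Fin.lastCases_last, Fin.lastCases_castSucc, neg_neg]
    · refine Fin.lastCases ?_ (fun j => ?_) j
      · simp only [Fin.lastCases_last, Fin.lastCases_castSucc]
      · simp only [Fin.lastCases_castSucc]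
        exact hβ i j
  · refine Fin.lastCases ?_ (fun i => ?_) i
    · simp only [Fin.lastCases_last]
    · simp only [Fin.lastCases_castSucc]
      exact hβ0 i
  · rw [Fin.sum_univ_castSucc, gg_last]
    refine Fin.lastCases ?_ (fun i => ?_) i
    · simp only [Fin.lastCases_last, Fin.lastCases_castSucc, gg_succ, zero_mul, add_zero]
      exact hα.symm
    · simp only [Fin.lastCases_last, Fin.lastCases_castSucc, gg_succ]
      rw [← hq i]
      ring

end Pool.Agent.Helper48.TC
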