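import Pool.Agent.Helper48.TC.Tra

set_option autoImplicit false
set_option linter.unusedSectionVars false

/-! # Krull's theorem for Koszul vectors, formal charts -/

namespace Pool.Agent.Helper48.TC

open Finset MvPolynomial Pool.Agent.H628R4.TP Pool.Agent.K3h38.SM Pool.Agent.Helper48.SN
  Pool.Agent.Helper48.SW

variable {N : ℕ}

/-- the maximal ideal of a point -/
noncomputable def Mp (p : Fin N → ℂ) : Ideal (MvPolynomial (Fin N) ℂ) := RingHom.ker (eval p)

theorem krull_KV (g v : Fin N → MvPolynomial (Fin N) ℂ) (p : Fin N → ℂ)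
    (h : ∀ K, ∃ w ∈ KV g, ∀ j, v j - w j ∈ Mp p ^ K) : ∃ a, eval p a ≠ 0 ∧ a • v ∈ KV g := by
  classical
  have h1 : (KV g).mkQ v ∈ (⨅ i : ℕ, Mp p ^ i • ⊤ :
      Submodule (MvPolynomial (Fin N) ℂ) ((Fin N → MvPolynomial (Fin N) ℂ) ⧸ KV g)) := by
    rw [Submodule.mem_iInf]
    intro K
    obtain ⟨w, hw, hvw⟩ := h K
    have h2 : (KV g).mkQ v = (KV g).mkQ (v - w) := by
      rw [map_sub, (Submodule.Quotient.mk_eq_zero (KV g)).2 hw |> fun h : (KV g).mkQ w = 0 => h,
        sub_zero]
    have h3 : v - w = ∑ j, (v j - w j) • (Pi.single j (1 : MvPolynomial (Fin N) ℂ) :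
        Fin N → MvPolynomial (Fin N) ℂ) := by
      funext i
      rw [Finset.sum_apply, Finset.sum_eq_single i]
      · simp
      · intro j _ hj
        rw [Pi.smul_apply, Pi.single_eq_of_ne (Ne.symm hj), smul_zero]
      · intro h4
        exact absurd (Finset.mem_univ i) h4
    rw [h2, h3, map_sum]
    refine Submodule.sum_mem _ fun j _ => ?_
    rw [map_smul]
    exact Submodule.smul_mem_smul (hvw j) trivial
  obtain ⟨r, hr⟩ := (Ideal.mem_iInf_smul_pow_eq_bot_iff (Mp p) ((KV g).mkQ v)).1 h1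
  refine ⟨1 - r, ?_, ?_⟩
  · have h2 : eval p (r : MvPolynomial (Fin N) ℂ) = 0 := r.2
    rw [map_sub, map_one, h2, sub_zero]
    exact one_ne_zero
  · rw [← Submodule.Quotient.mk_eq_zero (KV g)]
    change (KV g).mkQ ((1 - (r : MvPolynomial (Fin N) ℂ)) • v) = 0
    rw [map_smul, sub_smul, hr, one_smul, sub_self]

section Chart

variable (Φ : Fin N → PS (Fin N)) (p : Fin N → ℂ) (M' : Matrix (Fin N) (Fin N) ℂ)

/-- the linear part of the chart -/
noncomputable def lin (Φ : Fin N → PS (Fin N)) : Matrix (Fin N) (Fin N) ℂ :=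
  Matrix.of fun j i => MvPowerSeries.coeff (Finsupp.single i 1) (Φ j)

/-- the inverse affine map -/
noncomputable def afi : MvPolynomial (Fin N) ℂ →ₐ[ℂ] MvPolynomial (Fin N) ℂ :=
  aeval fun i => ∑ j, C (M' i j) * (X j - C (p j))

/-- the affine map -/
noncomputable def aff (M : Matrix (Fin N) (Fin N) ℂ) :
    MvPolynomial (Fin N) ℂ →ₐ[ℂ] MvPolynomial (Fin N) ℂ :=
  aeval fun j => C (p j) + ∑ i, C (M j i) * X i

theorem afi_aff (M : Matrix (Fin N) (Fin N) ℂ) (hM : M * M' = 1) (g : MvPolynomial (Fin N) ℂ) :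
    afi p M' (aff p M g) = g := by
  have hC : ∀ c : ℂ, afi p M' (C c) = C c := fun c => by
    rw [afi, aeval_C]
    rfl
  have h1 : (afi p M').comp (aff p M) = AlgHom.id ℂ _ := by
    refine MvPolynomial.algHom_ext fun j => ?_
    rw [AlgHom.comp_apply, AlgHom.id_apply, aff, aeval_X, map_add, hC, map_sum]
    have h2 : ∀ i, afi p M' (C (M j i) * X i) =
        ∑ l, C (M j i * M' i l) * (X l - C (p l)) := by
      intro i
      rw [map_mul, hC, afi, aeval_X, Finset.mul_sum]
      refine Finset.sum_congr rfl fun l _ => ?_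
      rw [C_mul]
      ring
    rw [Finset.sum_congr rfl fun i _ => h2 i, Finset.sum_comm]
    have h3 : ∀ l, ∑ i, C (M j i * M' i l) * (X l - C (p l)) =
        if l = j then (X l - C (p l) : MvPolynomial (Fin N) ℂ) else 0 := by
      intro l
      rw [← Finset.sum_mul, ← map_sum]
      have h4 := congrFun (congrFun hM j) l
      rw [Matrix.mul_apply] at h4
      rw [h4]
      by_cases h5 : l = j
      · rw [if_pos h5, h5, Matrix.one_apply_eq, C_1, one_mul]
      · rw [if_neg h5, Matrix.one_apply_ne (Ne.symm h5), C_0, zero_mul]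
    rw [Finset.sum_congr rfl fun l _ => h3 l, Finset.sum_ite_eq', if_pos (Finset.mem_univ j)]
    ring
  exact congrArg (fun F : MvPolynomial (Fin N) ℂ →ₐ[ℂ] MvPolynomial (Fin N) ℂ => F g) h1

theorem degree_one (m : Fin N →₀ ℕ) (h : m.degree = 1) : ∃ l, m = Finsupp.single l 1 := by
  rw [Finsupp.degree_eq_sum] at h
  have h1 : ∃ l, m l ≠ 0 := by
    by_contra hcon
    push Not at hcon
    rw [Finset.sum_eq_zero fun i _ => hcon i] at h
    omega
  obtain ⟨l, hl⟩ := h1
  refine ⟨l, ?_⟩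
  have h2 := Finset.add_sum_erase Finset.univ (fun i => m i) (Finset.mem_univ l)
  beta_reduce at h2
  have h3 : ∑ x ∈ Finset.univ.erase l, m x = 0 := by omega
  ext i
  by_cases hi : i = l
  · rw [hi, Finsupp.single_eq_same]
    omega
  · rw [Finsupp.single_eq_of_ne hi]
    exact (Finset.sum_eq_zero_iff.1 h3) i (Finset.mem_erase.2 ⟨hi, Finset.mem_univ i⟩)

/-- **Koszul vectors in a formal chart.** -/
theorem chart_KV (hp : ∀ j, MvPowerSeries.constantCoeff (Φ j) = p j)
    (hM : IsUnit (lin Φ).det) (g v : Fin N → MvPolynomial (Fin N) ℂ)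
    (h : ∀ K, ∃ w ∈ KV (fun j => (aeval Φ (g j) : PS (Fin N))),
      ∀ j, (aeval Φ (v j) : PS (Fin N)) - w j ∈ OKI (Fin N) K) :
    ∃ a, eval p a ≠ 0 ∧ a • v ∈ KV g := by
  classical
  set M := lin Φ with hMd
  set M' := M⁻¹ with hM'
  have hMM : M * M' = 1 := Matrix.mul_nonsing_inv M hM
  have hMM' : M' * M = 1 := Matrix.nonsing_inv_mul M hM
  set ζ : Fin N → PS (Fin N) := fun i => aeval Φ (afi p M' (X i)) with hζd
  have hζ : ∀ i, ζ i - MvPowerSeries.X i ∈ OKI (Fin N) 2 := by
    intro i m hm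
    have h1 : ζ i = ∑ j, MvPowerSeries.C (M' i j) * (Φ j - MvPowerSeries.C (p j)) := by
      rw [hζd]
      beta_reduce
      rw [afi, aeval_X, map_sum]
      refine Finset.sum_congr rfl fun j _ => ?_
      rw [map_mul, map_sub, aeval_X, aeval_C, aeval_C]
      rfl
    rw [map_sub, h1, map_sum]
    have h2 : ∀ j, MvPowerSeries.coeff m (MvPowerSeries.C (M' i j) *
        (Φ j - MvPowerSeries.C (p j))) = M' i j * (MvPowerSeries.coeff m (Φ j) -
          MvPowerSeries.coeff m (MvPowerSeries.C (p j))) := by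
      intro j
      rw [MvPowerSeries.coeff_C_mul, map_sub]
    rw [Finset.sum_congr rfl fun j _ => h2 j]
    rcases Nat.lt_or_ge m.degree 1 with h3 | h3
    · have h4 : m = 0 := (Finsupp.degree_eq_zero_iff m).1 (by omega)
      rw [h4, MvPowerSeries.coeff_zero_X, sub_zero]
      refine Finset.sum_eq_zero fun j _ => ?_
      rw [MvPowerSeries.coeff_zero_eq_constantCoeff_apply, hp j,
        MvPowerSeries.coeff_zero_eq_constantCoeff_apply, MvPowerSeries.constantCoeff_C, sub_self,
        mul_zero]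
    · obtain ⟨l, rfl⟩ := degree_one m (by omega)
      have h4 : ∀ j, M' i j * (MvPowerSeries.coeff (Finsupp.single l 1) (Φ j) -
          MvPowerSeries.coeff (Finsupp.single l 1) (MvPowerSeries.C (p j))) = M' i j * M j l := by
        intro j
        rw [MvPowerSeries.coeff_C, if_neg (by simp), sub_zero]
        rfl
      rw [Finset.sum_congr rfl fun j _ => h4 j, ← Matrix.mul_apply, hMM', MvPowerSeries.coeff_X]
      by_cases h5 : i = l
      · rw [if_pos (by rw [h5]), h5, Matrix.one_apply_eq, sub_self]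
      · rw [if_neg (fun h6 => h5 (Finsupp.single_left_injective one_ne_zero h6).symm),
          Matrix.one_apply_ne h5, sub_zero]
  have hcomp : ∀ q, (aeval Φ (afi p M' q) : PS (Fin N)) = aeval ζ q := by
    intro q
    have h1 : (aeval Φ).comp (afi p M') = (aeval ζ : MvPolynomial (Fin N) ℂ →ₐ[ℂ] PS (Fin N)) := by
      refine MvPolynomial.algHom_ext fun i => ?_
      rw [AlgHom.comp_apply, aeval_X]
    exact congrArg (fun F : MvPolynomial (Fin N) ℂ →ₐ[ℂ] PS (Fin N) => F q) h1
  refine krull_KV g v p fun K => ?_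
  obtain ⟨w, ⟨B, hB, hB0, hw⟩, hvw⟩ := h K
  have hex : ∃ b : Fin N → Fin N → MvPolynomial (Fin N) ℂ, (∀ i j, b i j = - b j i) ∧
      (∀ i, b i i = 0) ∧ ∀ i j, B i j - aeval Φ (afi p M' (b i j)) ∈ OKI (Fin N) K := by
    choose b0 hb0 using fun i j => surj_OKI ζ hζ (B i j) K
    refine ⟨fun i j => C (1 / 2 : ℂ) * (b0 i j - b0 j i), fun i j => by ring, fun i => by ring,
      fun i j => ?_⟩
    rw [hcomp]
    have h1 : B i j - aeval ζ (C (1 / 2 : ℂ) * (b0 i j - b0 j i)) = MvPowerSeries.C (1 / 2 : ℂ) *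
        ((B i j - aeval ζ (b0 i j)) - (B j i - aeval ζ (b0 j i))) := by
      have h2 : (aeval ζ (C (1 / 2 : ℂ) : MvPolynomial (Fin N) ℂ) : PS (Fin N)) =
          MvPowerSeries.C (1 / 2 : ℂ) := by
        rw [aeval_C]
        rfl
      have h3 : MvPowerSeries.C (1 / 2 : ℂ) * (2 : PS (Fin N)) = 1 := by
        have h4 : (2 : PS (Fin N)) = MvPowerSeries.C (2 : ℂ) := by
          rw [map_ofNat]
        rw [h4, ← map_mul, div_mul_cancel₀ _ (two_ne_zero), map_one]
      rw [map_mul, h2, map_sub, hB j i]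
      linear_combination (-B i j) * h3
    rw [h1]
    exact Ideal.mul_mem_left _ _ (Ideal.sub_mem _ (hb0 i j) (hb0 j i))
  obtain ⟨b, hb1, hb2, hbB⟩ := hex
  clear_value ζ
  refine ⟨fun i => ∑ j, afi p M' (b i j) * g j, ⟨fun i j => afi p M' (b i j), fun i j => ?_,
    fun i => ?_, fun i => rfl⟩, fun i => ?_⟩
  · change afi p M' (b i j) = - afi p M' (b j i)
    rw [hb1 i j, map_neg]
  · change afi p M' (b i i) = 0
    rw [hb2, map_zero]
  · set u := v i - ∑ j, afi p M' (b i j) * g j with hu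
    have h1 : (aeval Φ u : PS (Fin N)) ∈ OKI (Fin N) K := by
      have h2 : (aeval Φ u : PS (Fin N)) = (aeval Φ (v i) - w i) +
          ∑ j, (B i j - aeval Φ (afi p M' (b i j))) * aeval Φ (g j) := by
        rw [hu, map_sub, map_sum, hw i]
        have h3 : ∀ j, (B i j - aeval Φ (afi p M' (b i j))) * aeval Φ (g j) =
            B i j * aeval Φ (g j) - aeval Φ (afi p M' (b i j) * g j) := by
          intro j
          rw [map_mul]
          ring
        rw [Finset.sum_congr rfl fun j _ => h3 j, Finset.sum_sub_distrib]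
        ring
      rw [h2]
      exact Ideal.add_mem _ (hvw i) (Ideal.sum_mem _ fun j _ => Ideal.mul_mem_right _ _ (hbB i j))
    have h2 : afi p M' (aff p M u) = u := afi_aff p M' M hMM u
    rw [← h2, hcomp] at h1
    have h3 := inj_OKI ζ hζ (aff p M u) K h1
    have h4 : aff p M u ∈ idealOfVars (Fin N) ℂ ^ K := (mem_pow_idealOfVars_iff' K _).2 h3
    rw [← h2]
    have h5 := Ideal.mem_map_of_mem (afi p M') h4
    rw [Ideal.map_pow] at h5
    refine Ideal.pow_right_mono ?_ K h5
    rw [Ideal.map_le_iff_le_comap, idealOfVars, Ideal.span_le]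
    rintro _ ⟨i, rfl⟩
    change eval p (afi p M' (X i)) = 0
    rw [afi, aeval_X, map_sum]
    refine Finset.sum_eq_zero fun j _ => ?_
    rw [map_mul, map_sub, eval_X, eval_C, eval_C, sub_self, mul_zero]

end Chart

end Pool.Agent.Helper48.TC
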