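import Pool.Agent.Helper48.TC.Rn

set_option autoImplicit false
set_option linter.unusedSectionVars false

/-! # The divisor over a singular point of the tangent cone -/

namespace Pool.Agent.Helper48.TC

open Finset MvPolynomial Pool.Agent.H628R4.TP Pool.Agent.K3h38.SM Pool.Agent.Helper48.SN
  Pool.Agent.Helper48.SW

variable {n : ℕ} (ξ : Fin (n + 1) → PS (Fin n))

theorem jac_chZ : (jacS (chZ ξ)).det =
    (MvPowerSeries.X (Fin.last n) : PS (Fin (n + 1))) ^ n * rn (smat ξ).det := by
  have h1 : jacS (chZ ξ) = Matrix.of fun j i => (Fin.lastCases (motive := fun _ =>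
      PS (Fin (n + 1))) 1 (fun _ => MvPowerSeries.X (Fin.last n)) i) *
        ((rn (n := n)).toRingHom.mapMatrix (smat ξ)) j i := by
    ext1 j i
    rw [Matrix.of_apply]
    refine Fin.lastCases ?_ (fun i => ?_) i
    · rw [Fin.lastCases_last, one_mul]
      change pp (Fin.last n) (MvPowerSeries.X (Fin.last n) * rn (ξ j)) = rn _
      rw [pp_mul, pp_rn_last, mul_zero, zero_add, pp_apply, MvPowerSeries.pderiv_X_self, mul_one]
      congr 1
      simp only [smat, Matrix.of_apply, Fin.lastCases_last]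
    · rw [Fin.lastCases_castSucc]
      change pp i.castSucc (MvPowerSeries.X (Fin.last n) * rn (ξ j)) = _ * rn _
      rw [pp_mul, pp_rn, pp_rn_X, mul_zero, add_zero]
      congr 2
      simp only [smat, Matrix.of_apply, Fin.lastCases_castSucc]
  rw [h1, Matrix.det_mul_row, Fin.prod_univ_castSucc, Fin.lastCases_last, mul_one,
    Finset.prod_congr rfl fun i _ => Fin.lastCases_castSucc i, Finset.prod_const, Finset.card_univ,
    Fintype.card_fin, ← RingHom.map_det]
  rfl

theorem aeval_chZ_hom (p : MvPolynomial (Fin (n + 1)) ℂ) (l : ℕ) (hp : p.IsHomogeneous l) :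
    aeval (chZ ξ) p = (MvPowerSeries.X (Fin.last n) : PS (Fin (n + 1))) ^ l * rn (aeval ξ p) := by
  rw [p.as_sum, map_sum, map_sum, map_sum, Finset.mul_sum]
  refine Finset.sum_congr rfl fun m hm => ?_
  have h1 : ∑ i, m i = l := by
    have h2 := hp (mem_support_iff.1 hm)
    rw [← h2, Finsupp.weight_apply, Finsupp.sum_fintype _ _ (by simp)]
    simp
  rw [aeval_monomial, aeval_monomial, Finsupp.prod_fintype _ _ (by simp),
    Finsupp.prod_fintype _ _ (by simp), map_mul, map_prod, AlgHom.commutes]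
  simp only [chZ, mul_pow, map_pow]
  rw [Finset.prod_mul_distrib, Finset.prod_pow_eq_pow_sum, h1]
  ring

theorem coeff_aeval_chZ (f : MvPolynomial (Fin (n + 1)) ℂ) (m : Fin (n + 1) →₀ ℕ) :
    MvPowerSeries.coeff m (aeval (chZ ξ) f : PS (Fin (n + 1))) =
      MvPowerSeries.coeff (ey m) (aeval ξ (homogeneousComponent (m (Fin.last n)) f) : PS (Fin n)) := by
  have h1 : aeval (chZ ξ) f = ∑ l ∈ Finset.range (f.totalDegree + 1),
      (MvPowerSeries.X (Fin.last n) : PS (Fin (n + 1))) ^ l *
        rn (aeval ξ (homogeneousComponent l f)) := by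
    conv_lhs => rw [← sum_homogeneousComponent f]
    rw [map_sum]
    exact Finset.sum_congr rfl fun l _ =>
      aeval_chZ_hom ξ _ l (homogeneousComponent_isHomogeneous l f)
  rw [h1, map_sum, Finset.sum_congr rfl fun l _ => coeff_z_rn _ l m]
  rw [Finset.sum_ite_eq]
  split_ifs with h2
  · rfl
  · rw [Finset.mem_range, not_lt] at h2
    rw [homogeneousComponent_eq_zero _ f (by omega), map_zero, map_zero]

/-- the weights of the chart -/
def vZ (a : Fin n → ℕ) (k e : ℕ) (i : Fin (n + 1)) : ℕ :=
  Fin.lastCases (motive := fun _ => ℕ) e (fun i => k * a i) i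

theorem weight_vZ (a : Fin n → ℕ) (k e : ℕ) (m : Fin (n + 1) →₀ ℕ) :
    Finsupp.weight (vZ a k e) m = k * Finsupp.weight a (ey m) + m (Fin.last n) * e := by
  rw [weight_sum, weight_sum, Fin.sum_univ_castSucc, Finset.mul_sum, vZ, Fin.lastCases_last]
  congr 1
  refine Finset.sum_congr rfl fun i _ => ?_
  rw [vZ, Fin.lastCases_castSucc, ey_apply]
  ring

theorem hom_rename_Z (a : Fin n → ℕ) (k e r : ℕ) (h : MvPolynomial (Fin n) ℂ)
    (hh : IsWeightedHomogeneous a h r) :
    IsWeightedHomogeneous (vZ a k e) (rename Fin.castSucc h) (k * r) := by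
  intro m hm
  obtain ⟨u, hu, hu2⟩ := coeff_rename_ne_zero _ _ _ hm
  rw [← hu, weight_sum, Fin.sum_univ_castSucc, Finsupp.mapDomain_of_notMem_range, zero_mul,
    add_zero, ← hh hu2, weight_sum, Finset.mul_sum]
  · refine Finset.sum_congr rfl fun i _ => ?_
    rw [Finsupp.mapDomain_apply (Fin.castSucc_injective n), vZ, Fin.lastCases_castSucc]
    ring
  · rintro ⟨j, hj⟩
    exact Fin.castSucc_ne_last j hj

/-- the system in the chart: `z` and `h(y) + c z ^ k` -/
noncomputable def FZ (h : MvPolynomial (Fin n) ℂ) (c : ℂ) (k : ℕ) (i : Fin 2) :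
    MvPolynomial (Fin (n + 1)) ℂ :=
  if i = 0 then X (Fin.last n) else rename Fin.castSucc h + C c * X (Fin.last n) ^ k

theorem pderiv_rename_Z (h : MvPolynomial (Fin n) ℂ) (i : Fin n) :
    pderiv i.castSucc (rename Fin.castSucc h) = rename Fin.castSucc (pderiv i h) := by
  rw [pderiv_rename (Fin.castSucc_injective n)]

theorem pderiv_rename_last (h : MvPolynomial (Fin n) ℂ) :
    pderiv (Fin.last n) (rename Fin.castSucc h) = 0 := by
  induction h using MvPolynomial.induction_on with
  | C a => rw [rename_C, pderiv_C]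
  | add p q hp hq => rw [map_add, map_add, hp, hq, add_zero]
  | mul_X p i hp =>
    rw [map_mul, rename_X, pderiv_mul, hp, pderiv_X_of_ne (Fin.castSucc_ne_last i), zero_mul,
      mul_zero, add_zero]

/-- the gradients in the chart are linearly independent for `y ≠ 0` -/
theorem indep_FZ (h : MvPolynomial (Fin n) ℂ) (c : ℂ) (k : ℕ) (x : Fin (n + 1) → ℂ)
    (hx : ∃ i, eval (fun i : Fin n => x i.castSucc) (pderiv i h) ≠ 0) :
    LinearIndependent ℂ fun (i : Fin 2) (j : Fin (n + 1)) => eval x (pderiv j (FZ h c k i)) := by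
  rw [Fintype.linearIndependent_iff]
  intro g hg
  obtain ⟨i0, hi0⟩ := hx
  have h1 : ∀ j, g 0 * eval x (pderiv j (FZ h c k 0)) + g 1 * eval x (pderiv j (FZ h c k 1)) = 0 := by
    intro j
    have h2 := congrFun hg j
    rw [Fin.sum_univ_two] at h2
    exact h2
  have h3 : g 1 = 0 := by
    have h4 := h1 i0.castSucc
    have e1 : pderiv i0.castSucc (FZ h c k 0) = 0 := by
      rw [FZ, if_pos rfl, pderiv_X_of_ne (Fin.castSucc_ne_last i0).symm]
    have e2 : eval x (pderiv i0.castSucc (FZ h c k 1)) =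
        eval (fun i : Fin n => x i.castSucc) (pderiv i0 h) := by
      rw [FZ, if_neg (by decide), map_add, pderiv_rename_Z, pderiv_C_mul, pderiv_pow,
        pderiv_X_of_ne (Fin.castSucc_ne_last i0).symm, mul_zero, mul_zero, add_zero, eval_rename]
      rfl
    rw [e1, e2, map_zero, mul_zero, zero_add] at h4
    exact (mul_eq_zero.1 h4).resolve_right hi0
  have h5 : g 0 = 0 := by
    have h4 := h1 (Fin.last n)
    rw [h3, zero_mul, add_zero, FZ, if_pos rfl, pderiv_X_self, map_one, mul_one] at h4
    exact h4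
  intro i
  fin_cases i
  · exact h5
  · exact h3

theorem snc_FZ (h : MvPolynomial (Fin n) ℂ) (c : ℂ) (hc : c ≠ 0) (k : ℕ)
    (hcrit : ∀ y : Fin n → ℂ, (∀ i, eval y (pderiv i h) = 0) → y = 0)
    (h0 : eval 0 h = 0) : SNC (FZ h c k) := by
  intro I x hx hI
  by_cases h1 : (fun i : Fin n => x i.castSucc) = 0
  · have h2 : x (Fin.last n) ≠ 0 := by
      intro h3
      apply hx
      funext i
      refine Fin.lastCases h3 (fun i => ?_) i
      exact congrFun h1 i
    have h3 : I = ∅ := by
      by_contra hne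
      obtain ⟨i, hi⟩ := Finset.nonempty_iff_ne_empty.2 hne
      have h4 := hI i hi
      fin_cases i
      · change eval x (FZ h c k 0) = 0 at h4
        rw [FZ, if_pos rfl, eval_X] at h4
        exact h2 h4
      · change eval x (FZ h c k 1) = 0 at h4
        rw [FZ, if_neg (by decide), map_add, eval_rename, map_mul, eval_C, map_pow, eval_X] at h4
        have h5 : x ∘ Fin.castSucc = 0 := h1
        rw [h5, h0, zero_add] at h4
        exact mul_ne_zero hc (pow_ne_zero _ h2) h4
    subst h3
    exact linearIndependent_empty_type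
  · have h2 : ∃ i, eval (fun i : Fin n => x i.castSucc) (pderiv i h) ≠ 0 := by
      by_contra hcon
      push Not at hcon
      exact h1 (hcrit _ hcon)
    exact (indep_FZ h c k x h2).comp (fun i : I => (i : Fin 2)) Subtype.val_injective

theorem dep_FZ (h : MvPolynomial (Fin n) ℂ) (c : ℂ) (k : ℕ)
    (h0 : ∀ i, eval 0 (pderiv i h) = 0) :
    ¬ LinearIndependent ℂ fun (i : Fin 2) (j : Fin (n + 1)) => eval 0 (pderiv j (FZ h c k i)) := by
  rw [Fintype.not_linearIndependent_iff]
  refine ⟨fun i => if i = 0 then -(c * (k * 0 ^ (k - 1))) else 1, ?_, 1, by simp⟩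
  rw [Fin.sum_univ_two]
  funext j
  rw [Pi.add_apply, Pi.smul_apply, Pi.smul_apply]
  beta_reduce
  rw [if_pos rfl, if_neg (by decide), one_smul,
    smul_eq_mul, Pi.zero_apply, FZ, FZ, if_pos rfl, if_neg (by decide)]
  refine Fin.lastCases ?_ (fun i => ?_) j
  · rw [pderiv_X_self, map_one, mul_one, map_add, pderiv_rename_last, zero_add, pderiv_C_mul,
      pderiv_pow, pderiv_X_self, mul_one, map_mul, eval_C, map_mul, map_natCast, map_pow, eval_X]
    simp
  · rw [pderiv_X_of_ne (Fin.castSucc_ne_last i).symm, map_zero, mul_zero, zero_add, map_add,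
      pderiv_rename_Z, pderiv_C_mul, pderiv_pow, pderiv_X_of_ne (Fin.castSucc_ne_last i).symm,
      mul_zero, mul_zero, add_zero, eval_rename]
    exact h0 i

end Pool.Agent.Helper48.TC
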