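import Pool.Agent.Helper48.SW.Facet

set_option autoImplicit false
set_option linter.unusedSectionVars false

/-! # Lowest components of power series; division by the Jacobian determinant -/

namespace Pool.Agent.Helper48.TC

open Finset MvPolynomial Pool.Agent.K3h38.SM Pool.Agent.Helper48.SN Pool.Agent.Helper48.SW

variable {σ : Type} [Fintype σ]

/-- the lowest weight of the monomials of `g` is (at least) `d`, and `φ` is the component of weight
`d` -/
def IsInit (w : σ → ℕ) (g : PS σ) (d : ℕ) (φ : MvPolynomial σ ℂ) : Prop :=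
  IsWeightedHomogeneous w φ d ∧
    ∀ α : σ →₀ ℕ, Finsupp.weight w α ≤ d → MvPowerSeries.coeff α g = coeff α φ

theorem IsInit.low {w : σ → ℕ} (hw : ∀ i, 0 < w i) {g : PS σ} {d : ℕ} {φ : MvPolynomial σ ℂ}
    (h : IsInit w g d φ) (j : ℤ) (hj : j < d) : wz w j g = 0 := by
  ext α
  rw [coeff_wz w hw, coeff_zero]
  split_ifs with h1
  · rw [h.2 α (by omega)]
    by_contra h2
    have h3 := h.1 h2
    omega
  · rfl

theorem IsInit.lead {w : σ → ℕ} (hw : ∀ i, 0 < w i) {g : PS σ} {d : ℕ} {φ : MvPolynomial σ ℂ}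
    (h : IsInit w g d φ) : wz w d g = φ := by
  ext α
  rw [coeff_wz w hw]
  split_ifs with h1
  · exact h.2 α (by omega)
  · by_contra h2
    apply h1
    exact_mod_cast h.1 (Ne.symm h2)

theorem low_mul (w : σ → ℕ) (hw : ∀ i, 0 < w i) (h g : PS σ) (a : ℕ) (b : ℤ)
    (hh : ∀ j : ℤ, j < a → wz w j h = 0) (hg : ∀ j < b, wz w j g = 0) :
    (∀ j : ℤ, j < a + b → wz w j (h * g) = 0) ∧
      wz w (a + b) (h * g) = wz w a h * wz w b g := by
  have h1 : ∀ n : ℤ, n ≤ a + b → wz w n (h * g) = wz w a h * wz w (n - a) g := by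
    intro n hn
    rw [wz_mul w hw h g n (a + 1) (fun j hj => hg j (by
      push_cast at hj
      omega)), Finset.sum_range_succ, Finset.sum_eq_zero (fun i hi => ?_), zero_add, wz_nat]
    rw [Finset.mem_range] at hi
    rw [← wz_nat, hh i (by exact_mod_cast hi), zero_mul]
  refine ⟨fun j hj => ?_, ?_⟩
  · rw [h1 j hj.le, hg _ (by omega), mul_zero]
  · rw [h1 _ le_rfl, add_sub_cancel_left]

theorem low_pow (w : σ → ℕ) (hw : ∀ i, 0 < w i) (h : PS σ) (a : ℕ)
    (hh : ∀ j : ℤ, j < a → wz w j h = 0) (k : ℕ) :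
    (∀ j : ℤ, j < a * k → wz w j (h ^ k) = 0) ∧ wz w (a * k) (h ^ k) = (wz w a h) ^ k := by
  induction k with
  | zero =>
    refine ⟨fun j hj => wz_neg w j (by simpa using hj) _, ?_⟩
    rw [pow_zero, pow_zero, Nat.cast_zero, mul_zero]
    have h5 : wcp w 0 (1 : PS σ) = 1 := by
      rw [← MvPolynomial.coe_one, wcp_coe_hom w hw 0 1 (isWeightedHomogeneous_one ℂ w), if_pos rfl]
    have := wz_nat w 0 (1 : PS σ)
    rw [Nat.cast_zero] at this
    rw [this, h5]
  | succ k ih =>
    have h1 := low_mul w hw h (h ^ k) a (a * k) hh ih.1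
    have h2 : (a : ℤ) * ((k + 1 : ℕ) : ℤ) = a + a * k := by
      push_cast
      ring
    rw [pow_succ', h2, h1.2, ih.2, pow_succ']
    exact ⟨h1.1, rfl⟩

/-- **The expansion of the powers.** -/
theorem expandS (w : σ → ℕ) (hw : ∀ i, 0 < w i) (f : PS σ) (d : ℕ)
    (φ : MvPolynomial σ ℂ) (h : IsInit w f d φ) (δ : ℤ) (n : ℕ) :
    wz w (d * n + δ) (f ^ n) =
      ∑ k ∈ Finset.range (δ.toNat + 1), C (n.choose k : ℂ) * φ ^ (n - k) *
        wz w (δ + d * k) ((f - (φ : PS σ)) ^ k) := by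
  have hlow : ∀ j : ℤ, j < ((d + 1 : ℕ) : ℤ) → wz w j (f - (φ : PS σ)) = 0 := by
    intro j hj
    ext α
    rw [coeff_wz w hw, coeff_zero]
    split_ifs with h1
    · rw [map_sub, MvPolynomial.coeff_coe, h.2 α (by omega), sub_self]
    · rfl
  have h1 : f ^ n = ∑ k ∈ Finset.range (n + 1),
      (n.choose k : ℂ) • ((φ : PS σ) ^ (n - k) * (f - (φ : PS σ)) ^ k) := by
    have h2 : f = (f - (φ : PS σ)) + (φ : PS σ) := by ring
    conv_lhs => rw [h2]
    rw [add_pow]
    refine Finset.sum_congr rfl fun k _ => ?_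
    rw [Nat.cast_smul_eq_nsmul, nsmul_eq_mul]
    ring
  have h2 : wz w (d * n + δ) (f ^ n) = ∑ k ∈ Finset.range (n + 1),
      C (n.choose k : ℂ) * φ ^ (n - k) * wz w (δ + d * k) ((f - (φ : PS σ)) ^ k) := by
    rw [h1, wz_sum]
    refine Finset.sum_congr rfl fun k hk => ?_
    rw [Finset.mem_range] at hk
    have h3 : IsWeightedHomogeneous w (φ ^ (n - k)) (d * (n - k)) := by
      have := h.1.pow (n - k)
      rwa [smul_eq_mul, mul_comm] at this
    rw [wz_smul, ← MvPolynomial.coe_pow, wz_hom_mul w hw _ _ h3, ← C_mul', mul_assoc]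
    congr 3
    rw [Nat.cast_mul, Nat.cast_sub (by omega)]
    ring
  rw [h2]
  have h3 : ∀ k, k ∉ Finset.range (n + 1) → C (n.choose k : ℂ) * φ ^ (n - k) *
      wz w (δ + d * k) ((f - (φ : PS σ)) ^ k) = 0 := by
    intro k hk
    rw [Finset.mem_range] at hk
    rw [Nat.choose_eq_zero_of_lt (by omega), Nat.cast_zero, map_zero, zero_mul, zero_mul]
  have h4 : ∀ k, k ∉ Finset.range (δ.toNat + 1) → C (n.choose k : ℂ) * φ ^ (n - k) *
      wz w (δ + d * k) ((f - (φ : PS σ)) ^ k) = 0 := by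
    intro k hk
    rw [Finset.mem_range] at hk
    rw [(low_pow w hw _ (d + 1) hlow k).1 _ (by
      have := Int.self_le_toNat δ
      have h5 : ((d + 1 : ℕ) : ℤ) * (k : ℤ) = d * k + k := by
        push_cast
        ring
      rw [h5]
      omega), mul_zero]
  rw [Finset.sum_subset (Finset.range_subset_range.2 (le_max_left (n + 1)
      (δ.toNat + 1))) (fun k _ hk => h3 k hk),
    Finset.sum_subset (Finset.range_subset_range.2 (le_max_right (n + 1)
      (δ.toNat + 1))) (fun k _ hk => h4 k hk)]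

theorem tame_powS (w : σ → ℕ) (hw : ∀ i, 0 < w i) (f : PS σ) (d : ℕ)
    (φ : MvPolynomial σ ℂ) (h : IsInit w f d φ) : TameW w φ d fun s => f ^ (s + 1) := by
  refine ⟨⟨d, fun s j hj => (low_pow w hw f d (h.low hw) (s + 1)).1 j (by
    push_cast
    rw [mul_add, mul_one]
    exact hj)⟩, fun δ => ?_⟩
  have h1 : ∀ s : ℕ, wz w (d * s + δ) (f ^ (s + 1)) =
      ∑ k ∈ Finset.range ((δ - d).toNat + 1), C ((s + 1).choose k : ℂ) *
        φ ^ (s + 1 - k) * wz w (δ - d + d * k) ((f - (φ : PS σ)) ^ k) := by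
    intro s
    rw [← expandS w hw f d φ h (δ - d) (s + 1)]
    congr 1
    push_cast
    ring
  simp only [h1]
  refine Rat.sum _ _ fun k _ => ?_
  obtain ⟨c, hc, hcs⟩ := isPS_choose (σ := σ) k
  refine ⟨k, fun s => φ * c s * wz w (δ - d + d * k) ((f - (φ : PS σ)) ^ k),
    ((IsPS.const _).mul hc).mul (IsPS.const _), fun s => ?_⟩
  beta_reduce
  rcases Nat.lt_or_ge (s + 1) k with h2 | h2
  · rw [hcs, Nat.choose_eq_zero_of_lt h2, Nat.cast_zero, map_zero]
    ring
  · rw [hcs]
    have h3 : φ ^ k * φ ^ (s + 1 - k) = φ ^ s * φ := by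
      rw [← pow_add, ← pow_succ]
      congr 1
      omega
    linear_combination (C (((s + 1).choose k : ℕ) : ℂ) *
      wz w (δ - d + d * k) ((f - (φ : PS σ)) ^ k)) * h3

theorem Rat.div {φ : MvPolynomial σ ℂ} {g : ℕ → MvPolynomial σ ℂ} (J0 J1 : MvPolynomial σ ℂ)
    (E : ℕ) (hJ : J0 * J1 = φ ^ E) (hg : Rat φ fun s => J0 * g s) : Rat φ g := by
  obtain ⟨R, V, hV, h1⟩ := hg
  refine ⟨R + E, fun s => J1 * V s, (IsPS.const _).mul hV, fun s => ?_⟩
  beta_reduce
  rw [pow_add, ← hJ]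
  linear_combination J1 * h1 s

/-- division by a power series whose initial form divides a power of `φ` -/
theorem TameW.divJ {w : σ → ℕ} (hw : ∀ i, 0 < w i) {φ : MvPolynomial σ ℂ} {d : ℕ} (J : PS σ)
    (m0 : ℕ) (J0 J1 : MvPolynomial σ ℂ) (E : ℕ) (hJ : IsInit w J m0 J0) (hJ0 : J0 ≠ 0)
    (hJ1 : J0 * J1 = φ ^ E) {g : ℕ → PS σ} (h : TameW w φ d fun s => J * g s) :
    TameW w φ d g := by
  obtain ⟨⟨K, hK⟩, h1⟩ := h
  have hv : ∀ (s n : ℕ), (n : ℤ) < d * s + K - m0 → wz w n (g s) = 0 := by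
    intro s n
    induction n using Nat.strong_induction_on with
    | _ n ih =>
      intro hn
      have h2 := (low_mul w hw J (g s) m0 n (hJ.low hw) (fun j hj => by
        rcases lt_or_ge j 0 with h3 | h3
        · exact wz_neg w j h3 _
        · obtain ⟨j', rfl⟩ := Int.eq_ofNat_of_zero_le h3
          exact ih j' (by omega) (by omega))).2
      rw [hJ.lead hw, hK s _ (by omega)] at h2
      exact (mul_eq_zero.1 h2.symm).resolve_left hJ0
  have hv' : ∀ (s : ℕ) (j : ℤ), j < d * s + (K - m0) → wz w j (g s) = 0 := by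
    intro s j hj
    rcases lt_or_ge j 0 with h3 | h3
    · exact wz_neg w j h3 _
    · obtain ⟨j', rfl⟩ := Int.eq_ofNat_of_zero_le h3
      exact hv s j' (by omega)
  refine ⟨⟨K - m0, hv'⟩, ?_⟩
  have hR : ∀ (t : ℕ) (δ : ℤ), δ < K - m0 + t → Rat φ fun s => wz w (d * s + δ) (g s) := by
    intro t
    induction t with
    | zero =>
      intro δ hδ
      have h2 : (fun s : ℕ => wz w (d * s + δ) (g s)) = fun _ => 0 := by
        funext s
        exact hv' s _ (by push_cast at hδ; omega)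
      rw [h2]
      exact Rat.zero φ
    | succ t ih =>
      intro δ hδ
      refine Rat.div J0 J1 E hJ1 ?_
      have h2 : ∀ s : ℕ, J0 * wz w (d * s + δ) (g s) = wz w (d * s + (δ + m0)) (J * g s) +
          ∑ i ∈ Finset.range t, (-wcp w (m0 + 1 + i) J) * wz w (d * s + (δ - 1 - i)) (g s) := by
        intro s
        have h3 := wz_mul w hw J (g s) (d * s + (δ + m0)) (m0 + 1 + t) (fun j hj => hv' s j (by
          push_cast at hj hδ
          omega))
        rw [Finset.sum_range_add, Finset.sum_range_succ, Finset.sum_eq_zero (fun i hi => ?_),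
          zero_add] at h3
        · rw [h3]
          have h4 : wcp w m0 J = J0 := by rw [← wz_nat, hJ.lead hw]
          have h5 : (d : ℤ) * s + (δ + m0) - m0 = d * s + δ := by ring
          rw [h4, h5, add_assoc, ← Finset.sum_add_distrib, Finset.sum_eq_zero (fun i _ => ?_),
            add_zero]
          have h6 : (d : ℤ) * s + (δ + m0) - ((m0 + 1 + i : ℕ) : ℤ) = d * s + (δ - 1 - i) := by
            push_cast
            ring
          rw [h6]
          ring
        · rw [Finset.mem_range] at hi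
          rw [← wz_nat, hJ.low hw i (by exact_mod_cast hi), zero_mul]
      have h3 : Rat φ fun s : ℕ => ∑ i ∈ Finset.range t, (-wcp w (m0 + 1 + i) J) *
          wz w (d * s + (δ - 1 - i)) (g s) := by
        refine Rat.sum (Finset.range t) (fun i s => (-wcp w (m0 + 1 + i) J) *
          wz w (d * s + (δ - 1 - i)) (g s)) fun i _ => ?_
        exact (ih (δ - 1 - i) (by push_cast at hδ; omega)).mulPS
          (fun _ => -wcp w (m0 + 1 + i) J) (IsPS.const _)
      have h4 := (h1 (δ + m0)).add h3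
      rw [show (fun s : ℕ => J0 * wz w (d * s + δ) (g s)) = fun s : ℕ =>
        wz w (d * s + (δ + m0)) (J * g s) + ∑ i ∈ Finset.range t, (-wcp w (m0 + 1 + i) J) *
          wz w (d * s + (δ - 1 - i)) (g s) from funext h2]
      exact h4
  intro δ
  exact hR (δ - (K - m0) + 1).toNat δ (by
    have := Int.self_le_toNat (δ - (K - m0) + 1)
    omega)

end Pool.Agent.Helper48.TC
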