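import Pool.Agent.Helper48.TC.Ord

set_option autoImplicit false
set_option linter.unusedSectionVars false

/-! # Functional equations in a formal chart -/

namespace Pool.Agent.Helper48.TC

open Finset MvPolynomial Pool.Agent.H628R4.TP Pool.Agent.K3h38.SM Pool.Agent.Helper48.SN
  Pool.Agent.Helper48.SW

variable {N : ℕ} (ξ : Fin N → PS (Fin N))

/-- the Jacobian matrix of the chart `x = ξ(y)` -/
noncomputable def jacS : Matrix (Fin N) (Fin N) (PS (Fin N)) :=
  Matrix.of fun j i => pp i (ξ j)

theorem pp_comm (i j : Fin N) (g : PS (Fin N)) : pp i (pp j g) = pp j (pp i g) := by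
  ext m
  rw [pp_apply, pp_apply, pp_apply, pp_apply, MvPowerSeries.coeff_pderiv,
    MvPowerSeries.coeff_pderiv, MvPowerSeries.coeff_pderiv, MvPowerSeries.coeff_pderiv,
    add_right_comm m (Finsupp.single i 1)]
  by_cases h : i = j
  · subst h
    ring
  · have h1 : (m + Finsupp.single i 1 : Fin N →₀ ℕ) j = m j := by
      rw [Finsupp.add_apply, Finsupp.single_eq_of_ne (Ne.symm h), add_zero]
    have h2 : (m + Finsupp.single j 1 : Fin N →₀ ℕ) i = m i := by
      rw [Finsupp.add_apply, Finsupp.single_eq_of_ne h, add_zero]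
    rw [h1, h2]
    ring

theorem pp_aeval (i : Fin N) (p : MvPolynomial (Fin N) ℂ) :
    pp i (aeval ξ p) = ∑ j, aeval ξ (pderiv j p) * pp i (ξ j) := by
  induction p using MvPolynomial.induction_on with
  | C a =>
    have h1 : aeval ξ (C a : MvPolynomial (Fin N) ℂ) = algebraMap ℂ (PS (Fin N)) a := aeval_C _ _
    rw [h1]
    have h2 : pp i (algebraMap ℂ (PS (Fin N)) a) = 0 :=
      (MvPowerSeries.pderiv ℂ i).map_algebraMap a
    rw [h2]
    symm
    refine Finset.sum_eq_zero fun j _ => ?_
    rw [pderiv_C, map_zero, zero_mul]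
  | add p q hp hq =>
    rw [map_add, map_add, hp, hq, ← Finset.sum_add_distrib]
    refine Finset.sum_congr rfl fun j _ => ?_
    rw [map_add, map_add, add_mul]
  | mul_X p n hp =>
    rw [map_mul, pp_mul, hp, aeval_X]
    have h1 : ∀ j, aeval ξ (pderiv j (p * X n)) * pp i (ξ j) =
        ξ n * (aeval ξ (pderiv j p) * pp i (ξ j)) +
          if n = j then aeval ξ p * pp i (ξ j) else 0 := by
      intro j
      rw [pderiv_mul, pderiv_X, map_add, map_mul, map_mul, aeval_X]
      split_ifs with hj
      · rw [hj, Pi.single_eq_same, map_one]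
        ring
      · rw [Pi.single_eq_of_ne hj, map_zero]
        ring
    rw [Finset.sum_congr rfl fun j _ => h1 j, Finset.sum_add_distrib, ← Finset.mul_sum,
      Finset.sum_ite_eq, if_pos (Finset.mem_univ n), add_comm]

theorem adjS_col (l j : Fin N) : ∑ i, (jacS ξ).adjugate i j * pp i (ξ l) =
    if l = j then (jacS ξ).det else 0 := by
  have h3 := congrFun (congrFun (Matrix.mul_adjugate (jacS ξ)) l) j
  rw [Matrix.mul_apply, Matrix.smul_apply, Matrix.one_apply, smul_eq_mul] at h3
  have h4 : ∑ i, (jacS ξ).adjugate i j * pp i (ξ l) =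
      ∑ i, jacS ξ l i * (jacS ξ).adjugate i j := by
    refine Finset.sum_congr rfl fun i _ => ?_
    rw [mul_comm]
    rfl
  rw [h4, h3]
  split_ifs
  · rw [mul_one]
  · rw [mul_zero]

/-- Piola's identity -/
theorem piolaS (hJ : (jacS ξ).det ≠ 0) (j : Fin N) :
    ∑ i, pp i ((jacS ξ).adjugate i j) = 0 := by
  classical
  set M := jacS ξ with hM
  set T : Fin N → PS (Fin N) := fun j => ∑ i, pp i (M.adjugate i j) with hT
  have h1 : ∀ p, ∑ j, T j * M j p = 0 := by
    intro p
    have h2 : ∀ i, ∑ j, M.adjugate i j * M j p = if i = p then M.det else 0 := by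
      intro i
      have h3 := congrFun (congrFun (Matrix.adjugate_mul M) i) p
      rw [Matrix.mul_apply, Matrix.smul_apply, Matrix.one_apply, smul_eq_mul] at h3
      rw [h3]
      split_ifs
      · rw [mul_one]
      · rw [mul_zero]
    have h3 : ∑ i, pp i (∑ j, M.adjugate i j * M j p) = pp p M.det := by
      rw [Finset.sum_congr rfl fun i _ => by rw [h2 i]]
      rw [Finset.sum_eq_single p]
      · rw [if_pos rfl]
      · intro i _ hi
        rw [if_neg hi, map_zero]
      · intro h4
        exact absurd (Finset.mem_univ p) h4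
    have h4 : ∑ i, pp i (∑ j, M.adjugate i j * M j p) =
        ∑ j, T j * M j p + ∑ i, ∑ j, M.adjugate i j * pp p (M j i) := by
      have h5 : ∀ i, pp i (∑ j, M.adjugate i j * M j p) =
          ∑ j, pp i (M.adjugate i j) * M j p + ∑ j, M.adjugate i j * pp p (M j i) := by
        intro i
        rw [map_sum, ← Finset.sum_add_distrib]
        refine Finset.sum_congr rfl fun j _ => ?_
        have h6 : pp i (M j p) = pp p (M j i) := pp_comm i p (ξ j)
        rw [pp_mul, h6]
        ring
      rw [Finset.sum_congr rfl fun i _ => h5 i, Finset.sum_add_distrib]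
      congr 1
      rw [Finset.sum_comm]
      refine Finset.sum_congr rfl fun j _ => ?_
      rw [hT, Finset.sum_mul]
    have h7 : pp p M.det = ∑ i, ∑ j, M.adjugate i j * pp p (M j i) :=
      deriv_det (MvPowerSeries.pderiv ℂ p) M
    rw [h3, h7] at h4
    exact (right_eq_add.1 h4)
  have h2 : ∀ l, M.det * T l = 0 := by
    intro l
    have h3 : ∑ p, (∑ j, T j * M j p) * M.adjugate p l = M.det * T l := by
      simp only [Finset.sum_mul]
      rw [Finset.sum_comm]
      have h4 : ∀ j, ∑ p, T j * M j p * M.adjugate p l = T j * (M * M.adjugate) j l := by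
        intro j
        rw [Matrix.mul_apply, Finset.mul_sum]
        exact Finset.sum_congr rfl fun p _ => by ring
      rw [Finset.sum_congr rfl fun j _ => h4 j, Matrix.mul_adjugate]
      rw [Finset.sum_eq_single l]
      · rw [Matrix.smul_apply, Matrix.one_apply_eq, smul_eq_mul, mul_one, mul_comm]
      · intro j _ hj
        rw [Matrix.smul_apply, Matrix.one_apply_ne hj, smul_zero, mul_zero]
      · intro h5
        exact absurd (Finset.mem_univ l) h5
    rw [← h3]
    exact Finset.sum_eq_zero fun p _ => by rw [h1, zero_mul]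
  exact (mul_eq_zero.1 (h2 j)).resolve_left hJ

/-- the derivatives in the chart -/
theorem pull_pd (l : Fin N) (g : MvPolynomial (Fin N) ℂ) :
    (jacS ξ).det * aeval ξ (pderiv l g) = ∑ i, (jacS ξ).adjugate i l * pp i (aeval ξ g) := by
  have h1 : ∀ i, (jacS ξ).adjugate i l * pp i (aeval ξ g) =
      ∑ j, aeval ξ (pderiv j g) * ((jacS ξ).adjugate i l * pp i (ξ j)) := by
    intro i
    rw [pp_aeval, Finset.mul_sum]
    exact Finset.sum_congr rfl fun j _ => by ring
  rw [Finset.sum_congr rfl fun i _ => h1 i, Finset.sum_comm]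
  have h2 : ∀ j, ∑ i, aeval ξ (pderiv j g) * ((jacS ξ).adjugate i l * pp i (ξ j)) =
      if j = l then aeval ξ (pderiv j g) * (jacS ξ).det else 0 := by
    intro j
    rw [← Finset.mul_sum, adjS_col]
    split_ifs
    · rfl
    · rw [mul_zero]
  rw [Finset.sum_congr rfl fun j _ => h2 j, Finset.sum_ite_eq', if_pos (Finset.mem_univ l)]
  ring

theorem pull_pd_div (hJ : (jacS ξ).det ≠ 0) (l : Fin N) (g : MvPolynomial (Fin N) ℂ) :
    (jacS ξ).det * aeval ξ (pderiv l g) = ∑ i, pp i ((jacS ξ).adjugate i l * aeval ξ g) := by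
  have h1 : ∀ i, pp i ((jacS ξ).adjugate i l * aeval ξ g) =
      (jacS ξ).adjugate i l * pp i (aeval ξ g) + aeval ξ g * pp i ((jacS ξ).adjugate i l) :=
    fun i => pp_mul i _ _
  rw [Finset.sum_congr rfl fun i _ => h1 i, Finset.sum_add_distrib, ← Finset.mul_sum,
    piolaS ξ hJ, mul_zero, add_zero, pull_pd]

/-- the sections `P(s) f ^ (s + 1)` in the chart -/
theorem tame_pull (v : Fin N → ℕ) (hv : ∀ i, 0 < v i) {ψ : MvPolynomial (Fin N) ℂ} {d m0 : ℕ}
    (J0 J1 : MvPolynomial (Fin N) ℂ) (E : ℕ) (hJ : IsInit v (jacS ξ).det m0 J0) (hJ0 : J0 ≠ 0)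
    (hJ1 : J0 * J1 = ψ ^ E) {Q : Module.End ℂ (MvPolynomial (Fin N) ℂ)} (hQ : Q ∈ weylS (Fin N)) :
    ∀ g : ℕ → MvPolynomial (Fin N) ℂ, TameW v ψ d (fun s => aeval ξ (g s)) →
      TameW v ψ d fun s => aeval ξ (Q (g s)) := by
  rw [weylS] at hQ
  induction hQ using Algebra.adjoin_induction with
  | mem Q hQ =>
    intro g hg
    rcases hQ with ⟨i, rfl⟩ | ⟨l, rfl⟩
    · have h1 : (fun s => aeval ξ (LinearMap.mulLeft ℂ (X i : MvPolynomial (Fin N) ℂ) (g s))) =
          fun s => ml (ξ i) (aeval ξ (g s)) := by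
        funext s
        rw [LinearMap.mulLeft_apply, map_mul, aeval_X, ml_apply]
      rw [h1]
      exact hg.ml hv (ξ i)
    · refine TameW.divJ hv (jacS ξ).det m0 J0 J1 E hJ hJ0 hJ1 ?_
      have h1 : (fun s => (jacS ξ).det * aeval ξ (pd l (g s))) =
          fun s => ∑ i, ml ((jacS ξ).adjugate i l) (pp i (aeval ξ (g s))) := by
        funext s
        exact pull_pd ξ l (g s)
      change TameW v ψ d fun s => (jacS ξ).det * aeval ξ (pd l (g s))
      rw [h1]
      have h2 : ∀ S : Finset (Fin N), TameW v ψ d fun s => ∑ i ∈ S,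
          ml ((jacS ξ).adjugate i l) (pp i (aeval ξ (g s))) := by
        intro S
        induction S using Finset.induction_on with
        | empty =>
          simp only [Finset.sum_empty]
          exact TameW.zero v ψ d
        | insert a S ha ih =>
          simp only [Finset.sum_insert ha]
          exact ((hg.pp hv a).ml hv _).add ih
      exact h2 Finset.univ
  | algebraMap a =>
    intro g hg
    have h1 : (fun s => aeval ξ ((algebraMap ℂ (Module.End ℂ (MvPolynomial (Fin N) ℂ)) a) (g s))) =
        fun s => a • aeval ξ (g s) := by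
      funext s
      rw [Module.algebraMap_end_apply, map_smul]
    rw [h1]
    exact hg.smul a
  | add Q Q' _ _ ih ih' =>
    intro g hg
    have h1 : (fun s => aeval ξ ((Q + Q') (g s))) =
        fun s => aeval ξ (Q (g s)) + aeval ξ (Q' (g s)) := by
      funext s
      rw [LinearMap.add_apply, map_add]
    rw [h1]
    exact (ih g hg).add (ih' g hg)
  | mul Q Q' _ _ ih ih' =>
    intro g hg
    exact ih _ (ih' g hg)

end Pool.Agent.Helper48.TC
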