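import Pool.Agent.Helper48.TC.ChartRoot

set_option autoImplicit false
set_option linter.unusedSectionVars false

/-! # The chart `x = z ξ(y)` -/

namespace Pool.Agent.Helper48.TC

open Finset MvPolynomial Pool.Agent.H628R4.TP Pool.Agent.K3h38.SM Pool.Agent.Helper48.SN
  Pool.Agent.Helper48.SW

/-- the chain rule -/
theorem pp_aeval' {σ τ : Type} [Fintype σ] (ξ : σ → PS τ) (i : τ) (p : MvPolynomial σ ℂ) :
    pp i (aeval ξ p) = ∑ j, aeval ξ (pderiv j p) * pp i (ξ j) := by
  classical
  induction p using MvPolynomial.induction_on with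
  | C a =>
    have h1 : aeval ξ (C a : MvPolynomial σ ℂ) = algebraMap ℂ (PS τ) a := aeval_C _ _
    rw [h1]
    have h2 : pp i (algebraMap ℂ (PS τ) a) = 0 :=
      (MvPowerSeries.pderiv ℂ i).map_algebraMap a
    rw [h2]
    symm
    refine Finset.sum_eq_zero fun j _ => ?_
    rw [pderiv_C, map_zero, zero_mul]
  | add p q hp hq =>
    rw [map_add, map_add, hp, hq, ← Finset.sum_add_distrib]
    refine Finset.sum_congr rfl fun j _ => ?_
    rw [map_add, map_add, add_mul]
  | mul_X p n hp =>
    rw [map_mul, pp_mul, hp, aeval_X]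
    have h1 : ∀ j, aeval ξ (pderiv j (p * X n)) * pp i (ξ j) =
        ξ n * (aeval ξ (pderiv j p) * pp i (ξ j)) +
          if n = j then aeval ξ p * pp i (ξ j) else 0 := by
      intro j
      rw [pderiv_mul, pderiv_X, map_add, map_mul, map_mul, aeval_X]
      split_ifs with hj
      · rw [hj, Pi.single_eq_same, map_one]
        ring
      · rw [Pi.single_eq_of_ne hj, map_zero]
        ring
    rw [Finset.sum_congr rfl fun j _ => h1 j, Finset.sum_add_distrib, ← Finset.mul_sum,
      Finset.sum_ite_eq, if_pos (Finset.mem_univ n), add_comm]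

theorem const_aeval {σ τ : Type} (ξ : σ → PS τ) (q : MvPolynomial σ ℂ) :
    MvPowerSeries.constantCoeff (aeval ξ q : PS τ) =
      eval (fun j => MvPowerSeries.constantCoeff (ξ j)) q := by
  induction q using MvPolynomial.induction_on with
  | C a =>
    have h6 : aeval ξ (C a : MvPolynomial σ ℂ) = algebraMap ℂ (PS τ) a := aeval_C _ _
    rw [h6, eval_C, MvPowerSeries.algebraMap_apply, MvPowerSeries.constantCoeff_C]
    rfl
  | add p q hp hq => rw [map_add, map_add, map_add, hp, hq]
  | mul_X p n hp => rw [map_mul, map_mul, map_mul, hp, aeval_X, eval_X]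

variable {n : ℕ}

/-- a power series in `y`, as a power series in `y` and `z` -/
noncomputable def rn : PS (Fin n) →ₐ[ℂ] PS (Fin (n + 1)) :=
  MvPowerSeries.rename (Fin.castSuccEmb (n := n))

/-- the exponent of `y` -/
noncomputable def ey (m : Fin (n + 1) →₀ ℕ) : Fin n →₀ ℕ :=
  Finsupp.equivFunOnFinite.symm fun i => m i.castSucc

theorem ey_apply (m : Fin (n + 1) →₀ ℕ) (i : Fin n) : ey m i = m i.castSucc := rfl

theorem split_exp (m : Fin (n + 1) →₀ ℕ) :
    m = (ey m).embDomain (Fin.castSuccEmb (n := n)) +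
      Finsupp.single (Fin.last n) (m (Fin.last n)) := by
  ext i
  refine Fin.lastCases ?_ (fun i => ?_) i
  · rw [Finsupp.add_apply, Finsupp.single_eq_same, Finsupp.embDomain_of_notMem_range, zero_add]
    rintro ⟨j, hj⟩
    exact Fin.castSucc_ne_last j hj
  · rw [Finsupp.add_apply, Finsupp.single_eq_of_ne (Fin.castSucc_ne_last i), add_zero]
    exact (Finsupp.embDomain_apply_self (Fin.castSuccEmb (n := n)) (ey m) i).symm

theorem ey_emb (β : Fin n →₀ ℕ) (l : ℕ) :
    ey (β.embDomain (Fin.castSuccEmb (n := n)) + Finsupp.single (Fin.last n) l) = β := by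
  ext i
  rw [ey_apply, Finsupp.add_apply, Finsupp.single_eq_of_ne (Fin.castSucc_ne_last i), add_zero]
  exact Finsupp.embDomain_apply_self (Fin.castSuccEmb (n := n)) β i

theorem coeff_rn (g : PS (Fin n)) (m : Fin (n + 1) →₀ ℕ) :
    MvPowerSeries.coeff m (rn g) =
      if m (Fin.last n) = 0 then MvPowerSeries.coeff (ey m) g else 0 := by
  split_ifs with h
  · have h1 := split_exp m
    rw [h, Finsupp.single_zero, add_zero] at h1
    conv_lhs => rw [h1]
    exact MvPowerSeries.coeff_embDomain_rename _ g (ey m)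
  · refine MvPowerSeries.coeff_rename_eq_zero _ g ?_
    rintro ⟨β, hβ⟩
    apply h
    rw [← hβ]
    rw [Finsupp.mapDomain_of_notMem_range]
    rintro ⟨j, hj⟩
    exact Fin.castSucc_ne_last j hj

theorem coeff_z_rn (g : PS (Fin n)) (l : ℕ) (m : Fin (n + 1) →₀ ℕ) :
    MvPowerSeries.coeff m ((MvPowerSeries.X (Fin.last n) : PS (Fin (n + 1))) ^ l * rn g) =
      if m (Fin.last n) = l then MvPowerSeries.coeff (ey m) g else 0 := by
  classical
  rw [MvPowerSeries.X_pow_eq, MvPowerSeries.coeff_monomial_mul]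
  by_cases h : l ≤ m (Fin.last n)
  · rw [if_pos (Finsupp.single_le_iff.2 h), one_mul, coeff_rn]
    have h1 : (m - Finsupp.single (Fin.last n) l) (Fin.last n) = m (Fin.last n) - l := by
      rw [Finsupp.tsub_apply, Finsupp.single_eq_same]
    have h2 : ey (m - Finsupp.single (Fin.last n) l) = ey m := by
      ext i
      rw [ey_apply, ey_apply, Finsupp.tsub_apply,
        Finsupp.single_eq_of_ne (Fin.castSucc_ne_last i), tsub_zero]
    rw [h1, h2]
    by_cases h3 : m (Fin.last n) = l
    · rw [if_pos (by omega), if_pos h3]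
    · rw [if_neg (by omega), if_neg h3]
  · rw [if_neg (fun h1 => h (Finsupp.single_le_iff.1 h1)), if_neg (by omega)]

theorem pp_rn (i : Fin n) (g : PS (Fin n)) : pp i.castSucc (rn g) = rn (pp i g) := by
  ext m
  rw [pp_apply, MvPowerSeries.coeff_pderiv, coeff_rn, coeff_rn, pp_apply,
    MvPowerSeries.coeff_pderiv]
  have h1 : (m + Finsupp.single i.castSucc 1 : Fin (n + 1) →₀ ℕ) (Fin.last n) = m (Fin.last n) := by
    rw [Finsupp.add_apply, Finsupp.single_eq_of_ne (Fin.castSucc_ne_last i).symm, add_zero]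
  have h2 : ey (m + Finsupp.single i.castSucc 1) = ey m + Finsupp.single i 1 := by
    ext j
    rw [ey_apply, Finsupp.add_apply, Finsupp.add_apply, ey_apply]
    congr 1
    by_cases hj : j = i
    · rw [hj, Finsupp.single_eq_same, Finsupp.single_eq_same]
    · rw [Finsupp.single_eq_of_ne hj, Finsupp.single_eq_of_ne
        (fun h => hj (Fin.castSucc_injective n h))]
  rw [h1, h2]
  split_ifs
  · rfl
  · rw [zero_mul]

theorem pp_rn_last (g : PS (Fin n)) : pp (Fin.last n) (rn g) = 0 := by
  ext m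
  rw [pp_apply, MvPowerSeries.coeff_pderiv, coeff_rn, if_neg, zero_mul]
  · rfl
  · rw [Finsupp.add_apply, Finsupp.single_eq_same]
    omega

theorem pp_rn_X (i : Fin n) :
    pp i.castSucc (MvPowerSeries.X (Fin.last n) : PS (Fin (n + 1))) = 0 := by
  rw [pp_apply, MvPowerSeries.pderiv_X_of_ne]
  exact (Fin.castSucc_ne_last i).symm

/-- the chart -/
noncomputable def chZ (ξ : Fin (n + 1) → PS (Fin n)) (j : Fin (n + 1)) : PS (Fin (n + 1)) :=
  MvPowerSeries.X (Fin.last n) * rn (ξ j)

/-- the matrix of the derivatives of `ξ` and of `ξ` -/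
noncomputable def smat (ξ : Fin (n + 1) → PS (Fin n)) : Matrix (Fin (n + 1)) (Fin (n + 1)) (PS (Fin n)) :=
  Matrix.of fun j i => Fin.lastCases (motive := fun _ => PS (Fin n)) (ξ j) (fun i => pp i (ξ j)) i

end Pool.Agent.Helper48.TC
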