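import Pool.Agent.Helper48.TC.Rn

set_option autoImplicit false
set_option linter.unusedSectionVars false

/-! # Vector fields on a slice of a cone -/

namespace Pool.Agent.Helper48.TC

open Finset MvPolynomial Pool.Agent.H628R4.TP Pool.Agent.K3h38.SM Pool.Agent.Helper48.SN
  Pool.Agent.Helper48.SW

variable {n : ℕ} (ξ : Fin (n + 1) → PS (Fin n))

theorem smat_succ (j : Fin (n + 1)) (i : Fin n) : smat ξ j i.castSucc = pp i (ξ j) := by
  rw [smat, Matrix.of_apply, Fin.lastCases_castSucc]

theorem smat_last (j : Fin (n + 1)) : smat ξ j (Fin.last n) = ξ j := by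
  rw [smat, Matrix.of_apply, Fin.lastCases_last]

theorem adj_smat (i p : Fin (n + 1)) : ∑ j, (smat ξ).adjugate i j * smat ξ j p =
    if i = p then (smat ξ).det else 0 := by
  have h3 := congrFun (congrFun (Matrix.adjugate_mul (smat ξ)) i) p
  rw [Matrix.mul_apply, Matrix.smul_apply, Matrix.one_apply, smul_eq_mul] at h3
  rw [h3]
  split_ifs
  · rw [mul_one]
  · rw [mul_zero]

theorem smat_adj (l j : Fin (n + 1)) : ∑ i, (smat ξ).adjugate i j * smat ξ l i =
    if l = j then (smat ξ).det else 0 := by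
  have h3 := congrFun (congrFun (Matrix.mul_adjugate (smat ξ)) l) j
  rw [Matrix.mul_apply, Matrix.smul_apply, Matrix.one_apply, smul_eq_mul] at h3
  have h4 : ∑ i, (smat ξ).adjugate i j * smat ξ l i = ∑ i, smat ξ l i * (smat ξ).adjugate i j :=
    Finset.sum_congr rfl fun i _ => mul_comm _ _
  rw [h4, h3]
  split_ifs
  · rw [mul_one]
  · rw [mul_zero]

/-- Piola's identity on the slice -/
theorem piola_sl (hD : (smat ξ).det ≠ 0) (j : Fin (n + 1)) :
    ∑ i : Fin n, pp i ((smat ξ).adjugate i.castSucc j) +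
      (n : PS (Fin n)) * (smat ξ).adjugate (Fin.last n) j = 0 := by
  classical
  set M := smat ξ with hM
  set T : Fin (n + 1) → PS (Fin n) := fun j => ∑ i : Fin n, pp i (M.adjugate i.castSucc j) +
      (n : PS (Fin n)) * M.adjugate (Fin.last n) j with hT
  have h0 : ∀ p, ∑ j, T j * M j p = ∑ i : Fin n, pp i (if i.castSucc = p then M.det else 0) -
      ∑ i : Fin n, ∑ j, M.adjugate i.castSucc j * pp i (M j p) +
        (n : PS (Fin n)) * (if Fin.last n = p then M.det else 0) := by
    intro p
    have h1 : ∀ i : Fin n, pp i (if i.castSucc = p then M.det else 0) =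
        ∑ j, pp i (M.adjugate i.castSucc j) * M j p +
          ∑ j, M.adjugate i.castSucc j * pp i (M j p) := by
      intro i
      rw [← adj_smat ξ i.castSucc p, map_sum, ← Finset.sum_add_distrib]
      refine Finset.sum_congr rfl fun j _ => ?_
      rw [pp_mul]
      ring
    rw [Finset.sum_congr rfl fun i _ => h1 i, Finset.sum_add_distrib, add_sub_cancel_right,
      ← adj_smat ξ (Fin.last n) p, Finset.mul_sum]
    simp only [hT, add_mul, Finset.sum_mul, Finset.sum_add_distrib]
    rw [Finset.sum_comm]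
    congr 1
    exact Finset.sum_congr rfl fun j _ => by rw [mul_assoc]
  have h1 : ∀ p, ∑ j, T j * M j p = 0 := by
    intro p
    rw [h0 p]
    refine Fin.lastCases ?_ (fun p => ?_) p
    · have h2 : ∀ i : Fin n, pp i (if i.castSucc = Fin.last n then M.det else 0) = 0 := by
        intro i
        rw [if_neg (Fin.castSucc_ne_last i), map_zero]
      have h3 : ∀ i : Fin n, ∑ j, M.adjugate i.castSucc j * pp i (M j (Fin.last n)) = M.det := by
        intro i
        have h4 := adj_smat ξ i.castSucc i.castSucc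
        rw [if_pos rfl] at h4
        rw [← h4]
        refine Finset.sum_congr rfl fun j _ => ?_
        rw [hM, smat_last, smat_succ]
      rw [Finset.sum_eq_zero fun i _ => h2 i, Finset.sum_congr rfl fun i _ => h3 i,
        Finset.sum_const, Finset.card_univ, Fintype.card_fin, if_pos rfl, nsmul_eq_mul]
      ring
    · have h2 : ∑ i : Fin n, pp i (if i.castSucc = p.castSucc then M.det else 0) = pp p M.det := by
        rw [Finset.sum_eq_single p]
        · rw [if_pos rfl]
        · intro i _ hi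
          rw [if_neg (fun h => hi (Fin.castSucc_injective n h)), map_zero]
        · intro h4
          exact absurd (Finset.mem_univ p) h4
      have h3 : ∑ i : Fin n, ∑ j, M.adjugate i.castSucc j * pp i (M j p.castSucc) =
          pp p M.det := by
        have h4 : pp p M.det = ∑ i, ∑ j, M.adjugate i j * pp p (M j i) :=
          deriv_det (MvPowerSeries.pderiv ℂ p) M
        have h5 : ∑ j, M.adjugate (Fin.last n) j * pp p (M j (Fin.last n)) = 0 := by
          have h6 := adj_smat ξ (Fin.last n) p.castSucc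
          rw [if_neg (Fin.castSucc_ne_last p).symm] at h6
          rw [← h6]
          refine Finset.sum_congr rfl fun j _ => ?_
          rw [hM, smat_last, smat_succ]
        rw [h4, Fin.sum_univ_castSucc, h5, add_zero]
        refine Finset.sum_congr rfl fun i _ => Finset.sum_congr rfl fun j _ => ?_
        rw [hM, smat_succ, smat_succ, pp_comm i p (ξ j)]
      rw [h2, h3, if_neg (Fin.castSucc_ne_last p).symm]
      ring
  have h2 : M.det * T j = 0 := by
    have h3 : ∑ p, (∑ j, T j * M j p) * M.adjugate p j = M.det * T j := by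
      simp only [Finset.sum_mul]
      rw [Finset.sum_comm]
      have h4 : ∀ l, ∑ p, T l * M l p * M.adjugate p j = if l = j then M.det * T l else 0 := by
        intro l
        have h5 := smat_adj ξ l j
        have h6 : ∑ p, T l * M l p * M.adjugate p j = T l * ∑ i, M.adjugate i j * M l i := by
          rw [Finset.mul_sum]
          exact Finset.sum_congr rfl fun p _ => by ring
        rw [h6, hM, h5]
        split_ifs
        · ring
        · rw [mul_zero]
      rw [Finset.sum_congr rfl fun l _ => h4 l, Finset.sum_ite_eq', if_pos (Finset.mem_univ j)]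
    rw [← h3]
    exact Finset.sum_eq_zero fun p _ => by rw [h1, zero_mul]
  exact (mul_eq_zero.1 h2).resolve_left hD

/-- the components of a vector field with respect to the slice -/
noncomputable def Qs (θ : Fin (n + 1) → PS (Fin n)) (i : Fin (n + 1)) : PS (Fin n) :=
  ∑ j, (smat ξ).adjugate i j * θ j

theorem Qs_apply (φ : MvPolynomial (Fin (n + 1)) ℂ) (d : ℕ) (hφ : φ.IsHomogeneous d)
    (Θ : Fin (n + 1) → MvPolynomial (Fin (n + 1)) ℂ) :
    ∑ i : Fin n, Qs ξ (fun j => aeval ξ (Θ j)) i.castSucc * pp i (aeval ξ φ) +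
      Qs ξ (fun j => aeval ξ (Θ j)) (Fin.last n) * ((d : PS (Fin n)) * aeval ξ φ) =
      (smat ξ).det * aeval ξ (∑ j, Θ j * pderiv j φ) := by
  classical
  have h1 : ∀ i : Fin n, pp i (aeval ξ φ) = ∑ l, aeval ξ (pderiv l φ) * smat ξ l i.castSucc := by
    intro i
    rw [pp_aeval']
    exact Finset.sum_congr rfl fun l _ => by rw [smat_succ]
  have h2 : (d : PS (Fin n)) * aeval ξ φ =
      ∑ l, aeval ξ (pderiv l φ) * smat ξ l (Fin.last n) := by
    have h3 := hφ.sum_X_mul_pderiv
    have h4 := congrArg (aeval ξ) h3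
    rw [map_sum, nsmul_eq_mul, map_mul, map_natCast] at h4
    rw [← h4]
    refine Finset.sum_congr rfl fun l _ => ?_
    rw [map_mul, aeval_X, smat_last, mul_comm]
  rw [h2, Finset.sum_congr rfl fun i _ => by rw [h1 i]]
  have h3 : ∀ i, Qs ξ (fun j => aeval ξ (Θ j)) i *
      (∑ l, aeval ξ (pderiv l φ) * smat ξ l i) =
        ∑ l, ∑ j, aeval ξ (Θ j) * aeval ξ (pderiv l φ) *
          ((smat ξ).adjugate i j * smat ξ l i) := by
    intro i
    rw [Qs, Finset.mul_sum]
    refine Finset.sum_congr rfl fun l _ => ?_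
    rw [Finset.sum_mul]
    exact Finset.sum_congr rfl fun j _ => by ring
  have h4 := Fin.sum_univ_castSucc (fun i => Qs ξ (fun j => aeval ξ (Θ j)) i *
      (∑ l, aeval ξ (pderiv l φ) * smat ξ l i))
  rw [← h4, Finset.sum_congr rfl fun i _ => h3 i, Finset.sum_comm, map_sum, Finset.mul_sum]
  refine Finset.sum_congr rfl fun l _ => ?_
  rw [Finset.sum_comm]
  have h5 : ∀ j, ∑ i, aeval ξ (Θ j) * aeval ξ (pderiv l φ) *
      ((smat ξ).adjugate i j * smat ξ l i) =
        if l = j then (smat ξ).det * (aeval ξ (Θ j) * aeval ξ (pderiv l φ)) else 0 := by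
    intro j
    rw [← Finset.mul_sum, smat_adj]
    split_ifs
    · ring
    · rw [mul_zero]
  rw [Finset.sum_congr rfl fun j _ => h5 j, Finset.sum_ite_eq, if_pos (Finset.mem_univ l), map_mul]

theorem Qs_div (hD : (smat ξ).det ≠ 0) (m : ℕ)
    (Θ : Fin (n + 1) → MvPolynomial (Fin (n + 1)) ℂ) (hΘ : ∀ i, (Θ i).IsHomogeneous m) :
    ∑ i : Fin n, pp i (Qs ξ (fun j => aeval ξ (Θ j)) i.castSucc) +
      ((n + m : ℕ) : PS (Fin n)) * Qs ξ (fun j => aeval ξ (Θ j)) (Fin.last n) =
      (smat ξ).det * aeval ξ (∑ j, pderiv j (Θ j)) := by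
  classical
  have h1 : ∀ i : Fin n, pp i (Qs ξ (fun j => aeval ξ (Θ j)) i.castSucc) =
      ∑ j, pp i ((smat ξ).adjugate i.castSucc j) * aeval ξ (Θ j) +
        ∑ j, ∑ l, aeval ξ (pderiv l (Θ j)) * ((smat ξ).adjugate i.castSucc j *
          smat ξ l i.castSucc) := by
    intro i
    rw [Qs, map_sum, ← Finset.sum_add_distrib]
    refine Finset.sum_congr rfl fun j _ => ?_
    rw [pp_mul, pp_aeval', Finset.mul_sum]
    have h2 : ∀ l, (smat ξ).adjugate i.castSucc j * (aeval ξ (pderiv l (Θ j)) * pp i (ξ l)) =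
        aeval ξ (pderiv l (Θ j)) * ((smat ξ).adjugate i.castSucc j * smat ξ l i.castSucc) := by
      intro l
      rw [smat_succ]
      ring
    rw [Finset.sum_congr rfl fun l _ => h2 l]
    ring
  have h2 : (m : PS (Fin n)) * Qs ξ (fun j => aeval ξ (Θ j)) (Fin.last n) =
      ∑ j, ∑ l, aeval ξ (pderiv l (Θ j)) * ((smat ξ).adjugate (Fin.last n) j *
          smat ξ l (Fin.last n)) := by
    rw [Qs, Finset.mul_sum]
    refine Finset.sum_congr rfl fun j _ => ?_
    have h3 := (hΘ j).sum_X_mul_pderiv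
    have h4 := congrArg (aeval ξ) h3
    rw [map_sum, nsmul_eq_mul, map_mul, map_natCast] at h4
    have h5 : (m : PS (Fin n)) * ((smat ξ).adjugate (Fin.last n) j * aeval ξ (Θ j)) =
        (smat ξ).adjugate (Fin.last n) j * ((m : PS (Fin n)) * aeval ξ (Θ j)) := by ring
    rw [h5, ← h4, Finset.mul_sum]
    refine Finset.sum_congr rfl fun l _ => ?_
    rw [map_mul, aeval_X, smat_last]
    ring
  have h3 : ∑ i : Fin n, ∑ j, pp i ((smat ξ).adjugate i.castSucc j) * aeval ξ (Θ j) +
      (n : PS (Fin n)) * Qs ξ (fun j => aeval ξ (Θ j)) (Fin.last n) = 0 := by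
    rw [Finset.sum_comm, Qs, Finset.mul_sum, ← Finset.sum_add_distrib]
    refine Finset.sum_eq_zero fun j _ => ?_
    have h4 := piola_sl ξ hD j
    rw [← Finset.sum_mul, ← mul_assoc, ← add_mul, h4, zero_mul]
  have h4 : ∑ i, ∑ j, ∑ l, aeval ξ (pderiv l (Θ j)) * ((smat ξ).adjugate i j * smat ξ l i) =
      (smat ξ).det * aeval ξ (∑ j, pderiv j (Θ j)) := by
    rw [Finset.sum_comm, map_sum, Finset.mul_sum]
    refine Finset.sum_congr rfl fun j _ => ?_
    rw [Finset.sum_comm]
    have h5 : ∀ l, ∑ i, aeval ξ (pderiv l (Θ j)) * ((smat ξ).adjugate i j * smat ξ l i) =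
        if l = j then (smat ξ).det * aeval ξ (pderiv l (Θ j)) else 0 := by
      intro l
      rw [← Finset.mul_sum, smat_adj]
      split_ifs
      · ring
      · rw [mul_zero]
    rw [Finset.sum_congr rfl fun l _ => h5 l, Finset.sum_ite_eq', if_pos (Finset.mem_univ j)]
  rw [Fin.sum_univ_castSucc, ← h2] at h4
  rw [Finset.sum_congr rfl fun i _ => h1 i, Finset.sum_add_distrib, ← h4]
  push_cast
  linear_combination h3

end Pool.Agent.Helper48.TC
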