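import Pool.Agent.Helper48.TC.Asm

set_option autoImplicit false
set_option linter.unusedSectionVars false

/-! # From a formal chart to the polynomial ring, modulo powers of the maximal ideal -/

namespace Pool.Agent.Helper48.TC

open Finset MvPolynomial Pool.Agent.H628R4.TP Pool.Agent.K3h38.SM Pool.Agent.Helper48.SN
  Pool.Agent.Helper48.SW

section OK

variable {τ : Type} [Fintype τ]

/-- the power series without terms of degree `< K` -/
def OKI (τ : Type) (K : ℕ) : Ideal (PS τ) where
  carrier := {g | ∀ m : τ →₀ ℕ, m.degree < K → MvPowerSeries.coeff m g = 0}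
  add_mem' := fun {a b} ha hb m hm => by rw [map_add, ha m hm, hb m hm, add_zero]
  zero_mem' := fun m _ => map_zero _
  smul_mem' := fun c x hx m hm => by
    classical
    rw [smul_eq_mul, MvPowerSeries.coeff_mul]
    refine Finset.sum_eq_zero fun p hp => ?_
    have h1 := Finset.HasAntidiagonal.mem_antidiagonal.1 hp
    have h2 := congrArg Finsupp.degree h1
    rw [map_add] at h2
    rw [hx p.2 (by omega), mul_zero]

theorem mem_OKI {K : ℕ} {g : PS τ} :
    g ∈ OKI τ K ↔ ∀ m : τ →₀ ℕ, m.degree < K → MvPowerSeries.coeff m g = 0 := Iff.rfl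

theorem OKI_mul {s t : ℕ} {g h : PS τ} (hg : g ∈ OKI τ s) (hh : h ∈ OKI τ t) :
    g * h ∈ OKI τ (s + t) := by
  classical
  intro m hm
  rw [MvPowerSeries.coeff_mul]
  refine Finset.sum_eq_zero fun p hp => ?_
  have h1 := Finset.HasAntidiagonal.mem_antidiagonal.1 hp
  have h2 := congrArg Finsupp.degree h1
  rw [map_add] at h2
  rcases lt_or_ge p.1.degree s with h3 | h3
  · rw [hg p.1 h3, zero_mul]
  · rw [hh p.2 (by omega), mul_zero]

theorem OKI_X (i : τ) : (MvPowerSeries.X i : PS τ) ∈ OKI τ 1 := by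
  classical
  intro m hm
  rw [MvPowerSeries.coeff_X, if_neg]
  intro h
  rw [h, Finsupp.degree_single] at hm
  omega

variable (ζ : τ → PS τ) (hζ : ∀ i, ζ i - MvPowerSeries.X i ∈ OKI τ 2)

include hζ

theorem ζ_mem (i : τ) : ζ i ∈ OKI τ 1 := by
  have h1 : ζ i = (ζ i - MvPowerSeries.X i) + MvPowerSeries.X i := by ring
  rw [h1]
  exact Ideal.add_mem _ (fun m hm => hζ i m (by omega)) (OKI_X i)

theorem lead_prod (m : τ → ℕ) (s : Finset τ) :
    (∏ i ∈ s, ζ i ^ m i) ∈ OKI τ (∑ i ∈ s, m i) ∧
      (∏ i ∈ s, (MvPowerSeries.X i : PS τ) ^ m i) ∈ OKI τ (∑ i ∈ s, m i) ∧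
      (∏ i ∈ s, ζ i ^ m i) - (∏ i ∈ s, (MvPowerSeries.X i : PS τ) ^ m i) ∈
        OKI τ (∑ i ∈ s, m i + 1) := by
  classical
  have hstep : ∀ (a b a' b' : PS τ) (s t : ℕ), a ∈ OKI τ s → b ∈ OKI τ s → a - b ∈ OKI τ (s + 1) →
      a' ∈ OKI τ t → b' ∈ OKI τ t → a' - b' ∈ OKI τ (t + 1) →
      a * a' ∈ OKI τ (s + t) ∧ b * b' ∈ OKI τ (s + t) ∧ a * a' - b * b' ∈ OKI τ (s + t + 1) := by
    intro a b a' b' s t h1 h2 h3 h4 h5 h6
    refine ⟨OKI_mul h1 h4, OKI_mul h2 h5, ?_⟩
    have h7 : a * a' - b * b' = (a - b) * a' + b * (a' - b') := by ring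
    rw [h7]
    refine Ideal.add_mem _ ?_ ?_
    · have := OKI_mul h3 h4
      rwa [show s + 1 + t = s + t + 1 by ring] at this
    · have := OKI_mul h2 h6
      rwa [show s + (t + 1) = s + t + 1 by ring] at this
  have hpow : ∀ (i : τ) (k : ℕ), ζ i ^ k ∈ OKI τ k ∧ (MvPowerSeries.X i : PS τ) ^ k ∈ OKI τ k ∧
      ζ i ^ k - (MvPowerSeries.X i : PS τ) ^ k ∈ OKI τ (k + 1) := by
    intro i k
    induction k with
    | zero =>
      rw [pow_zero, pow_zero, sub_self]
      exact ⟨fun m hm => absurd hm (Nat.not_lt_zero _), fun m hm => absurd hm (Nat.not_lt_zero _),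
        Ideal.zero_mem _⟩
    | succ k ih =>
      rw [pow_succ, pow_succ]
      exact hstep _ _ _ _ k 1 ih.1 ih.2.1 ih.2.2 (ζ_mem ζ hζ i) (OKI_X i) (hζ i)
  induction s using Finset.induction_on with
  | empty =>
    rw [Finset.prod_empty, Finset.prod_empty, Finset.sum_empty, sub_self]
    exact ⟨fun m hm => absurd hm (Nat.not_lt_zero _), fun m hm => absurd hm (Nat.not_lt_zero _),
      Ideal.zero_mem _⟩
  | insert i s hi ih =>
    rw [Finset.prod_insert hi, Finset.prod_insert hi, Finset.sum_insert hi]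
    exact hstep _ _ _ _ (m i) _ (hpow i (m i)).1 (hpow i (m i)).2.1 (hpow i (m i)).2.2 ih.1 ih.2.1
      ih.2.2

theorem lead_hom (l : ℕ) (g : MvPolynomial τ ℂ) (hg : g.IsHomogeneous l) :
    (aeval ζ g : PS τ) ∈ OKI τ l ∧ (aeval ζ g : PS τ) - (g : PS τ) ∈ OKI τ (l + 1) := by
  classical
  have hdeg : ∀ m ∈ g.support, ∑ i, m i = l := by
    intro m hm
    have h2 := hg (mem_support_iff.1 hm)
    rw [← h2, Finsupp.weight_apply, Finsupp.sum_fintype _ _ (by simp)]
    simp
  have h1 : ∀ m, (aeval ζ (monomial m (coeff m g)) : PS τ) =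
      MvPowerSeries.C (coeff m g) * ∏ i, ζ i ^ m i := by
    intro m
    rw [aeval_monomial, Finsupp.prod_fintype _ _ (by simp)]
    rfl
  have h2 : ∀ m, ((monomial m (coeff m g) : MvPolynomial τ ℂ) : PS τ) =
      MvPowerSeries.C (coeff m g) * ∏ i, (MvPowerSeries.X i : PS τ) ^ m i := by
    intro m
    have h3 : (monomial m (coeff m g) : MvPolynomial τ ℂ) = C (coeff m g) * ∏ i, X i ^ m i := by
      rw [monomial_eq, Finsupp.prod_fintype _ _ (by simp)]
    rw [h3, MvPolynomial.coe_mul, MvPolynomial.coe_C]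
    congr 1
    rw [← MvPolynomial.coeToMvPowerSeries.ringHom_apply, map_prod]
    refine Finset.prod_congr rfl fun i _ => ?_
    rw [map_pow, MvPolynomial.coeToMvPowerSeries.ringHom_apply, MvPolynomial.coe_X]
  have h3 : (aeval ζ g : PS τ) = ∑ m ∈ g.support, MvPowerSeries.C (coeff m g) * ∏ i, ζ i ^ m i := by
    conv_lhs => rw [g.as_sum, map_sum]
    exact Finset.sum_congr rfl fun m _ => h1 m
  have h4 : (g : PS τ) = ∑ m ∈ g.support, MvPowerSeries.C (coeff m g) *
      ∏ i, (MvPowerSeries.X i : PS τ) ^ m i := by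
    conv_lhs => rw [g.as_sum]
    rw [← MvPolynomial.coeToMvPowerSeries.ringHom_apply, map_sum]
    refine Finset.sum_congr rfl fun m _ => ?_
    rw [MvPolynomial.coeToMvPowerSeries.ringHom_apply]
    exact h2 m
  constructor
  · rw [h3]
    refine Ideal.sum_mem _ fun m hm => Ideal.mul_mem_left _ _ ?_
    have h5 := (lead_prod ζ hζ (fun i => m i) Finset.univ).1
    rwa [hdeg m hm] at h5
  · rw [h3, h4, ← Finset.sum_sub_distrib]
    refine Ideal.sum_mem _ fun m hm => ?_
    rw [← mul_sub]
    refine Ideal.mul_mem_left _ _ ?_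
    have h5 := (lead_prod ζ hζ (fun i => m i) Finset.univ).2.2
    rwa [hdeg m hm] at h5

theorem surj_OKI (G : PS τ) (K : ℕ) : ∃ g : MvPolynomial τ ℂ, G - aeval ζ g ∈ OKI τ K := by
  induction K with
  | zero => exact ⟨0, fun m hm => absurd hm (Nat.not_lt_zero _)⟩
  | succ K ih =>
    obtain ⟨g, hg⟩ := ih
    set u := hcp K (G - aeval ζ g) with hu
    have h1 := lead_hom ζ hζ K u (hcp_hom K _)
    refine ⟨g + u, fun m hm => ?_⟩
    rw [map_add, ← sub_sub, map_sub]
    have h2 : MvPowerSeries.coeff m (aeval ζ u : PS τ) = coeff m u := by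
      have h3 := h1.2 m hm
      rw [map_sub, sub_eq_zero, MvPolynomial.coeff_coe] at h3
      exact h3
    rw [h2, hu, coeff_hcp]
    split_ifs with h3
    · rw [sub_self]
    · rw [hg m (by omega), sub_zero]

theorem inj_OKI (g : MvPolynomial τ ℂ) (K : ℕ) (hg : (aeval ζ g : PS τ) ∈ OKI τ K) :
    ∀ m : τ →₀ ℕ, m.degree < K → coeff m g = 0 := by
  have h1 : ∀ l, l < K → homogeneousComponent l g = 0 := by
    intro l
    induction l using Nat.strong_induction_on with
    | _ l ih =>
      intro hl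
      ext m
      rw [coeff_homogeneousComponent, coeff_zero]
      split_ifs with hm
      · have h2 : (aeval ζ g : PS τ) - ((homogeneousComponent l g : MvPolynomial τ ℂ) : PS τ) ∈
            OKI τ (l + 1) := by
          have h3 : (aeval ζ g : PS τ) = ∑ i ∈ Finset.range (g.totalDegree + 1),
              (aeval ζ (homogeneousComponent i g) : PS τ) := by
            conv_lhs => rw [← sum_homogeneousComponent g, map_sum]
          by_cases h4 : l ∈ Finset.range (g.totalDegree + 1)
          · rw [h3, ← Finset.add_sum_erase _ _ h4, add_sub_right_comm]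
            refine Ideal.add_mem _
              (lead_hom ζ hζ l _ (homogeneousComponent_isHomogeneous l g)).2 ?_
            refine Ideal.sum_mem _ fun i hi => ?_
            rcases lt_or_gt_of_ne (Finset.ne_of_mem_erase hi) with h5 | h5
            · rw [ih i h5 (by omega), map_zero]
              exact Ideal.zero_mem _
            · intro m' hm'
              exact (lead_hom ζ hζ i _ (homogeneousComponent_isHomogeneous i g)).1 m' (by omega)
          · have h5 : homogeneousComponent l g = 0 := by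
              rw [Finset.mem_range, not_lt] at h4
              exact homogeneousComponent_eq_zero _ _ (by omega)
            rw [h5, MvPolynomial.coe_zero, sub_zero, h3]
            refine Ideal.sum_mem _ fun i hi => ?_
            rcases lt_trichotomy i l with h6 | h6 | h6
            · rw [ih i h6 (by omega), map_zero]
              exact Ideal.zero_mem _
            · exact absurd (h6 ▸ hi) h4
            · intro m' hm'
              exact (lead_hom ζ hζ i _ (homogeneousComponent_isHomogeneous i g)).1 m' (by omega)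
        have h3 := h2 m (by omega)
        rw [map_sub, hg m (by omega), MvPolynomial.coeff_coe, coeff_homogeneousComponent,
          if_pos hm, zero_sub, neg_eq_zero] at h3
        exact h3
      · rfl
  intro m hm
  have h2 := congrArg (coeff m) (h1 m.degree hm)
  rwa [coeff_homogeneousComponent, if_pos rfl, coeff_zero] at h2

end OK

end Pool.Agent.Helper48.TC
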